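import Pool.Agent.ZCQ.Defs

/-!
# Rational points as points over `ℚ̄`
-/

set_option autoImplicit false

noncomputable section

namespace Pool.Agent.ZCQ

open WeierstrassCurve Pool.Agent.ZC
open scoped Classical

private theorem up_zero' (W : WeierstrassCurve ℚ) : up W 0 = 0 := rfl

private theorem up_some' (W : WeierstrassCurve ℚ) {x y : ℚ} (h : W.toAffine.Nonsingular x y) :
    up W (.some x y h) = .some (algebraMap ℚ (AlgebraicClosure ℚ) x)
      (algebraMap ℚ (AlgebraicClosure ℚ) y)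
      ((Affine.map_nonsingular W.toAffine (algebraMap ℚ (AlgebraicClosure ℚ)).injective x y).2 h) :=
  rfl

/- PROOF. Mathlib's `WeierstrassCurve.Affine.Point.map` is this map for `W' = W`, `F = ℚ`
(`(W⁄ℚ)` is `W` up to `map_id`/definitional unfolding of `algebraMap ℚ ℚ`), or prove it directly:
cases on the points, `Affine.Point.add_some`, `Affine.map_slope`, `Affine.map_addX`,
`Affine.map_addY`, `Affine.map_negY`. -/
theorem up_add (W : WeierstrassCurve ℚ) (P Q : W.toAffine.Point) :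
    up W (P + Q) = up W P + up W Q := by
  have hinj := (algebraMap ℚ (AlgebraicClosure ℚ)).injective
  rcases P with _ | ⟨x₁, y₁, h₁⟩
  · change up W (0 + Q) = up W 0 + up W Q
    rw [zero_add, up_zero', zero_add]
  rcases Q with _ | ⟨x₂, y₂, h₂⟩
  · change up W (_ + 0) = _ + up W 0
    rw [add_zero, up_zero', add_zero]
  by_cases hxy : x₁ = x₂ ∧ y₁ = W.toAffine.negY x₂ y₂
  · rw [Affine.Point.add_of_Y_eq hxy.1 hxy.2, up_zero', up_some', up_some']
    symm
    apply Affine.Point.add_of_Y_eq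
    · rw [hxy.1]
    · rw [hxy.2]
      exact (Affine.map_negY (W' := W.toAffine) (algebraMap ℚ (AlgebraicClosure ℚ)) x₂ y₂).symm
  · have hxy' : ¬ (algebraMap ℚ (AlgebraicClosure ℚ) x₁ = algebraMap ℚ (AlgebraicClosure ℚ) x₂ ∧
        algebraMap ℚ (AlgebraicClosure ℚ) y₁ = (W⁄(AlgebraicClosure ℚ)).toAffine.negY
          (algebraMap ℚ (AlgebraicClosure ℚ) x₂) (algebraMap ℚ (AlgebraicClosure ℚ) y₂)) := by
      rintro ⟨hx, hy⟩
      refine hxy ⟨hinj hx, hinj ?_⟩
      rw [hy]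
      exact Affine.map_negY (W' := W.toAffine) (algebraMap ℚ (AlgebraicClosure ℚ)) x₂ y₂
    have hs := Affine.map_slope (W := W.toAffine) (algebraMap ℚ (AlgebraicClosure ℚ)) x₁ x₂ y₁ y₂
    rw [Affine.Point.add_some hxy, up_some', up_some', up_some', Affine.Point.add_some hxy',
      Affine.Point.some.injEq]
    refine ⟨?_, ?_⟩
    · rw [← Affine.map_addX, ← hs]
      rfl
    · rw [← Affine.map_addY, ← hs]
      rfl

theorem up_injective (W : WeierstrassCurve ℚ) : Function.Injective (up W) := by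
  have hinj := (algebraMap ℚ (AlgebraicClosure ℚ)).injective
  intro P Q h
  rcases P with _ | ⟨x₁, y₁, h₁⟩
  · rcases Q with _ | ⟨x₂, y₂, h₂⟩
    · rfl
    · exact absurd h.symm (Affine.Point.some_ne_zero _)
  · rcases Q with _ | ⟨x₂, y₂, h₂⟩
    · exact absurd h (Affine.Point.some_ne_zero _)
    · rw [up_some', up_some', Affine.Point.some.injEq] at h
      obtain rfl := hinj h.1
      obtain rfl := hinj h.2
      rfl

/- PROOF. Over `ℚ̄` let `w² = e₂ - e₁` (`w ≠ 0`), `L = (e₃ - e₁) / (e₂ - e₁)` (`≠ 0, 1`). The substitution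
`(X, Y) ↦ (w² X + e₁, w³ Y)` is a `Pool.Agent.ZC.IsoChg (leg L) (W⁄ℚ̄) w e₁ 0 0` (`ZC/Iso.lean`; see
`exists_leg` there), `G = IsoChg.fn`, `IsoChg.lift`. The point of `leg L` is `(u, y / w³)`. -/
theorem up_mem_SetE {W : WeierstrassCurve ℚ} {e₁ e₂ e₃ : ℚ} (h : Rts W e₁ e₂ e₃) {x y u : ℚ}
    (hxy : W.toAffine.Nonsingular x y) (hx : x = e₁ + (e₂ - e₁) * u) (hy : y ≠ 0) :
    up W (.some x y hxy) ∈ SetE (W⁄(AlgebraicClosure ℚ)) (algebraMap ℚ (AlgebraicClosure ℚ) u) := by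
  have hinj := (algebraMap ℚ (AlgebraicClosure ℚ)).injective
  set f := algebraMap ℚ (AlgebraicClosure ℚ) with hf
  obtain ⟨w, hw⟩ : ∃ w : AlgebraicClosure ℚ, w ^ 2 = f (e₂ - e₁) :=
    IsAlgClosed.exists_pow_nat_eq _ (by norm_num)
  have h12 : e₂ - e₁ ≠ 0 := sub_ne_zero.2 h.h12.symm
  have h13 : e₃ - e₁ ≠ 0 := sub_ne_zero.2 h.h13.symm
  have h23 : e₃ - e₂ ≠ 0 := sub_ne_zero.2 h.h23.symm
  have f12 : f (e₂ - e₁) ≠ 0 := (map_ne_zero f).2 h12
  have f13 : f (e₃ - e₁) ≠ 0 := (map_ne_zero f).2 h13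
  have hw0 : w ≠ 0 := by
    rintro rfl
    apply f12
    rw [← hw]
    ring
  have hΔ : (W⁄(AlgebraicClosure ℚ)).Δ ≠ 0 := by
    rw [WeierstrassCurve.baseChange, WeierstrassCurve.map_Δ, Ne, map_eq_zero]
    exact h.Δ_ne_zero
  have hl : f (e₃ - e₁) / f (e₂ - e₁) * f (e₂ - e₁) = f (e₃ - e₁) := div_mul_cancel₀ _ f12
  have hI : IsoChg (leg (f (e₃ - e₁) / f (e₂ - e₁))) (W⁄(AlgebraicClosure ℚ)) w (f e₁) 0 0 := by
    refine ⟨hw0, ?_, ?_, ?_, ?_, ?_⟩
    · simp only [leg, WeierstrassCurve.baseChange, WeierstrassCurve.map, h.a1, map_zero]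
      ring
    · simp only [leg, WeierstrassCurve.baseChange, WeierstrassCurve.map, h.a1, h.a2, map_zero]
      rw [hw]
      simp only [map_sub, map_add, map_neg] at hl ⊢
      linear_combination -hl
    · simp only [leg, WeierstrassCurve.baseChange, WeierstrassCurve.map, h.a1, h.a3, map_zero]
      ring
    · simp only [leg, WeierstrassCurve.baseChange, WeierstrassCurve.map, h.a1, h.a2, h.a3, h.a4,
        map_zero]
      rw [show w ^ 4 = (w ^ 2) ^ 2 by ring, hw]
      simp only [map_sub, map_add, map_neg, map_mul] at hl ⊢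
      linear_combination (f e₂ - f e₁) * hl
    · simp only [leg, WeierstrassCurve.baseChange, WeierstrassCurve.map, h.a1, h.a2, h.a3, h.a4,
        h.a6, map_zero]
      simp only [map_sub, map_add, map_neg, map_mul]
      ring
  have heq : y ^ 2 = (x - e₁) * (x - e₂) * (x - e₃) := (h.nonsingular_iff x y).1 hxy
  have heq' : f y ^ 2 = w ^ 6 * (f u * (f u - 1) * (f u - f (e₃ - e₁) / f (e₂ - e₁))) := by
    have h1 : w ^ 6 = f (e₂ - e₁) ^ 3 := by
      rw [← hw]
      ring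
    have h2 : f (e₂ - e₁) ^ 3 * (f u * (f u - 1) * (f u - f (e₃ - e₁) / f (e₂ - e₁))) =
        f (e₂ - e₁) ^ 2 * (f u * (f u - 1)) * (f (e₂ - e₁) * f u - f (e₃ - e₁)) := by
      linear_combination (-(f (e₂ - e₁) ^ 2 * (f u * (f u - 1)))) * hl
    rw [h1, h2, ← map_pow, heq, hx]
    simp only [map_sub, map_add, map_mul]
    ring
  have hns : (leg (f (e₃ - e₁) / f (e₂ - e₁))).toAffine.Nonsingular (f u) (f y / w ^ 3) := by
    rw [← Affine.equation_iff_nonsingular_of_Δ_ne_zero]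
    · rw [Affine.equation_iff]
      simp only [leg]
      have h3 : (f y / w ^ 3) ^ 2 = f u * (f u - 1) * (f u - f (e₃ - e₁) / f (e₂ - e₁)) := by
        rw [div_pow, heq']
        field_simp
      linear_combination h3
    · have h3 : f (e₃ - e₁) / f (e₂ - e₁) ≠ 0 := div_ne_zero f13 f12
      have h4 : f (e₃ - e₁) / f (e₂ - e₁) - 1 ≠ 0 := by
        rw [sub_ne_zero]
        intro h5
        rw [div_eq_one_iff_eq f12] at h5
        exact h23 (by linear_combination hinj h5)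
      have h5 : (leg (f (e₃ - e₁) / f (e₂ - e₁))).Δ = 16 * (f (e₃ - e₁) / f (e₂ - e₁)) ^ 2 *
          (f (e₃ - e₁) / f (e₂ - e₁) - 1) ^ 2 := by
        simp only [WeierstrassCurve.Δ, WeierstrassCurve.b₂, WeierstrassCurve.b₄,
          WeierstrassCurve.b₆, WeierstrassCurve.b₈, leg]
        ring
      rw [h5]
      exact mul_ne_zero (mul_ne_zero (by norm_num) (pow_ne_zero 2 h3)) (pow_ne_zero 2 h4)
  refine ⟨f (e₃ - e₁) / f (e₂ - e₁), f y / w ^ 3, hns, hI.fn hΔ, div_ne_zero f13 f12, ?_,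
    div_ne_zero ((map_ne_zero f).2 hy) (pow_ne_zero 3 hw0), hI.lift hΔ, rfl, ?_⟩
  · intro h5
    rw [div_eq_one_iff_eq f12] at h5
    exact h23 (by linear_combination hinj h5)
  · rw [up_some', IsoChg.fn_some, Affine.Point.some.injEq]
    refine ⟨?_, ?_⟩
    · rw [← hf, hw, hx]
      simp only [map_sub, map_add, map_mul]
      ring
    · rw [← hf, mul_div_cancel₀ _ (pow_ne_zero 3 hw0)]
      ring

end Pool.Agent.ZCQ
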