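import Pool.Agent.ZCQ.Up

/-!
# Zero-cycles supported on rational points
-/

set_option autoImplicit false

noncomputable section

namespace Pool.Agent.ZCQ

open WeierstrassCurve Pool.Agent.ZC
open scoped Classical

private def upHom (W : WeierstrassCurve ℚ) :
    W.toAffine.Point →+ (W⁄(AlgebraicClosure ℚ)).toAffine.Point where
  toFun := up W
  map_zero' := rfl
  map_add' := up_add W

/- PROOF. `cycleN` for `fun i => (W i)⁄ℚ̄` and the sets `SetE ((W i)⁄ℚ̄) u` exactly as at the end of
`resultN_aux` (ZCN/Final.lean: `two_add_left`, `SetE.sym`); `up` is additive (`up_add`, `up_mem_SetE`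
are in Up.lean), so `m i • up g = up (m i • g)` is in the closure of the image of `S i`. -/
theorem cycleQ {I : Type} [Fintype I] (W : I → WeierstrassCurve ℚ) (hW : ∀ i, (W i).IsElliptic)
    (u : ℚ) (S : (i : I) → Set (W i).toAffine.Point)
    (hS : ∀ i, ∀ P ∈ S i, up (W i) P ∈
      SetE ((W i)⁄(AlgebraicClosure ℚ)) (algebraMap ℚ (AlgebraicClosure ℚ) u))
    (m : I → ℕ) (z : Z0N fun i => (W i)⁄(AlgebraicClosure ℚ))
    (hz : ∀ p ∈ z.support, ∀ i, ∃ g : (W i).toAffine.Point, p i = up (W i) g ∧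
      m i • g ∈ AddSubgroup.closure (S i))
    (hd : z.sum (fun _ n => n) = 0) (hs : ∀ i, z.sum (fun p n => n • p i) = 0) :
    (2 * ∏ i, m i) • z ∈ RatEqN fun i => (W i)⁄(AlgebraicClosure ℚ) := by
  refine cycleN (fun i => (W i)⁄(AlgebraicClosure ℚ)) (fun i x y => ?_)
    (fun i => SetE ((W i)⁄(AlgebraicClosure ℚ)) (algebraMap ℚ (AlgebraicClosure ℚ) u))
    (fun i j _ P hP Q hQ => SetE.sym hP hQ) m z (fun p hp i => ?_) hd hs
  · have h1 := hW i
    have h2 : ((W i).map (algebraMap ℚ (AlgebraicClosure ℚ))).IsElliptic := inferInstance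
    have h3 : ((W i)⁄(AlgebraicClosure ℚ)).IsElliptic := h2
    exact two_add_left ((W i)⁄(AlgebraicClosure ℚ)) x y 0
  · obtain ⟨g, hg, hm⟩ := hz p hp i
    have h1 : m i • p i = upHom (W i) (m i • g) := by
      rw [map_nsmul, hg]
      rfl
    rw [h1]
    have hle : AddSubgroup.closure (S i) ≤ (AddSubgroup.closure
        (SetE ((W i)⁄(AlgebraicClosure ℚ)) (algebraMap ℚ (AlgebraicClosure ℚ) u))).comap
          (upHom (W i)) := by
      rw [AddSubgroup.closure_le]
      intro b hb
      exact AddSubgroup.subset_closure (hS i b hb)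
    exact hle hm

end Pool.Agent.ZCQ
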