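import Pool.Agent.ZCN.Final

/-!
# Elliptic curves with rational two-torsion: definitions
-/

set_option autoImplicit false

noncomputable section

namespace Pool.Agent.ZCQ

open WeierstrassCurve Pool.Agent.ZC
open scoped Classical

section Classes

variable {K : Type} [Field K]

/-- The group of square classes of `K`, written additively. -/
def Cl (K : Type) [Field K] : Type := Additive (Kˣ ⧸ (powMonoidHom 2 : Kˣ →* Kˣ).range)

instance (K : Type) [Field K] : AddCommGroup (Cl K) :=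
  inferInstanceAs (AddCommGroup (Additive (Kˣ ⧸ (powMonoidHom 2 : Kˣ →* Kˣ).range)))

/-- The class of a unit. -/
def clU {K : Type} [Field K] (u : Kˣ) : Cl K :=
  Additive.ofMul (QuotientGroup.mk u : Kˣ ⧸ (powMonoidHom 2 : Kˣ →* Kˣ).range)

theorem clU_mul {K : Type} [Field K] (u v : Kˣ) : clU (u * v) = clU u + clU v := rfl

theorem clU_eq_zero {K : Type} [Field K] (u : Kˣ) : clU u = 0 ↔ ∃ v : Kˣ, v ^ 2 = u :=
  QuotientGroup.eq_one_iff u

theorem clU_surjective {K : Type} [Field K] : Function.Surjective (clU (K := K)) :=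
  QuotientGroup.mk_surjective

/-- The square class of `x` (zero for `x = 0`). -/
def cl (x : K) : Cl K :=
  if h : x = 0 then 0 else clU (Units.mk0 x h)

theorem cl_mul {x y : K} (hx : x ≠ 0) (hy : y ≠ 0) : cl (x * y) = cl x + cl y := by
  unfold cl
  rw [dif_neg hx, dif_neg hy, dif_neg (mul_ne_zero hx hy), ← clU_mul]
  congr 1
  exact Units.mk0_mul x y _

theorem cl_eq_zero {x : K} (hx : x ≠ 0) : cl x = 0 ↔ IsSquare x := by
  unfold cl
  rw [dif_neg hx, clU_eq_zero]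
  constructor
  · rintro ⟨u, hu⟩
    refine ⟨u, ?_⟩
    have h1 := congrArg Units.val hu
    simp only [Units.val_pow_eq_pow_val, Units.val_mk0] at h1
    rw [← h1, sq]
  · rintro ⟨r, hr⟩
    have hr0 : r ≠ 0 := by
      rintro rfl
      apply hx
      rw [hr, zero_mul]
    refine ⟨Units.mk0 r hr0, ?_⟩
    ext
    simp only [Units.val_pow_eq_pow_val, Units.val_mk0]
    rw [hr, sq]

theorem cl_sq {x : K} : cl (x ^ 2) = 0 := by
  by_cases hx : x = 0
  · unfold cl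
    rw [dif_pos (by rw [hx]; ring)]
  · exact (cl_eq_zero (pow_ne_zero 2 hx)).2 ⟨x, sq x⟩

theorem cl_one : cl (1 : K) = 0 := by
  have := cl_sq (x := (1 : K))
  rwa [one_pow] at this

theorem cl_add_self (v : Cl K) : v + v = 0 := by
  obtain ⟨u, rfl⟩ := clU_surjective v
  rw [← clU_mul, clU_eq_zero]
  exact ⟨u, sq u⟩

/-- Two nonzero elements have the same class if their product is a square. -/
theorem cl_eq_cl {x y : K} (hx : x ≠ 0) (hy : y ≠ 0) : cl x = cl y ↔ IsSquare (x * y) := by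
  rw [← cl_eq_zero (mul_ne_zero hx hy), cl_mul hx hy]
  constructor
  · intro h
    rw [h, cl_add_self]
  · intro h
    have h1 := cl_add_self (cl y)
    rw [← sub_eq_zero]
    have h2 : cl x - cl y = (cl x + cl y) - (cl y + cl y) := by abel
    rw [h2, h, h1, sub_zero]

theorem cl_pow {x : K} (hx : x ≠ 0) (n : ℕ) : cl (x ^ n) = n • cl x := by
  induction n with
  | zero => rw [pow_zero, cl_one, zero_nsmul]
  | succ n ih => rw [pow_succ, cl_mul (pow_ne_zero n hx) hx, ih, succ_nsmul]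

end Classes

/-- `W` is the curve `y² = (x - e₁) (x - e₂) (x - e₃)` with different `e₁`, `e₂`, `e₃`. -/
structure Rts {K : Type} [Field K] (W : WeierstrassCurve K) (e₁ e₂ e₃ : K) : Prop where
  a1 : W.a₁ = 0
  a2 : W.a₂ = -(e₁ + e₂ + e₃)
  a3 : W.a₃ = 0
  a4 : W.a₄ = e₁ * e₂ + e₁ * e₃ + e₂ * e₃
  a6 : W.a₆ = -(e₁ * e₂ * e₃)
  h12 : e₁ ≠ e₂
  h13 : e₁ ≠ e₃
  h23 : e₂ ≠ e₃

namespace Rts

variable {K : Type} [Field K] {W : WeierstrassCurve K} {e₁ e₂ e₃ : K}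

theorem swap12 (h : Rts W e₁ e₂ e₃) : Rts W e₂ e₁ e₃ where
  a1 := h.a1
  a2 := by rw [h.a2]; ring
  a3 := h.a3
  a4 := by rw [h.a4]; ring
  a6 := by rw [h.a6]; ring
  h12 := h.h12.symm
  h13 := h.h23
  h23 := h.h13

theorem swap23 (h : Rts W e₁ e₂ e₃) : Rts W e₁ e₃ e₂ where
  a1 := h.a1
  a2 := by rw [h.a2]; ring
  a3 := h.a3
  a4 := by rw [h.a4]; ring
  a6 := by rw [h.a6]; ring
  h12 := h.h13
  h13 := h.h12
  h23 := h.h23.symm

theorem equation_iff (h : Rts W e₁ e₂ e₃) (x y : K) :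
    W.toAffine.Equation x y ↔ y ^ 2 = (x - e₁) * (x - e₂) * (x - e₃) := by
  rw [Affine.equation_iff, h.a1, h.a2, h.a3, h.a4, h.a6]
  constructor
  · intro h1
    linear_combination h1
  · intro h1
    linear_combination h1

theorem Δ_eq (h : Rts W e₁ e₂ e₃) :
    W.Δ = 16 * ((e₁ - e₂) * (e₁ - e₃) * (e₂ - e₃)) ^ 2 := by
  simp only [WeierstrassCurve.Δ, WeierstrassCurve.b₂, WeierstrassCurve.b₄, WeierstrassCurve.b₆,
    WeierstrassCurve.b₈, h.a1, h.a2, h.a3, h.a4, h.a6]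
  ring

theorem Δ_ne_zero [NeZero (2 : K)] (h : Rts W e₁ e₂ e₃) : W.Δ ≠ 0 := by
  rw [h.Δ_eq]
  have h1 := sub_ne_zero.2 h.h12
  have h2 := sub_ne_zero.2 h.h13
  have h3 := sub_ne_zero.2 h.h23
  have h4 : (16 : K) ≠ 0 := by
    have : (16 : K) = 2 ^ 4 := by norm_num
    rw [this]
    exact pow_ne_zero _ (NeZero.ne 2)
  exact mul_ne_zero h4 (pow_ne_zero _ (mul_ne_zero (mul_ne_zero h1 h2) h3))

theorem isElliptic [NeZero (2 : K)] (h : Rts W e₁ e₂ e₃) : W.IsElliptic :=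
  ⟨isUnit_iff_ne_zero.2 h.Δ_ne_zero⟩

theorem nonsingular_iff [NeZero (2 : K)] (h : Rts W e₁ e₂ e₃) (x y : K) :
    W.toAffine.Nonsingular x y ↔ y ^ 2 = (x - e₁) * (x - e₂) * (x - e₃) := by
  rw [← Affine.equation_iff_nonsingular_of_Δ_ne_zero h.Δ_ne_zero, h.equation_iff]

/-- The point `(e₁, 0)` of order two. -/
def T [NeZero (2 : K)] (h : Rts W e₁ e₂ e₃) : W.toAffine.Point :=
  .some e₁ 0 ((h.nonsingular_iff e₁ 0).2 (by ring))

end Rts

/-- The square class of `x - e₁`. -/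
def dl {K : Type} [Field K] {W : WeierstrassCurve K} (e₁ e₂ e₃ : K) : W.toAffine.Point → Cl K
  | 0 => 0
  | .some x _ _ => if x = e₁ then cl ((e₁ - e₂) * (e₁ - e₃)) else cl (x - e₁)

/-- The image in `E(ℚ̄)` of a rational point of `E`. -/
def up (W : WeierstrassCurve ℚ) : W.toAffine.Point → (W⁄(AlgebraicClosure ℚ)).toAffine.Point
  | 0 => 0
  | .some x y h => .some (algebraMap ℚ (AlgebraicClosure ℚ) x) (algebraMap ℚ (AlgebraicClosure ℚ) y)
      ((Affine.map_nonsingular W.toAffine (algebraMap ℚ (AlgebraicClosure ℚ)).injective x y).2 h)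

/-- The curve `y² = x (x - a) (x - b)`. -/
def cc (a b : ℚ) : WeierstrassCurve ℚ := ⟨0, -(a + b), 0, a * b, 0⟩

theorem cc_rts {a b : ℚ} (ha : a ≠ 0) (hb : b ≠ 0) (hab : a ≠ b) : Rts (cc a b) 0 a b where
  a1 := rfl
  a2 := by simp [cc]
  a3 := rfl
  a4 := by simp [cc]
  a6 := by simp [cc]
  h12 := ha.symm
  h13 := hb.symm
  h23 := hab

/-- The conditions for the rationality of the four points with abscissas `8 α`, `8 β`, `5 α`, `5 β`
on the curve `y² = x (x - 13 α) (x - 13 β)`. -/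
structure Quad (α β r₁ r₂ r₃ r₄ : ℚ) : Prop where
  a0 : α ≠ 0
  b0 : β ≠ 0
  ab : α ≠ β
  h1 : 10 * (13 * β - 8 * α) = r₁ ^ 2
  h2 : 10 * (13 * α - 8 * β) = r₂ ^ 2
  h3 : 10 * (13 * β - 5 * α) = r₃ ^ 2
  h4 : 10 * (13 * α - 5 * β) = r₄ ^ 2
  n1 : r₁ ≠ 0
  n2 : r₂ ≠ 0
  n3 : r₃ ≠ 0
  n4 : r₄ ≠ 0

end Pool.Agent.ZCQ
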