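import Pool.Agent.ZCQ.Defs

/-!
# The maps `x - e` are homomorphisms to the group of square classes
-/

set_option autoImplicit false

noncomputable section

namespace Pool.Agent.ZCQ

open WeierstrassCurve Pool.Agent.ZC
open scoped Classical

variable {K : Type} [Field K] [NeZero (2 : K)] {W : WeierstrassCurve K} {e₁ e₂ e₃ : K}

omit [NeZero (2 : K)] in
/-- The relations between the abscissas of three collinear points. -/
private theorem collinear (h : Rts W e₁ e₂ e₃) {x₁ x₂ y₁ y₂ : K} (h₁ : W.toAffine.Equation x₁ y₁)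
    (h₂ : W.toAffine.Equation x₂ y₂) (hxy : ¬(x₁ = x₂ ∧ y₁ = W.toAffine.negY x₂ y₂)) :
    ∃ l n : K, x₁ + x₂ + W.toAffine.addX x₁ x₂ (W.toAffine.slope x₁ x₂ y₁ y₂) =
        e₁ + e₂ + e₃ + l ^ 2 ∧
      x₁ * x₂ + x₁ * W.toAffine.addX x₁ x₂ (W.toAffine.slope x₁ x₂ y₁ y₂) +
        x₂ * W.toAffine.addX x₁ x₂ (W.toAffine.slope x₁ x₂ y₁ y₂) =
        e₁ * e₂ + e₁ * e₃ + e₂ * e₃ - 2 * l * n ∧
      x₁ * x₂ * W.toAffine.addX x₁ x₂ (W.toAffine.slope x₁ x₂ y₁ y₂) =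
        e₁ * e₂ * e₃ + n ^ 2 := by
  have h3 := Affine.addPolynomial_slope h₁ h₂ hxy
  rw [Affine.addPolynomial_eq, neg_inj, Cubic.prod_X_sub_C_eq, Cubic.toPoly_injective,
    h.a1, h.a2, h.a3, h.a4, h.a6] at h3
  simp only [Cubic.mk.injEq] at h3
  obtain ⟨-, h4, h5, h6⟩ := h3
  refine ⟨W.toAffine.slope x₁ x₂ y₁ y₂, y₁ - W.toAffine.slope x₁ x₂ y₁ y₂ * x₁, ?_, ?_, ?_⟩
  · linear_combination h4
  · linear_combination -h5
  · linear_combination h6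

/-- The class attached to an abscissa. -/
private def dx (e₁ e₂ e₃ x : K) : Cl K :=
  if x = e₁ then cl ((e₁ - e₂) * (e₁ - e₃)) else cl (x - e₁)

omit [NeZero (2 : K)] in
private theorem dx_aux {l n x₂ x₃ : K} (h12 : e₁ ≠ e₂) (h13 : e₁ ≠ e₃)
    (s1 : e₁ + x₂ + x₃ = e₁ + e₂ + e₃ + l ^ 2)
    (s2 : e₁ * x₂ + e₁ * x₃ + x₂ * x₃ = e₁ * e₂ + e₁ * e₃ + e₂ * e₃ - 2 * l * n)
    (s3 : e₁ * x₂ * x₃ = e₁ * e₂ * e₃ + n ^ 2) :
    dx e₁ e₂ e₃ e₁ + dx e₁ e₂ e₃ x₂ + dx e₁ e₂ e₃ x₃ = 0 := by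
  have h1 : l * e₁ + n = 0 := by
    have h2 : (l * e₁ + n) ^ 2 = 0 := by
      linear_combination (-(e₁ ^ 2)) * s1 + e₁ * s2 - s3
    exact pow_eq_zero_iff (by norm_num) |>.1 h2
  have h2 : (x₂ - e₁) * (x₃ - e₁) = (e₁ - e₂) * (e₁ - e₃) := by
    linear_combination s2 - 2 * e₁ * s1 - 2 * l * h1
  have h3 : (e₁ - e₂) * (e₁ - e₃) ≠ 0 := mul_ne_zero (sub_ne_zero.2 h12) (sub_ne_zero.2 h13)
  rw [← h2] at h3
  have h4 : x₂ ≠ e₁ := sub_ne_zero.1 (left_ne_zero_of_mul h3)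
  have h5 : x₃ ≠ e₁ := sub_ne_zero.1 (right_ne_zero_of_mul h3)
  unfold dx
  rw [if_pos rfl, if_neg h4, if_neg h5, ← h2, cl_mul (left_ne_zero_of_mul h3)
    (right_ne_zero_of_mul h3)]
  have h6 : cl (x₂ - e₁) + cl (x₃ - e₁) + cl (x₂ - e₁) + cl (x₃ - e₁) =
      (cl (x₂ - e₁) + cl (x₂ - e₁)) + (cl (x₃ - e₁) + cl (x₃ - e₁)) := by abel
  rw [h6, cl_add_self, cl_add_self, add_zero]

omit [NeZero (2 : K)] in
private theorem dx_sum {l n x₁ x₂ x₃ : K} (h12 : e₁ ≠ e₂) (h13 : e₁ ≠ e₃)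
    (s1 : x₁ + x₂ + x₃ = e₁ + e₂ + e₃ + l ^ 2)
    (s2 : x₁ * x₂ + x₁ * x₃ + x₂ * x₃ = e₁ * e₂ + e₁ * e₃ + e₂ * e₃ - 2 * l * n)
    (s3 : x₁ * x₂ * x₃ = e₁ * e₂ * e₃ + n ^ 2) :
    dx e₁ e₂ e₃ x₁ + dx e₁ e₂ e₃ x₂ + dx e₁ e₂ e₃ x₃ = 0 := by
  by_cases h1 : x₁ = e₁
  · subst h1
    exact dx_aux h12 h13 s1 s2 s3
  by_cases h2 : x₂ = e₁
  · subst h2
    have h3 := dx_aux (e₁ := x₂) (e₂ := e₂) (e₃ := e₃) (l := l) (n := n) (x₂ := x₁) (x₃ := x₃)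
      h12 h13 (by linear_combination s1) (by linear_combination s2) (by linear_combination s3)
    rw [add_comm (dx x₂ e₂ e₃ x₁)]
    exact h3
  by_cases h3 : x₃ = e₁
  · subst h3
    have h4 := dx_aux (e₁ := x₃) (e₂ := e₂) (e₃ := e₃) (l := l) (n := n) (x₂ := x₁) (x₃ := x₂)
      h12 h13 (by linear_combination s1) (by linear_combination s2) (by linear_combination s3)
    rw [add_comm]
    rw [add_assoc] at h4
    exact h4
  unfold dx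
  rw [if_neg h1, if_neg h2, if_neg h3]
  have g1 := sub_ne_zero.2 h1
  have g2 := sub_ne_zero.2 h2
  have g3 := sub_ne_zero.2 h3
  rw [← cl_mul g1 g2, ← cl_mul (mul_ne_zero g1 g2) g3,
    cl_eq_zero (mul_ne_zero (mul_ne_zero g1 g2) g3)]
  refine ⟨l * e₁ + n, ?_⟩
  linear_combination e₁ ^ 2 * s1 - e₁ * s2 + s3

omit [NeZero (2 : K)] in
private theorem dl_some {x y : K} (hx : W.toAffine.Nonsingular x y) :
    dl e₁ e₂ e₃ (.some x y hx : W.toAffine.Point) = dx e₁ e₂ e₃ x := rfl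

private theorem dl_add_cl (h : Rts W e₁ e₂ e₃) (P Q : W.toAffine.Point) :
    dl e₁ e₂ e₃ (P + Q) = dl e₁ e₂ e₃ P + dl e₁ e₂ e₃ Q := by
  match P, Q with
  | 0, Q =>
    rw [zero_add]
    change _ = 0 + _
    rw [zero_add]
  | .some x₁ y₁ h₁, 0 =>
    rw [add_zero]
    change _ = _ + 0
    rw [add_zero]
  | .some x₁ y₁ h₁, .some x₂ y₂ h₂ =>
    by_cases hxy : x₁ = x₂ ∧ y₁ = W.toAffine.negY x₂ y₂
    · rw [Affine.Point.add_of_Y_eq hxy.1 hxy.2, dl_some, dl_some, hxy.1, cl_add_self]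
      rfl
    · rw [Affine.Point.add_some hxy, dl_some, dl_some, dl_some]
      obtain ⟨l, n, s1, s2, s3⟩ := collinear h h₁.1 h₂.1 hxy
      have h3 := dx_sum h.h12 h.h13 s1 s2 s3
      set u := dx e₁ e₂ e₃ x₁ + dx e₁ e₂ e₃ x₂ with hu
      set v := dx e₁ e₂ e₃ (W.toAffine.addX x₁ x₂ (W.toAffine.slope x₁ x₂ y₁ y₂)) with hv
      calc v = (u + u) + v := by rw [cl_add_self, zero_add]
        _ = u + (u + v) := by abel
        _ = u := by rw [h3, add_zero]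

theorem dl_add [d : DecidableEq K] (h : Rts W e₁ e₂ e₃) (P Q : W.toAffine.Point) :
    dl e₁ e₂ e₃ (P + Q) = dl e₁ e₂ e₃ P + dl e₁ e₂ e₃ Q := by
  have hd : d = fun a b => Classical.propDecidable (a = b) := Subsingleton.elim _ _
  subst hd
  exact dl_add_cl h P Q

/-- The homomorphism given by `x - e₁`. -/
def dHom [DecidableEq K] (h : Rts W e₁ e₂ e₃) : W.toAffine.Point →+ Cl K where
  toFun := dl e₁ e₂ e₃
  map_zero' := rfl
  map_add' := dl_add h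

/-- The homomorphism given by `x - e₁` and `x - e₂`. -/
def dHom2 [DecidableEq K] (h : Rts W e₁ e₂ e₃) : W.toAffine.Point →+ Cl K × Cl K :=
  (dHom h).prod (dHom h.swap12)

theorem dHom2_apply [DecidableEq K] (h : Rts W e₁ e₂ e₃) (P : W.toAffine.Point) :
    dHom2 h P = (dl e₁ e₂ e₃ P, dl e₂ e₁ e₃ P) := rfl

end Pool.Agent.ZCQ
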