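import Mathlib

/-!
# The square classes of the rational points of `y² = x (x - 4810) (x - 5850)`
-/

set_option autoImplicit false

namespace Pool.Agent.ZCQ

private noncomputable def v (p : ℕ) (A : ℤ) : ℕ := A.natAbs.factorization p

private theorem v_mul (p : ℕ) {A B : ℤ} (hA : A ≠ 0) (hB : B ≠ 0) :
    v p (A * B) = v p A + v p B := by
  unfold v
  rw [Int.natAbs_mul, Nat.factorization_mul (by simpa using hA) (by simpa using hB)]
  rfl

private theorem v_eq_zero {p : ℕ} {A : ℤ} (h : ¬ (p : ℤ) ∣ A) : v p A = 0 := by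
  unfold v
  apply Nat.factorization_eq_zero_of_not_dvd
  rwa [← Int.natCast_dvd]

private theorem exists_unit {p : ℕ} (hp : p.Prime) {A : ℤ} (hA : A ≠ 0) :
    ∃ A' : ℤ, A = p ^ v p A * A' ∧ ¬ (p : ℤ) ∣ A' := by
  obtain ⟨A', hA'⟩ : ((p ^ v p A : ℕ) : ℤ) ∣ A := by
    rw [Int.natCast_dvd]
    exact Nat.ordProj_dvd _ _
  refine ⟨A', by rw [Nat.cast_pow] at hA'; exact hA', fun h => ?_⟩
  have h1 : A' ≠ 0 := by
    rintro rfl
    exact hA (by rw [hA', mul_zero])
  have h2 : ((p ^ (v p A + 1) : ℕ) : ℤ) ∣ A := by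
    obtain ⟨w, hw⟩ := h
    refine ⟨w, ?_⟩
    rw [hw] at hA'
    push_cast at hA' ⊢
    rw [pow_succ, mul_assoc]
    exact hA'
  rw [Int.natCast_dvd] at h2
  exact Nat.pow_succ_factorization_not_dvd (by simpa using hA) hp h2

private theorem v_of_eq {p : ℕ} (hp : p.Prime) {A A' : ℤ} {k : ℕ} (h : A = p ^ k * A')
    (h' : ¬ (p : ℤ) ∣ A') : v p A = k := by
  have h1 : A' ≠ 0 := by
    rintro rfl
    exact h' (dvd_zero _)
  have h2 : ((p : ℤ) ^ k) ≠ 0 := pow_ne_zero _ (by exact_mod_cast hp.ne_zero)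
  rw [h, v_mul p h2 h1, v_eq_zero h', add_zero]
  unfold v
  rw [Int.natAbs_pow, Int.natAbs_natCast, hp.factorization_pow]
  simp

private theorem decomp {A : ℤ} (hA : A ≠ 0)
    (h : ∀ p : ℕ, p.Prime → p ≠ 2 → p ≠ 5 → p ≠ 13 → p ≠ 37 → Even (v p A)) :
    ∃ t : ℤ, ¬ (13 : ℤ) ∣ t ∧
      A = A.sign * (2 ^ v 2 A * 5 ^ v 5 A * 13 ^ v 13 A * 37 ^ v 37 A * t ^ 2) := by
  classical
  set n := A.natAbs with hn
  have hn0 : n ≠ 0 := by simpa [hn] using hA
  let S : Finset ℕ := {2, 5, 13, 37}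
  let T : Finset ℕ := n.primeFactors \ S
  have h1 : n = (∏ p ∈ S, p ^ n.factorization p) * ∏ p ∈ T, p ^ n.factorization p := by
    rw [← Finset.prod_union Finset.disjoint_sdiff, Finset.union_sdiff_self_eq_union]
    conv_lhs => rw [← Nat.prod_factorization_pow_eq_self hn0]
    exact Finsupp.prod_of_support_subset _ (by
      rw [Nat.support_factorization]; exact Finset.subset_union_right) _ (by simp)
  have h2 : ∏ p ∈ T, p ^ n.factorization p = (∏ p ∈ T, p ^ (n.factorization p / 2)) ^ 2 := by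
    rw [← Finset.prod_pow]
    refine Finset.prod_congr rfl fun p hp => ?_
    rw [← pow_mul]
    congr 1
    have hp1 := Finset.mem_sdiff.1 hp
    have hp2 := Nat.prime_of_mem_primeFactors hp1.1
    have hp3 : p ≠ 2 ∧ p ≠ 5 ∧ p ≠ 13 ∧ p ≠ 37 := by
      have := hp1.2
      simp only [S, Finset.mem_insert, Finset.mem_singleton, not_or] at this
      exact this
    have h3 := h p hp2 hp3.1 hp3.2.1 hp3.2.2.1 hp3.2.2.2
    obtain ⟨r, hr⟩ : Even (n.factorization p) := h3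
    omega
  have h3 : ∏ p ∈ S, p ^ n.factorization p = 2 ^ n.factorization 2 * 5 ^ n.factorization 5 *
      13 ^ n.factorization 13 * 37 ^ n.factorization 37 := by
    simp only [S]
    rw [Finset.prod_insert (by decide), Finset.prod_insert (by decide),
      Finset.prod_insert (by decide), Finset.prod_singleton]
    ring
  refine ⟨((∏ p ∈ T, p ^ (n.factorization p / 2) : ℕ) : ℤ), ?_, ?_⟩
  · intro h4
    have h5 : 13 ∣ ∏ p ∈ T, p ^ (n.factorization p / 2) := by exact_mod_cast h4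
    have h13 : Nat.Prime 13 := by norm_num
    obtain ⟨q, hq, hq'⟩ := (Prime.dvd_finsetProd_iff h13.prime _).1 h5
    have h6 := h13.dvd_of_dvd_pow hq'
    have hq1 := Finset.mem_sdiff.1 hq
    have h7 := (Nat.prime_dvd_prime_iff_eq h13 (Nat.prime_of_mem_primeFactors hq1.1)).1 h6
    exact hq1.2 (by rw [← h7]; decide)
  · conv_lhs => rw [← Int.sign_mul_natAbs A]
    congr 1
    rw [h2, h3] at h1
    conv_lhs => rw [← hn, h1]
    push_cast
    rfl


section
variable {m e f : ℤ}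

private theorem even_of {p : ℕ} {P Q R : ℤ} (hP : P ≠ 0) (hQ : Q ≠ 0) (hR : R ≠ 0)
    (hf : f ≠ 0) (h : f ^ 2 = P * Q * R)
    (H : (p : ℤ) ∣ P → ¬ (p : ℤ) ∣ Q ∧ ¬ (p : ℤ) ∣ R) : Even (v p P) := by
  by_cases h1 : (p : ℤ) ∣ P
  · obtain ⟨h2, h3⟩ := H h1
    have h4 := congrArg (v p) h
    rw [pow_two, v_mul p hf hf, v_mul p (mul_ne_zero hP hQ) hR, v_mul p hP hQ, v_eq_zero h2,
      v_eq_zero h3] at h4
    exact ⟨v p f, by omega⟩
  · rw [v_eq_zero h1]
    exact ⟨0, rfl⟩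

private theorem dvd_AB {p : ℕ} (hp : p.Prime) (hc : IsCoprime m e) {c : ℤ} (h1 : (p : ℤ) ∣ m)
    (h2 : (p : ℤ) ∣ m - c * e ^ 2) : (p : ℤ) ∣ c := by
  have hp' := Nat.prime_iff_prime_int.1 hp
  have h3 : (p : ℤ) ∣ c * e ^ 2 := by
    have := dvd_sub h1 h2
    simpa using this
  rcases hp'.dvd_or_dvd h3 with h4 | h4
  · exact h4
  · exact absurd (hc.isUnit_of_dvd' h1 (hp'.dvd_of_dvd_pow h4)) hp'.not_isUnit

private theorem dvd_BC {p : ℕ} (hp : p.Prime) (hc : IsCoprime m e)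
    (h1 : (p : ℤ) ∣ m - 4810 * e ^ 2) (h2 : (p : ℤ) ∣ m - 5850 * e ^ 2) : (p : ℤ) ∣ 1040 := by
  have hp' := Nat.prime_iff_prime_int.1 hp
  have h3 : (p : ℤ) ∣ 1040 * e ^ 2 := by
    have := dvd_sub h1 h2
    ring_nf at this ⊢
    exact this
  rcases hp'.dvd_or_dvd h3 with h4 | h4
  · exact h4
  · have h5 : (p : ℤ) ∣ m := by
      have := dvd_add h1 ((h4.mul_left 4810))
      simpa using this
    exact absurd (hc.isUnit_of_dvd' h5 (hp'.dvd_of_dvd_pow h4)) hp'.not_isUnit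

private theorem dvd_4810 {p : ℕ} (hp : p.Prime) (h : (p : ℤ) ∣ 4810) :
    p = 2 ∨ p = 5 ∨ p = 13 ∨ p = 37 := by
  have h1 : p ∣ 2 * 5 * 13 * 37 := by exact_mod_cast h
  rw [hp.dvd_mul, hp.dvd_mul, hp.dvd_mul] at h1
  rw [Nat.prime_dvd_prime_iff_eq hp (by norm_num), Nat.prime_dvd_prime_iff_eq hp (by norm_num),
    Nat.prime_dvd_prime_iff_eq hp (by norm_num), Nat.prime_dvd_prime_iff_eq hp (by norm_num)] at h1
  tauto

private theorem dvd_1040 {p : ℕ} (hp : p.Prime) (h : (p : ℤ) ∣ 1040) :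
    p = 2 ∨ p = 5 ∨ p = 13 := by
  have h1 : p ∣ 2 ^ 4 * 5 * 13 := by exact_mod_cast h
  rw [hp.dvd_mul, hp.dvd_mul] at h1
  rcases h1 with (h1 | h1) | h1
  · exact Or.inl ((Nat.prime_dvd_prime_iff_eq hp (by norm_num)).1 (hp.dvd_of_dvd_pow h1))
  · exact Or.inr (Or.inl ((Nat.prime_dvd_prime_iff_eq hp (by norm_num)).1 h1))
  · exact Or.inr (Or.inr ((Nat.prime_dvd_prime_iff_eq hp (by norm_num)).1 h1))

private theorem dvd_5850 {p : ℕ} (hp : p.Prime) (h : (p : ℤ) ∣ 5850) :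
    p = 2 ∨ p = 3 ∨ p = 5 ∨ p = 13 := by
  have h1 : p ∣ 2 * 3 ^ 2 * 5 ^ 2 * 13 := by exact_mod_cast h
  rw [hp.dvd_mul, hp.dvd_mul, hp.dvd_mul] at h1
  rcases h1 with ((h1 | h1) | h1) | h1
  · exact Or.inl ((Nat.prime_dvd_prime_iff_eq hp (by norm_num)).1 h1)
  · exact Or.inr (Or.inl ((Nat.prime_dvd_prime_iff_eq hp (by norm_num)).1
      (hp.dvd_of_dvd_pow h1)))
  · exact Or.inr (Or.inr (Or.inl ((Nat.prime_dvd_prime_iff_eq hp (by norm_num)).1
      (hp.dvd_of_dvd_pow h1))))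
  · exact Or.inr (Or.inr (Or.inr ((Nat.prime_dvd_prime_iff_eq hp (by norm_num)).1 h1)))

/-- the case `p = 3` -/
private theorem even_three (hc : IsCoprime m e) (hA : m ≠ 0) (hB : m - 4810 * e ^ 2 ≠ 0)
    (hC : m - 5850 * e ^ 2 ≠ 0) (hf : f ≠ 0)
    (h : f ^ 2 = m * (m - 4810 * e ^ 2) * (m - 5850 * e ^ 2)) : Even (v 3 m) := by
  by_cases h3 : (3 : ℤ) ∣ m
  swap
  · rw [v_eq_zero (by exact_mod_cast h3)]; exact ⟨0, rfl⟩
  have p3 : Nat.Prime 3 := by norm_num
  have p3' : Prime (3 : ℤ) := Nat.prime_iff_prime_int.1 p3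
  have hB3 : ¬ (3 : ℤ) ∣ m - 4810 * e ^ 2 := fun h1 => by
    have := dvd_AB p3 hc (by exact_mod_cast h3) (by exact_mod_cast h1)
    norm_num at this
  have he3 : ¬ (3 : ℤ) ∣ e := fun h1 => absurd (hc.isUnit_of_dvd' h3 h1) p3'.not_isUnit
  obtain ⟨a, rfl⟩ := h3
  have h4 : (3 : ℤ) ∣ f := by
    have : (3 : ℤ) ∣ f ^ 2 := by
      rw [h]
      exact ((Dvd.intro _ rfl).mul_right _).mul_right _
    exact p3'.dvd_of_dvd_pow this
  obtain ⟨g, rfl⟩ := h4
  have h5 : g ^ 2 = a * (3 * a - 4810 * e ^ 2) * (a - 1950 * e ^ 2) := by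
    have : (9 : ℤ) * g ^ 2 = 9 * (a * (3 * a - 4810 * e ^ 2) * (a - 1950 * e ^ 2)) := by
      linear_combination h
    linarith
  have h6 : (3 : ℤ) ∣ a := by
    by_contra h6
    have h7 : g ^ 2 % 3 = (a * (3 * a - 4810 * e ^ 2) * (a - 1950 * e ^ 2)) % 3 := by rw [h5]
    have ha : a % 3 = 1 ∨ a % 3 = 2 := by omega
    have he : e % 3 = 1 ∨ e % 3 = 2 := by omega
    have hg : g % 3 = 0 ∨ g % 3 = 1 ∨ g % 3 = 2 := by omega
    rcases ha with ha | ha <;> rcases he with he | he <;> rcases hg with hg | hg | hg <;>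
      simp [pow_two, Int.mul_emod, Int.sub_emod, ha, he, hg] at h7
  obtain ⟨b, rfl⟩ := h6
  have h7 : (3 : ℤ) ∣ g := by
    have : (3 : ℤ) ∣ g ^ 2 := by
      rw [h5]
      exact ((Dvd.intro _ rfl).mul_right _).mul_right _
    exact p3'.dvd_of_dvd_pow this
  obtain ⟨g', rfl⟩ := h7
  have h8 : g' ^ 2 = b * (3 * (3 * b) - 4810 * e ^ 2) * (b - 650 * e ^ 2) := by
    have : (9 : ℤ) * g' ^ 2 = 9 * (b * (3 * (3 * b) - 4810 * e ^ 2) * (b - 650 * e ^ 2)) := by
      linear_combination h5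
    linarith
  have hb : b ≠ 0 := by
    rintro rfl
    simp at hA
  have h9 : Even (v 3 b) := by
    refine even_of hb hB ?_ ?_ h8 fun h9 => ⟨by exact_mod_cast hB3, fun h10 => ?_⟩
    · intro h0
      apply hC
      linear_combination 9 * h0
    · rintro rfl
      simp at hf
    · have h11 : (3 : ℤ) ∣ 650 * e ^ 2 := by
        have := dvd_sub h9 h10
        simpa using this
      rcases p3'.dvd_or_dvd h11 with h12 | h12
      · norm_num at h12
      · exact he3 (p3'.dvd_of_dvd_pow h12)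
  have h10 : v 3 (3 * (3 * b)) = 2 + v 3 b := by
    obtain ⟨b', hb', hb''⟩ := exists_unit p3 hb
    refine v_of_eq p3 (A' := b') ?_ hb''
    conv_lhs => rw [hb']
    push_cast
    ring
  rw [h10]
  exact (by decide : Even 2).add h9

private instance : Fact (Nat.Prime 13) := ⟨by norm_num⟩

private theorem leg_congr {a b : ℤ} (h : (13 : ℤ) ∣ a - b) : legendreSym 13 a = legendreSym 13 b := by
  have h1 : a % 13 = b % 13 := by omega
  rw [legendreSym.mod 13 a, legendreSym.mod 13 b]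
  push_cast
  rw [h1]

private theorem leg_ne {a : ℤ} (h : ¬ (13 : ℤ) ∣ a) : (a : ZMod 13) ≠ 0 := by
  intro h1
  exact h (by exact_mod_cast (ZMod.intCast_zmod_eq_zero_iff_dvd a 13).1 h1)

private theorem leg_sq {a : ℤ} (h : ¬ (13 : ℤ) ∣ a) : legendreSym 13 (a ^ 2) = 1 :=
  legendreSym.sq_one' 13 (leg_ne h)

private theorem leg_mul_sq (c : ℤ) {a : ℤ} (h : ¬ (13 : ℤ) ∣ a) :
    legendreSym 13 (c * a ^ 2) = legendreSym 13 c := by
  rw [legendreSym.mul, leg_sq h, mul_one]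

private theorem leg_pm {a : ℤ} (h : ¬ (13 : ℤ) ∣ a) : legendreSym 13 a = 1 ∨ legendreSym 13 a = -1 :=
  legendreSym.eq_one_or_neg_one 13 (leg_ne h)

private theorem chi (hc : IsCoprime m e) (hA : m ≠ 0) (hB : m - 4810 * e ^ 2 ≠ 0)
    (hC : m - 5850 * e ^ 2 ≠ 0) (hf : f ≠ 0)
    (h : f ^ 2 = m * (m - 4810 * e ^ 2) * (m - 5850 * e ^ 2)) {A' B' : ℤ}
    (hA' : m = 13 ^ v 13 m * A') (hB' : m - 4810 * e ^ 2 = 13 ^ v 13 (m - 4810 * e ^ 2) * B')
    (hA'' : ¬ (13 : ℤ) ∣ A') (hB'' : ¬ (13 : ℤ) ∣ B') :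
    legendreSym 13 A' = (-1) ^ v 13 m ∧
      legendreSym 13 B' = (-1) ^ v 13 (m - 4810 * e ^ 2) := by
  have p13 : Nat.Prime 13 := by norm_num
  have p13' : Prime (13 : ℤ) := Nat.prime_iff_prime_int.1 p13
  obtain ⟨C', hC', hC''⟩ := exists_unit p13 hC
  obtain ⟨g, hg, hg'⟩ := exists_unit p13 hf
  push_cast at hC' hC'' hg hg'
  have hv : v 13 f + v 13 f = v 13 m + v 13 (m - 4810 * e ^ 2) + v 13 (m - 5850 * e ^ 2) := by
    have h4 := congrArg (v 13) h
    rwa [pow_two, v_mul 13 hf hf, v_mul 13 (mul_ne_zero hA hB) hC, v_mul 13 hA hB] at h4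
  have hprod : g ^ 2 = A' * B' * C' := by
    have h1 : ((13 : ℤ) ^ (v 13 f + v 13 f)) ≠ 0 := pow_ne_zero _ (by norm_num)
    apply mul_left_cancel₀ h1
    conv_rhs => rw [hv]
    calc (13 : ℤ) ^ (v 13 f + v 13 f) * g ^ 2 = (13 ^ v 13 f * g) ^ 2 := by ring
      _ = m * (m - 4810 * e ^ 2) * (m - 5850 * e ^ 2) := by rw [← hg, h]
      _ = (13 ^ v 13 m * A') * (13 ^ v 13 (m - 4810 * e ^ 2) * B') *
          (13 ^ v 13 (m - 5850 * e ^ 2) * C') := by rw [← hA', ← hB', ← hC']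
      _ = _ := by ring
  have hleg : legendreSym 13 A' * legendreSym 13 B' * legendreSym 13 C' = 1 := by
    rw [← legendreSym.mul, ← legendreSym.mul, ← hprod, leg_sq hg']
  by_cases hm : (13 : ℤ) ∣ m
  swap
  · -- all three are congruent to `m`
    have hBm : ¬ (13 : ℤ) ∣ m - 4810 * e ^ 2 := fun h1 => hm (by
      have := dvd_add h1 (Dvd.intro (370 * e ^ 2) rfl : (13 : ℤ) ∣ 13 * (370 * e ^ 2))
      ring_nf at this
      exact this)
    have hCm : ¬ (13 : ℤ) ∣ m - 5850 * e ^ 2 := fun h1 => hm (by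
      have := dvd_add h1 (Dvd.intro (450 * e ^ 2) rfl : (13 : ℤ) ∣ 13 * (450 * e ^ 2))
      ring_nf at this
      exact this)
    have h1 : v 13 m = 0 := v_eq_zero (by exact_mod_cast hm)
    have h2 : v 13 (m - 4810 * e ^ 2) = 0 := v_eq_zero (by exact_mod_cast hBm)
    have h3 : v 13 (m - 5850 * e ^ 2) = 0 := v_eq_zero (by exact_mod_cast hCm)
    rw [h1, pow_zero, one_mul] at hA'
    rw [h2, pow_zero, one_mul] at hB'
    rw [h3, pow_zero, one_mul] at hC'
    have h4 : legendreSym 13 B' = legendreSym 13 A' := by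
      apply leg_congr
      rw [← hB', ← hA']
      exact ⟨-(370 * e ^ 2), by ring⟩
    have h5 : legendreSym 13 C' = legendreSym 13 A' := by
      apply leg_congr
      rw [← hC', ← hA']
      exact ⟨-(450 * e ^ 2), by ring⟩
    rw [h4, h5] at hleg
    rw [h1, h2, h4, pow_zero]
    rcases leg_pm hA'' with h6 | h6
    · exact ⟨h6, h6⟩
    · rw [h6] at hleg
      norm_num at hleg
  · have he : ¬ (13 : ℤ) ∣ e := fun h1 => absurd (hc.isUnit_of_dvd' hm h1) p13'.not_isUnit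
    obtain ⟨a, ha⟩ := hm
    have hBb : m - 4810 * e ^ 2 = 13 ^ 1 * (a - 370 * e ^ 2) := by rw [ha]; ring
    have hCc : m - 5850 * e ^ 2 = 13 ^ 1 * (a - 450 * e ^ 2) := by rw [ha]; ring
    have ha' : m = 13 ^ 1 * a := by rw [ha]; ring
    have key : ∀ {P P' p : ℤ}, P = 13 ^ v 13 P * P' → P = 13 ^ 1 * p → ¬ (13 : ℤ) ∣ p →
        v 13 P = 1 ∧ P' = p := by
      intro P P' p h1 h2 h3
      have h4 : v 13 P = 1 := v_of_eq p13 (by exact_mod_cast h2) (by exact_mod_cast h3)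
      refine ⟨h4, ?_⟩
      rw [h4] at h1
      have h5 : (13 : ℤ) ^ 1 ≠ 0 := by norm_num
      exact mul_left_cancel₀ h5 (h1.symm.trans h2)
    have hdvd : ∀ c : ℤ, ¬ (13 : ℤ) ∣ c → ¬ (13 : ℤ) ∣ c * e ^ 2 := by
      intro c hc' h1
      rcases p13'.dvd_or_dvd h1 with h2 | h2
      · exact hc' h2
      · exact he (p13'.dvd_of_dvd_pow h2)
    by_cases h1 : (13 : ℤ) ∣ a
    · have hb : ¬ (13 : ℤ) ∣ a - 370 * e ^ 2 := fun h2 => by
        have h3 := dvd_sub h1 h2
        rw [sub_sub_cancel] at h3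
        exact hdvd 370 (by norm_num) h3
      have hc2 : ¬ (13 : ℤ) ∣ a - 450 * e ^ 2 := fun h2 => by
        have h3 := dvd_sub h1 h2
        rw [sub_sub_cancel] at h3
        exact hdvd 450 (by norm_num) h3
      obtain ⟨vB, rfl⟩ := key hB' hBb hb
      obtain ⟨vC, rfl⟩ := key hC' hCc hc2
      have l1 : legendreSym 13 (a - 370 * e ^ 2) = -1 := by
        rw [leg_congr (b := (-370) * e ^ 2) (by simpa using h1), leg_mul_sq _ he]
        norm_num
      have l2 : legendreSym 13 (a - 450 * e ^ 2) = -1 := by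
        rw [leg_congr (b := (-450) * e ^ 2) (by simpa using h1), leg_mul_sq _ he]
        norm_num
      rw [l1, l2] at hleg
      refine ⟨?_, by rw [vB, l1, pow_one]⟩
      have : Even (v 13 m) := ⟨v 13 f - 1, by omega⟩
      rw [this.neg_one_pow]
      linarith
    · obtain ⟨vA, rfl⟩ := key hA' ha' h1
      by_cases h2 : (13 : ℤ) ∣ A' - 370 * e ^ 2
      · have hc2 : ¬ (13 : ℤ) ∣ A' - 450 * e ^ 2 := fun h3 => by
          have h4 := dvd_sub h2 h3
          apply hdvd 80 (by norm_num)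
          ring_nf at h4 ⊢
          exact h4
        obtain ⟨vC, rfl⟩ := key hC' hCc hc2
        have l1 : legendreSym 13 A' = -1 := by
          rw [leg_congr (b := 370 * e ^ 2) h2, leg_mul_sq _ he]
          norm_num
        have l2 : legendreSym 13 (A' - 450 * e ^ 2) = -1 := by
          rw [leg_congr (b := (-80) * e ^ 2) (by ring_nf at h2 ⊢; exact h2), leg_mul_sq _ he]
          norm_num
        rw [l1, l2] at hleg
        refine ⟨by rw [vA, l1, pow_one], ?_⟩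
        have : Even (v 13 (m - 4810 * e ^ 2)) := ⟨v 13 f - 1, by omega⟩
        rw [this.neg_one_pow]
        linarith
      · obtain ⟨vB, rfl⟩ := key hB' hBb h2
        have h3 : (13 : ℤ) ∣ A' - 450 * e ^ 2 := by
          by_contra h3
          obtain ⟨vC, -⟩ := key hC' hCc h3
          omega
        have l1 : legendreSym 13 A' = -1 := by
          rw [leg_congr (b := 450 * e ^ 2) h3, leg_mul_sq _ he]
          norm_num
        have l2 : legendreSym 13 (A' - 370 * e ^ 2) = -1 := by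
          rw [leg_congr (b := 80 * e ^ 2) (by ring_nf at h3 ⊢; exact h3), leg_mul_sq _ he]
          norm_num
        exact ⟨by rw [vA, l1, pow_one], by rw [vB, l2, pow_one]⟩

private theorem parity {A t A' : ℤ} {i j k l : ℕ} (ht : ¬ (13 : ℤ) ∣ t)
    (hA : A ≠ 0) (hdec : A = A.sign * (2 ^ i * 5 ^ j * 13 ^ l * 37 ^ k * t ^ 2))
    (hA' : A = 13 ^ l * A') (hleg : legendreSym 13 A' = (-1) ^ l) : Even (l + (i + j + k)) := by
  have h1 : A' = A.sign * (2 ^ i * 5 ^ j * 37 ^ k * t ^ 2) := by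
    have h2 : (13 : ℤ) ^ l ≠ 0 := pow_ne_zero _ (by norm_num)
    apply mul_left_cancel₀ h2
    rw [← hA']
    conv_lhs => rw [hdec]
    ring
  have h2 : legendreSym 13 A.sign = 1 := by
    rcases lt_trichotomy A 0 with h | h | h
    · rw [Int.sign_eq_neg_one_of_neg h]; norm_num
    · exact absurd h hA
    · rw [Int.sign_eq_one_of_pos h]; norm_num
  have hpow : ∀ (a : ℤ) (n : ℕ), legendreSym 13 a = -1 → legendreSym 13 (a ^ n) = (-1) ^ n := by
    intro a n ha
    induction n with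
    | zero => simp [legendreSym.at_one]
    | succ n ih => rw [pow_succ, legendreSym.mul, ih, ha, pow_succ]
  rw [h1, legendreSym.mul, h2, one_mul, legendreSym.mul, leg_sq ht, mul_one, legendreSym.mul,
    legendreSym.mul, hpow 2 i (by norm_num), hpow 5 j (by norm_num), hpow 37 k (by norm_num),
    ← pow_add, ← pow_add] at hleg
  have h3 : (-1 : ℤ) ^ (l + (i + j + k)) = 1 := by
    rw [pow_add, hleg, ← pow_add]
    exact Even.neg_one_pow ⟨_, rfl⟩
  exact (neg_one_pow_eq_one_iff_even (by norm_num)).1 h3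


private theorem main_int (hc : IsCoprime m e) (hA : m ≠ 0) (hB : m - 4810 * e ^ 2 ≠ 0)
    (hC : m - 5850 * e ^ 2 ≠ 0) (hf : f ≠ 0)
    (h : f ^ 2 = m * (m - 4810 * e ^ 2) * (m - 5850 * e ^ 2)) :
    ∃ n₁ n₂ n₃ n₄ t₀ t₁ : ℕ,
      IsSquare (m * (185 ^ n₁ * 1 ^ n₂ * 74 ^ n₃ * 10 ^ n₄ * 185 ^ t₀ * 4810 ^ t₁)) ∧
      IsSquare ((m - 4810 * e ^ 2) * ((-74) ^ n₁ * (-10) ^ n₂ * (-185) ^ n₃ * (-10) ^ n₄ *
        (-4810) ^ t₀ * (-74) ^ t₁)) := by
  have h' : f ^ 2 = (m - 4810 * e ^ 2) * m * (m - 5850 * e ^ 2) := by rw [h]; ring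
  have h'' : f ^ 2 = (m - 5850 * e ^ 2) * m * (m - 4810 * e ^ 2) := by rw [h]; ring
  -- `A` is positive
  have hpos : 0 < m := by
    rcases lt_trichotomy m 0 with h0 | h0 | h0
    · have h1 : m - 4810 * e ^ 2 < 0 := by nlinarith [sq_nonneg e]
      have h2 : m - 5850 * e ^ 2 < 0 := by nlinarith [sq_nonneg e]
      have h3 : 0 < f ^ 2 := by positivity
      have h4 : 0 < m * (m - 4810 * e ^ 2) := mul_pos_of_neg_of_neg h0 h1
      have h5 := mul_neg_of_pos_of_neg h4 h2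
      linarith
    · exact absurd h0 hA
    · exact h0
  -- the good primes
  have hgoodB : ∀ p : ℕ, p.Prime → p ≠ 2 → p ≠ 5 → p ≠ 13 → p ≠ 37 →
      Even (v p (m - 4810 * e ^ 2)) := by
    intro p hp h2 h5 h13 h37
    refine even_of hB hA hC hf h' fun h1 => ⟨fun h3 => ?_, fun h3 => ?_⟩
    · have := dvd_4810 hp (dvd_AB hp hc h3 h1)
      tauto
    · have := dvd_1040 hp (dvd_BC hp hc h1 h3)
      tauto
  have hgoodA : ∀ p : ℕ, p.Prime → p ≠ 2 → p ≠ 5 → p ≠ 13 → p ≠ 37 → Even (v p m) := by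
    intro p hp h2 h5 h13 h37
    by_cases h3 : p = 3
    · subst h3
      exact even_three hc hA hB hC hf h
    · refine even_of hA hB hC hf h fun h1 => ⟨fun h4 => ?_, fun h4 => ?_⟩
      · have := dvd_4810 hp (dvd_AB hp hc h1 h4)
        tauto
      · have := dvd_5850 hp (dvd_AB hp hc h1 h4)
        tauto
  have p37 : Nat.Prime 37 := by norm_num
  have p13 : Nat.Prime 13 := by norm_num
  have hC37 : Even (v 37 (m - 5850 * e ^ 2)) := by
    refine even_of hC hA hB hf h'' fun h1 => ⟨fun h3 => ?_, fun h3 => ?_⟩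
    · have := dvd_5850 p37 (dvd_AB p37 hc h3 h1)
      omega
    · have := dvd_1040 p37 (dvd_BC p37 hc h3 h1)
      omega
  have h37 : Even (v 37 m + v 37 (m - 4810 * e ^ 2)) := by
    have h4 := congrArg (v 37) h
    rw [pow_two, v_mul 37 hf hf, v_mul 37 (mul_ne_zero hA hB) hC, v_mul 37 hA hB] at h4
    obtain ⟨r, hr⟩ := hC37
    exact ⟨v 37 f - r, by omega⟩
  obtain ⟨t, ht, hdA⟩ := decomp hA hgoodA
  obtain ⟨u, hu, hdB⟩ := decomp hB hgoodB
  obtain ⟨A', hA', hA''⟩ := exists_unit p13 hA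
  obtain ⟨B', hB', hB''⟩ := exists_unit p13 hB
  push_cast at hA' hA'' hB' hB''
  obtain ⟨hchiA, hchiB⟩ := chi hc hA hB hC hf h hA' hB' hA'' hB''
  have hpA := parity ht hA hdA hA' hchiA
  have hpB := parity hu hB hdB hB' hchiB
  rw [Int.sign_eq_one_of_pos hpos, one_mul] at hdA
  obtain ⟨s, hs⟩ : ∃ s : ℕ, (m - 4810 * e ^ 2).sign = (-1) ^ s := by
    rcases lt_trichotomy (m - 4810 * e ^ 2) 0 with h0 | h0 | h0
    · exact ⟨1, by rw [Int.sign_eq_neg_one_of_neg h0]; norm_num⟩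
    · exact absurd h0 hB
    · exact ⟨0, by rw [Int.sign_eq_one_of_pos h0]; norm_num⟩
  rw [hs] at hdB
  clear hA' hB' hA'' hB'' hchiA hchiB hgoodA hgoodB hC37 hs
  set B := m - 4810 * e ^ 2
  generalize v 2 m = i at *
  generalize v 5 m = j at *
  generalize v 13 m = l at *
  generalize v 37 m = k at *
  generalize v 2 B = i' at *
  generalize v 5 B = j' at *
  generalize v 13 B = l' at *
  generalize v 37 B = k' at *
  refine ⟨i + j + k + j' + s, j + i', i' + s, j + k + i' + s, k + i' + j', i + j + k, ?_, ?_⟩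
  · have h1 : m * (185 ^ (i + j + k + j' + s) * 1 ^ (j + i') * 74 ^ (i' + s) *
        10 ^ (j + k + i' + s) * 185 ^ (k + i' + j') * 4810 ^ (i + j + k)) =
        (2 ^ (i + i' + s + j + k) * 5 ^ (i + 2 * j + 2 * k + j' + s + i') *
          37 ^ (i + j + 2 * k + j' + s + i') * t) ^ 2 * 13 ^ (l + (i + j + k)) := by
      rw [hdA]
      have e1 : (185 : ℤ) = 5 * 37 := by norm_num
      have e2 : (74 : ℤ) = 2 * 37 := by norm_num
      have e3 : (10 : ℤ) = 2 * 5 := by norm_num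
      have e4 : (4810 : ℤ) = 2 * 5 * 13 * 37 := by norm_num
      rw [e1, e2, e3, e4]
      simp only [mul_pow, one_pow]
      ring
    rw [h1]
    exact (IsSquare.sq _).mul (hpA.isSquare_pow _)
  · have h1 : B * ((-74) ^ (i + j + k + j' + s) * (-10) ^ (j + i') * (-185) ^ (i' + s) *
        (-10) ^ (j + k + i' + s) * (-4810) ^ (k + i' + j') * (-74) ^ (i + j + k)) =
        ((-1) ^ (2 * s + i + 2 * j + 2 * k + j' + 2 * i') *
          2 ^ (2 * i' + i + 2 * j + 2 * k + j' + s) * 5 ^ (j' + j + 2 * i' + s + k) *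
          37 ^ (i + j + k + j' + s + i') * u) ^ 2 * 13 ^ (l' + (k + i' + j')) *
            37 ^ (k + k') := by
      rw [hdB]
      have e1 : (-185 : ℤ) = (-1) * 5 * 37 := by norm_num
      have e2 : (-74 : ℤ) = (-1) * 2 * 37 := by norm_num
      have e3 : (-10 : ℤ) = (-1) * 2 * 5 := by norm_num
      have e4 : (-4810 : ℤ) = (-1) * 2 * 5 * 13 * 37 := by norm_num
      rw [e1, e2, e3, e4]
      simp only [mul_pow]
      generalize (-1 : ℤ) = w
      ring
    rw [h1]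
    have h13 : Even (l' + (k + i' + j')) := by
      obtain ⟨r, hr⟩ := hpB
      obtain ⟨r', hr'⟩ := h37
      exact ⟨r + r' - k', by omega⟩
    exact ((IsSquare.sq _).mul (h13.isSquare_pow _)).mul (h37.isSquare_pow _)

end


private theorem cast_sq {N : ℤ} (h : IsSquare N) {e : ℚ} {q : ℚ} (he : e ≠ 0)
    (hq : q * e ^ 2 = N) : IsSquare q := by
  obtain ⟨w, rfl⟩ := h
  refine ⟨w / e, ?_⟩
  push_cast at hq
  field_simp
  linarith

/- PROOF. `4810 = 2 * 5 * 13 * 37`, `5850 = 2 * 3 ^ 2 * 5 ^ 2 * 13`, `5850 - 4810 = 2 ^ 4 * 5 * 13`. Let `y ≠ 0`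
first (`x = 5850` is checked directly: `x` has class `26`, `x - 4810 = 1040` class `65`; in general
`0` is only excluded for `x` and `x - 4810`).
Write `A = x`, `B = x - 4810`, `C = x - 5850`, `A B C = y²`. Facts:
(a) sign: `A > 0` (if `A < 0` then `B, C < 0`, product negative).
(b) for primes `p ≠ 2, 3, 5, 13, 37` the valuations of `A`, `B` (and `C`) are even (negative: all three
equal; positive: only one of the three is positive, since the differences are `p`-units).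
(c) `p = 3`: `v₃(A)`, `v₃(B)`, `v₃(C)` are even: the differences have valuations `v₃(4810) = 0`,
`v₃(5850) = 2`, `v₃(1040) = 0`: only `A` and `C` can be positive together; if `v(A) = v(C)` or not:
`v(A) + v(C)` even and (`v(A) ≤ 1 -> v(A) = v(C)`; ...): if `v(A) = 1` then `v(C) = 1`: this has to be
excluded/handled: then `A = 3 a`, `C = 3 c`, `c = a - 1950`, `B = 3 a - 4810 ≡ -4810 ≡ 2 mod 3`, and
`A B C = 9 a c B` with `c ≡ a mod 3` (as `3 ∣ 1950`), so `a c ≡ 1` and `a c B ≡ 2 mod 3`: not a square.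
If `v(A) ≥ 3` then `v(C) = 2` and `v(A)` even.
(d) `p = 37`: `v₃₇(A) ≡ v₃₇(B)`: only `A` and `B` can be positive together, `v(C) = 0` then.
(e) `p = 13`: all three differences have valuation one, `4810 = 13 * 370`, `5850 = 13 * 450`. For a
nonzero `z = 13 ^ k z'` (`z'` a `13`-unit) let `χ(z) = 1` if `z'` is not a square mod `13`. Then
`v(A) ≡ χ(A)`, `v(B) ≡ χ(B)`: if all three have the same valuation `k ≤ 0` then `k` is even and
`A' ≡ B' ≡ C'`, the product is a square so `A'` is a square, if `k ≤ 0`; otherwise all are divisible by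
`13`, `A = 13 a` etc., `a b c * 13 ^ 3 = y²`, `a, b, c` pairwise incongruent mod `13`, so exactly one of
them is divisible by `13` (odd valuation), `a - b ≡ 370 ≡ 6`, `a - c ≡ 450 ≡ 8`, `b - c ≡ 80 ≡ 2`; case `13 ∣ a`:
`b ≡ -6`, `c ≡ -8` mod `13`, etc.: check the three cases.
So the classes of `A` and `B` are given by signs and exponents of `2, 5, 37, 13` with
`A = 2^i 5^j 37^k 13^l`, `B = ± 2^i' 5^j' 37^k 13^l'`, and `l`, `l'` are determined by (e):
`(2/13) = -1`, `(5/13) = -1`, `(37/13) = (11/13) = -1`, `(-1/13) = 1`: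
`l = i + j + k`, `l' = i' + j' + k` mod `2`. This is a group with `2 ^ 6` elements, generated by
`(185, -74)`, `(1, -10)`, `(74, -185)`, `(10, -10)`, `(185, -4810)`, `(4810, -74)`. (If `x' = 0` mod squares:
read `185 = 5 * 37`, `l = 0`.) -/
theorem e0_classes (x y : ℚ) (hxy : y ^ 2 = x * (x - 4810) * (x - 5850)) (hx : x ≠ 0)
    (hx' : x ≠ 4810) : ∃ n₁ n₂ n₃ n₄ t₀ t₁ : ℕ,
      IsSquare (x * (185 ^ n₁ * 1 ^ n₂ * 74 ^ n₃ * 10 ^ n₄ * 185 ^ t₀ * 4810 ^ t₁)) ∧
      IsSquare ((x - 4810) * ((-74) ^ n₁ * (-10) ^ n₂ * (-185) ^ n₃ * (-10) ^ n₄ *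
        (-4810) ^ t₀ * (-74) ^ t₁)) := by
  by_cases hx2 : x = 5850
  · subst hx2
    exact ⟨0, 0, 0, 0, 1, 1, ⟨72150, by norm_num⟩, ⟨19240, by norm_num⟩⟩
  obtain ⟨a, ha⟩ : ∃ a : ℤ, a = x.num := ⟨_, rfl⟩
  obtain ⟨b, hb⟩ : ∃ b : ℤ, b = (x.den : ℤ) := ⟨_, rfl⟩
  have hb0 : 0 < b := by rw [hb]; exact_mod_cast x.den_pos
  have hbq : (b : ℚ) ≠ 0 := by exact_mod_cast hb0.ne'
  have hxab : x = a / b := by
    rw [ha, hb]
    exact_mod_cast (Rat.num_div_den x).symm
  have hcop : IsCoprime b a := by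
    rw [ha, hb]
    exact (Rat.isCoprime_num_den x).symm
  -- the denominator is a square
  have hN : IsSquare (b * (a * (a - 4810 * b) * (a - 5850 * b))) := by
    rw [← Rat.isSquare_intCast_iff]
    refine ⟨y * b ^ 2, ?_⟩
    have h1 : y * b ^ 2 * (y * b ^ 2) = y ^ 2 * b ^ 4 := by ring
    rw [h1, hxy, hxab]
    push_cast
    field_simp
  obtain ⟨g, hg⟩ := hN
  have hcop2 : IsCoprime b (a * (a - 4810 * b) * (a - 5850 * b)) := by
    refine (hcop.mul_right ?_).mul_right ?_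
    · have := IsCoprime.add_mul_left_right hcop (-4810)
      have h2 : a + b * -4810 = a - 4810 * b := by ring
      rwa [h2] at this
    · have := IsCoprime.add_mul_left_right hcop (-5850)
      have h2 : a + b * -5850 = a - 5850 * b := by ring
      rwa [h2] at this
  rw [← pow_two] at hg
  obtain ⟨e, he⟩ := Int.sq_of_isCoprime hcop2 hg
  have heb : b = e ^ 2 := by
    rcases he with he | he
    · exact he
    · nlinarith [sq_nonneg e]
  obtain ⟨f, hf⟩ := Int.sq_of_isCoprime hcop2.symm (by rw [mul_comm]; exact hg)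
  have hfb : f ^ 2 = a * (a - 4810 * e ^ 2) * (a - 5850 * e ^ 2) := by
    rcases hf with hf | hf
    · rw [← hf, heb]
    · rw [← heb]
      have h2 : 0 ≤ a * (a - 4810 * b) * (a - 5850 * b) := by
        by_contra h3
        push Not at h3
        nlinarith [sq_nonneg g]
      have h3 : f ^ 2 = 0 := by nlinarith [sq_nonneg f]
      rw [hf, h3, neg_zero]
  have he0 : e ≠ 0 := by
    rintro rfl
    rw [heb] at hb0
    simp at hb0
  have heq : (e : ℚ) ≠ 0 := by exact_mod_cast he0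
  have hxe : x * (e : ℚ) ^ 2 = a := by
    rw [hxab, heb]
    push_cast
    field_simp
  have ha0 : a ≠ 0 := by
    intro h0
    rw [h0] at hxe
    simp [heq, hx] at hxe
  have hB0 : a - 4810 * e ^ 2 ≠ 0 := by
    intro h0
    apply hx'
    have h1 : (a : ℚ) = 4810 * e ^ 2 := by exact_mod_cast sub_eq_zero.1 h0
    rw [h1] at hxe
    exact mul_right_cancel₀ (pow_ne_zero 2 heq) hxe
  have hC0 : a - 5850 * e ^ 2 ≠ 0 := by
    intro h0
    apply hx2
    have h1 : (a : ℚ) = 5850 * e ^ 2 := by exact_mod_cast sub_eq_zero.1 h0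
    rw [h1] at hxe
    exact mul_right_cancel₀ (pow_ne_zero 2 heq) hxe
  have hf0 : f ≠ 0 := by
    rintro rfl
    have h1 : a * (a - 4810 * e ^ 2) * (a - 5850 * e ^ 2) = 0 := by rw [← hfb]; norm_num
    exact (mul_ne_zero (mul_ne_zero ha0 hB0) hC0) h1
  have hcae : IsCoprime a e := by
    rw [heb, pow_two] at hcop
    exact hcop.symm.of_mul_right_left
  obtain ⟨n₁, n₂, n₃, n₄, t₀, t₁, h1, h2⟩ := main_int hcae ha0 hB0 hC0 hf0 hfb
  refine ⟨n₁, n₂, n₃, n₄, t₀, t₁, cast_sq h1 heq ?_, cast_sq h2 heq ?_⟩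
  · push_cast
    rw [← hxe]
    ring
  · push_cast
    rw [← hxe]
    ring

end Pool.Agent.ZCQ
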