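import Pool.Agent.ZCQ.Defs

/-!
# Division by two
-/

set_option autoImplicit false

noncomputable section

namespace Pool.Agent.ZCQ

open WeierstrassCurve Pool.Agent.ZC
open scoped Classical

variable {K : Type} [Field K] [NeZero (2 : K)] {W : WeierstrassCurve K} {e₁ e₂ e₃ : K}

private theorem half_point_ext {x y x' y' : K} {hP : W.toAffine.Nonsingular x y}
    {hP' : W.toAffine.Nonsingular x' y'} (hx : x = x') (hy : y = y') :
    Affine.Point.some x y hP = Affine.Point.some x' y' hP' := by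
  subst hx
  subst hy
  rfl

private theorem half_negY (h : Rts W e₁ e₂ e₃) (x y : K) : W.toAffine.negY x y = -y := by
  rw [Affine.negY, h.a1, h.a3]
  ring

private theorem half_squares {x y : K} (h : Rts W e₁ e₂ e₃)
    (hP : W.toAffine.Nonsingular x y) (h1 : dl e₁ e₂ e₃ (Affine.Point.some x y hP) = 0)
    (h2 : dl e₂ e₁ e₃ (Affine.Point.some x y hP) = 0) :
    ∃ r s t : K, x - e₁ = r ^ 2 ∧ x - e₂ = s ^ 2 ∧ x - e₃ = t ^ 2 ∧ y = r * s * t := by
  have hy := (h.nonsingular_iff x y).1 hP
  have d1 : (if x = e₁ then cl ((e₁ - e₂) * (e₁ - e₃)) else cl (x - e₁)) = 0 := h1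
  have d2 : (if x = e₂ then cl ((e₂ - e₁) * (e₂ - e₃)) else cl (x - e₂)) = 0 := h2
  have s12 := sub_ne_zero.2 h.h12
  have s13 := sub_ne_zero.2 h.h13
  have s23 := sub_ne_zero.2 h.h23
  have s21 := sub_ne_zero.2 h.h12.symm
  by_cases c1 : x = e₁
  · rw [if_pos c1, cl_eq_zero (mul_ne_zero s12 s13)] at d1
    have c2 : x ≠ e₂ := by
      rw [c1]
      exact h.h12
    rw [if_neg c2, cl_eq_zero (sub_ne_zero.2 c2)] at d2
    obtain ⟨w, hw⟩ := d1
    obtain ⟨s, hs⟩ := d2
    have hs0 : s ≠ 0 := by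
      rintro rfl
      apply sub_ne_zero.2 c2
      rw [hs, zero_mul]
    refine ⟨0, s, w / s, ?_, ?_, ?_, ?_⟩
    · rw [c1]; ring
    · rw [hs]; ring
    · have h3 : (x - e₃) * (s * s) = w * w := by
        rw [← hs, ← hw, c1]
        ring
      rw [div_pow, eq_div_iff (pow_ne_zero 2 hs0)]
      linear_combination h3
    · have h4 : y ^ 2 = 0 := by
        rw [hy, c1]
        ring
      rw [pow_eq_zero_iff two_ne_zero] at h4
      rw [h4]
      ring
  · rw [if_neg c1, cl_eq_zero (sub_ne_zero.2 c1)] at d1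
    obtain ⟨r, hr⟩ := d1
    have hr0 : r ≠ 0 := by
      rintro rfl
      apply sub_ne_zero.2 c1
      rw [hr, zero_mul]
    by_cases c2 : x = e₂
    · rw [if_pos c2, cl_eq_zero (mul_ne_zero s21 s23)] at d2
      obtain ⟨w, hw⟩ := d2
      refine ⟨r, 0, w / r, ?_, ?_, ?_, ?_⟩
      · rw [hr]; ring
      · rw [c2]; ring
      · have h3 : (x - e₃) * (r * r) = w * w := by
          rw [← hr, ← hw, c2]
          ring
        rw [div_pow, eq_div_iff (pow_ne_zero 2 hr0)]
        linear_combination h3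
      · have h4 : y ^ 2 = 0 := by
          rw [hy, c2]
          ring
        rw [pow_eq_zero_iff two_ne_zero] at h4
        rw [h4]
        ring
    · rw [if_neg c2, cl_eq_zero (sub_ne_zero.2 c2)] at d2
      obtain ⟨s, hs⟩ := d2
      have hs0 : s ≠ 0 := by
        rintro rfl
        apply sub_ne_zero.2 c2
        rw [hs, zero_mul]
      refine ⟨r, s, y / (r * s), ?_, ?_, ?_, ?_⟩
      · rw [hr]; ring
      · rw [hs]; ring
      · rw [div_pow, eq_div_iff (pow_ne_zero 2 (mul_ne_zero hr0 hs0)), hy, hr, hs]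
        ring
      · field_simp

/- PROOF. For `P = 0` take `Q = 0`. Let `P = (x, y)`. All three of `x - e₁`, `x - e₂`, `x - e₃` are
squares: if `x ≠ e₁`, `x ≠ e₂` the first two by `cl_eq_zero`, the third by the equation
`y² = (x - e₁) (x - e₂) (x - e₃)`; if `x = e₁`: `(e₁ - e₂) (e₁ - e₃)` and `e₁ - e₂` are squares, so
`e₁ - e₃` is one; similarly for `x = e₂` (the case `x = e₃` is contained in the first one). So
`x - e₁ = r²`, `x - e₂ = s²`, `x - e₃ = t²`, `y = r s t` after changing the sign of `t`. Take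
`Q = (x + r s + s t + t r, (r + s) (s + t) (t + r))`; note `x(Q) - e₁ = (r + s) (r + t)` etc.; `y(Q) ≠ 0`
since `r + s = 0` would give `e₁ = e₂`. The slope of the tangent at `Q` is `r + s + t`, so
`Q + Q = (x, r s t)`. -/
private theorem exists_half_cl (h : Rts W e₁ e₂ e₃) (P : W.toAffine.Point) (h1 : dl e₁ e₂ e₃ P = 0)
    (h2 : dl e₂ e₁ e₃ P = 0) : ∃ Q, P = Q + Q := by
  rcases P with _ | ⟨x, y, hP⟩
  · exact ⟨0, (add_zero _).symm⟩
  obtain ⟨r, s, t, hr, hs, ht, hy⟩ := half_squares h hP h1 h2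
  have he1 : e₁ = x - r ^ 2 := by linear_combination -hr
  have he2 : e₂ = x - s ^ 2 := by linear_combination -hs
  have he3 : e₃ = x - t ^ 2 := by linear_combination -ht
  obtain ⟨X, hX⟩ : ∃ X, X = x + r * s + s * t + t * r := ⟨_, rfl⟩
  obtain ⟨Y, hY⟩ : ∃ Y, Y = (r + s) * (s + t) * (t + r) := ⟨_, rfl⟩
  have hns : W.toAffine.Nonsingular X Y := by
    rw [h.nonsingular_iff, hX, hY, he1, he2, he3]
    ring
  have hY0 : Y ≠ 0 := by
    rw [hY]
    refine mul_ne_zero (mul_ne_zero ?_ ?_) ?_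
    · intro h0
      apply h.h12
      rw [he1, he2]
      linear_combination (s - r) * h0
    · intro h0
      apply h.h23
      rw [he2, he3]
      linear_combination (t - s) * h0
    · intro h0
      apply h.h13
      rw [he1, he3]
      linear_combination (t - r) * h0
  have h20 : (2 : K) ≠ 0 := NeZero.ne 2
  have hneg : Y ≠ W.toAffine.negY X Y := by
    rw [half_negY h]
    intro h0
    apply mul_ne_zero h20 hY0
    linear_combination h0
  have hL : W.toAffine.slope X X Y Y = r + s + t := by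
    rw [Affine.slope_of_Y_ne rfl hneg, half_negY h, h.a1, h.a2, h.a4]
    have h2Y : Y - -Y ≠ 0 := by
      intro h0
      apply mul_ne_zero h20 hY0
      linear_combination h0
    rw [div_eq_iff h2Y, hX, hY, he1, he2, he3]
    ring
  have haX : W.toAffine.addX X X (W.toAffine.slope X X Y Y) = x := by
    rw [hL, Affine.addX, h.a1, h.a2, hX, he1, he2, he3]
    ring
  refine ⟨Affine.Point.some X Y hns, ?_⟩
  rw [Affine.Point.add_self_of_Y_ne hneg]
  apply half_point_ext
  · exact haX.symm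
  · rw [Affine.addY, Affine.negAddY, haX, half_negY h, hL, hX, hY, hy]
    ring

private theorem T_add_T_cl (h : Rts W e₁ e₂ e₃) : h.T + h.T = 0 := by
  unfold Rts.T
  apply Affine.Point.add_self_of_Y_eq
  rw [half_negY h, neg_zero]

private theorem T_add_T' (h : Rts W e₁ e₂ e₃) (hns : W.toAffine.Nonsingular e₃ 0) :
    h.T + h.swap12.T = Affine.Point.some e₃ 0 hns := by
  unfold Rts.T
  rw [Affine.Point.add_of_X_ne h.h12]
  have hL : W.toAffine.slope e₁ e₂ 0 0 = 0 := by
    rw [Affine.slope_of_X_ne h.h12, sub_self, zero_div]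
  have haX : W.toAffine.addX e₁ e₂ (W.toAffine.slope e₁ e₂ 0 0) = e₃ := by
    rw [hL, Affine.addX, h.a1, h.a2]
    ring
  apply half_point_ext
  · exact haX
  · rw [Affine.addY, Affine.negAddY, haX, half_negY h, hL]
    ring

/-- `(e₁, 0) + (e₂, 0) = (e₃, 0)`, and these are all points of order two -/
private theorem two_torsion_cl (h : Rts W e₁ e₂ e₃) (P : W.toAffine.Point) (hP : P + P = 0) :
    ∃ a b : ℕ, P = a • h.T + b • h.swap12.T := by
  rcases P with _ | ⟨x, y, hns⟩
  · refine ⟨0, 0, ?_⟩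
    rw [zero_nsmul, zero_nsmul, add_zero]
    rfl
  have h20 : (2 : K) ≠ 0 := NeZero.ne 2
  have hy : y = 0 := by
    by_contra hy0
    have hneg : y ≠ W.toAffine.negY x y := by
      rw [half_negY h]
      intro h0
      apply mul_ne_zero h20 hy0
      linear_combination h0
    rw [Affine.Point.add_self_of_Y_ne hneg] at hP
    exact Affine.Point.some_ne_zero _ hP
  subst hy
  have h1 := (h.nonsingular_iff x 0).1 hns
  have h2 : (x - e₁) * (x - e₂) * (x - e₃) = 0 := by
    rw [← h1]
    ring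
  rcases mul_eq_zero.1 h2 with h3 | h3
  · rcases mul_eq_zero.1 h3 with h4 | h4
    · refine ⟨1, 0, ?_⟩
      rw [one_nsmul, zero_nsmul, add_zero]
      exact half_point_ext (sub_eq_zero.1 h4) rfl
    · refine ⟨0, 1, ?_⟩
      rw [one_nsmul, zero_nsmul, zero_add]
      exact half_point_ext (sub_eq_zero.1 h4) rfl
  · refine ⟨1, 1, ?_⟩
    have h5 : x = e₃ := sub_eq_zero.1 h3
    subst h5
    rw [one_nsmul, one_nsmul, T_add_T' h hns]

theorem exists_half [d : DecidableEq K] (h : Rts W e₁ e₂ e₃) (P : W.toAffine.Point)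
    (h1 : dl e₁ e₂ e₃ P = 0) (h2 : dl e₂ e₁ e₃ P = 0) : ∃ Q, P = Q + Q := by
  have hd : d = fun a b => Classical.propDecidable (a = b) := Subsingleton.elim _ _
  subst hd
  exact exists_half_cl h P h1 h2

theorem T_add_T [d : DecidableEq K] (h : Rts W e₁ e₂ e₃) : h.T + h.T = 0 := by
  have hd : d = fun a b => Classical.propDecidable (a = b) := Subsingleton.elim _ _
  subst hd
  exact T_add_T_cl h

theorem two_torsion [d : DecidableEq K] (h : Rts W e₁ e₂ e₃) (P : W.toAffine.Point)
    (hP : P + P = 0) : ∃ a b : ℕ, P = a • h.T + b • h.swap12.T := by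
  have hd : d = fun a b => Classical.propDecidable (a = b) := Subsingleton.elim _ _
  subst hd
  exact two_torsion_cl h P hP

end Pool.Agent.ZCQ
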