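import Pool.Agent.ZCQ.Dhom
import Pool.Agent.ZCQ.Half

/-!
# The weak Mordell-Weil theorem for curves with rational two-torsion over `ℚ`
-/

set_option autoImplicit false

noncomputable section

namespace Pool.Agent.ZCQ

open WeierstrassCurve Pool.Agent.ZC
open scoped Classical

/-- A natural number divisible by all the primes at which `r` has nonzero valuation. -/
private def bad (r : ℚ) : ℕ := r.num.natAbs * r.den

private theorem bad_ne_zero {r : ℚ} (hr : r ≠ 0) : bad r ≠ 0 :=
  Nat.mul_ne_zero (Int.natAbs_ne_zero.2 (Rat.num_ne_zero.2 hr)) r.den_ne_zero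

private theorem val_of_not_dvd {p : ℕ} {r : ℚ} (h : ¬ p ∣ bad r) : padicValRat p r = 0 := by
  have h1 : ¬ p ∣ r.num.natAbs := fun h2 => h (h2.mul_right _)
  have h3 : ¬ p ∣ r.den := fun h2 => h (h2.mul_left _)
  unfold padicValRat padicValInt
  rw [padicValNat.eq_zero_of_not_dvd h1, padicValNat.eq_zero_of_not_dvd h3]
  simp

/-- The valuation of `x - e₁` is even at the good primes. -/
private theorem even_val {p : ℕ} [Fact p.Prime] {x y e₁ e₂ e₃ : ℚ} (hy : y ≠ 0)
    (h : y ^ 2 = (x - e₁) * (x - e₂) * (x - e₃)) (h12 : e₁ ≠ e₂) (h13 : e₁ ≠ e₃)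
    (v12 : padicValRat p (e₁ - e₂) = 0) (v13 : padicValRat p (e₁ - e₃) = 0) :
    Even (padicValRat p (x - e₁)) := by
  have hy2 : y ^ 2 ≠ 0 := pow_ne_zero 2 hy
  rw [h] at hy2
  have n1 : x - e₁ ≠ 0 := left_ne_zero_of_mul (left_ne_zero_of_mul hy2)
  have n2 : x - e₂ ≠ 0 := right_ne_zero_of_mul (left_ne_zero_of_mul hy2)
  have n3 : x - e₃ ≠ 0 := right_ne_zero_of_mul hy2
  have hv := congrArg (padicValRat p) h
  rw [padicValRat.pow, padicValRat.mul (mul_ne_zero n1 n2) n3, padicValRat.mul n1 n2] at hv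
  push_cast at hv
  have d12 : e₁ - e₂ ≠ 0 := sub_ne_zero.2 h12
  have d13 : e₁ - e₃ ≠ 0 := sub_ne_zero.2 h13
  have s2 : (x - e₁) + (e₁ - e₂) = x - e₂ := by ring
  have s3 : (x - e₁) + (e₁ - e₃) = x - e₃ := by ring
  have t2 : (e₁ - e₂) + (x - e₁) = x - e₂ := by ring
  have t3 : (e₁ - e₃) + (x - e₁) = x - e₃ := by ring
  rcases lt_trichotomy (padicValRat p (x - e₁)) 0 with hlt | heq | hgt
  · have e2 : padicValRat p (x - e₂) = padicValRat p (x - e₁) := by
      rw [← s2]
      exact padicValRat.add_eq_of_lt (by rw [s2]; exact n2) n1 d12 (by rw [v12]; exact hlt)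
    have e3 : padicValRat p (x - e₃) = padicValRat p (x - e₁) := by
      rw [← s3]
      exact padicValRat.add_eq_of_lt (by rw [s3]; exact n3) n1 d13 (by rw [v13]; exact hlt)
    rw [e2, e3] at hv
    exact ⟨padicValRat p y - padicValRat p (x - e₁), by linarith⟩
  · rw [heq]
    exact ⟨0, rfl⟩
  · have e2 : padicValRat p (x - e₂) = 0 := by
      rw [← t2, ← v12]
      exact padicValRat.add_eq_of_lt (by rw [t2]; exact n2) d12 n1 (by rw [v12]; exact hgt)
    have e3 : padicValRat p (x - e₃) = 0 := by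
      rw [← t3, ← v13]
      exact padicValRat.add_eq_of_lt (by rw [t3]; exact n3) d13 n1 (by rw [v13]; exact hgt)
    rw [e2, e3] at hv
    exact ⟨padicValRat p y, by linarith⟩

/-- A nonzero rational number is a square times an integer without square factors. -/
private theorem exists_sqfree (r : ℚ) (hr : r ≠ 0) :
    ∃ (a : ℤ) (c : ℚ), c ≠ 0 ∧ Squarefree a.natAbs ∧ r * c ^ 2 = a ∧ a ≠ 0 := by
  obtain ⟨a, b, ha, hb, hab, hsq⟩ := Nat.sq_mul_squarefree_of_pos (n := bad r)
    (Nat.pos_of_ne_zero (bad_ne_zero hr))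
  have hden : (r.den : ℚ) ≠ 0 := Nat.cast_ne_zero.2 r.den_ne_zero
  have hbq : (b : ℚ) ≠ 0 := Nat.cast_ne_zero.2 hb.ne'
  refine ⟨r.num.sign * a, r.den / b, div_ne_zero hden hbq, ?_, ?_, ?_⟩
  · rw [Int.natAbs_mul, Int.natAbs_sign_of_ne_zero (Rat.num_ne_zero.2 hr), one_mul,
      Int.natAbs_natCast]
    exact hsq
  · have h1 : (r.num : ℚ) = r * r.den := (Rat.mul_den_eq_num r).symm
    have h2 : (r.num.sign : ℚ) * (r.num.natAbs : ℚ) = r.num := by
      rw [← Int.cast_natCast (R := ℚ) r.num.natAbs, ← Int.cast_mul, Int.sign_mul_natAbs]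
    have h3 : (b : ℚ) ^ 2 * a = r.num.natAbs * r.den := by
      have h4 := congrArg (Nat.cast (R := ℚ)) hab
      unfold bad at h4
      rw [Nat.cast_mul, Nat.cast_mul, Nat.cast_pow] at h4
      exact h4
    rw [Int.cast_mul, Int.cast_natCast, div_pow, ← mul_div_assoc, div_eq_iff (pow_ne_zero 2 hbq)]
    calc r * (r.den : ℚ) ^ 2 = (r.num : ℚ) * r.den := by rw [h1]; ring
      _ = r.num.sign * (r.num.natAbs * r.den) := by rw [← mul_assoc, h2]
      _ = r.num.sign * a * (b : ℚ) ^ 2 := by rw [← h3]; ring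
  · exact mul_ne_zero (Int.sign_eq_zero_iff_zero.not.2 (Rat.num_ne_zero.2 hr))
      (by exact_mod_cast ha.ne')

/-- A rational number all of whose valuations at the primes not dividing `N` are even has the class of
a small integer. -/
private theorem cl_mem (N : ℕ) (hN : N ≠ 0) (r : ℚ) (hr : r ≠ 0)
    (h : ∀ p : ℕ, p.Prime → ¬ p ∣ N → Even (padicValRat p r)) :
    cl r ∈ (fun a : ℤ => cl (a : ℚ)) '' Set.Icc (-(N : ℤ)) N := by
  obtain ⟨a, c, hc, hsq, hac, ha⟩ := exists_sqfree r hr
  have haq : (a : ℚ) ≠ 0 := Int.cast_ne_zero.2 ha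
  refine ⟨a, ?_, ?_⟩
  · have hdvd : a.natAbs ∣ N := by
      rw [← Nat.prod_primeFactors_of_squarefree hsq]
      refine dvd_trans (Finset.prod_dvd_prod_of_subset _ _ _ ?_) (Nat.prod_primeFactors_dvd N)
      intro p hp
      have hpp := Nat.prime_of_mem_primeFactors hp
      have hpa := Nat.dvd_of_mem_primeFactors hp
      rw [Nat.mem_primeFactors]
      refine ⟨hpp, ?_, hN⟩
      by_contra hcon
      have : Fact p.Prime := ⟨hpp⟩
      have h1 := h p hpp hcon
      have h2 := congrArg (padicValRat p) hac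
      rw [padicValRat.mul hr (pow_ne_zero 2 hc), padicValRat.pow, padicValRat.of_int] at h2
      have h3 : padicValInt p a = 1 := by
        unfold padicValInt
        have hle : (a.natAbs).factorization p ≤ 1 := hsq.natFactorization_le_one p
        rw [Nat.factorization_def _ hpp] at hle
        have hge := one_le_padicValNat_of_dvd (Int.natAbs_ne_zero.2 ha) hpa
        omega
      rw [h3] at h2
      obtain ⟨k, hk⟩ := h1
      push_cast at h2
      omega
    have hle := Nat.le_of_dvd (Nat.pos_of_ne_zero hN) hdvd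
    rw [Set.mem_Icc]
    omega
  · show cl (a : ℚ) = cl r
    rw [← hac, cl_mul hr (pow_ne_zero 2 hc), cl_sq, add_zero]

private theorem finite_range {W : WeierstrassCurve ℚ} {e₁ e₂ e₃ : ℚ} (h : Rts W e₁ e₂ e₃) :
    (Set.range (dl (W := W) e₁ e₂ e₃)).Finite := by
  have hN1 := bad_ne_zero (sub_ne_zero.2 h.h12)
  have hN2 := bad_ne_zero (sub_ne_zero.2 h.h13)
  refine Set.Finite.subset (s := {0, cl ((e₁ - e₂) * (e₁ - e₃)), cl (e₂ - e₁), cl (e₃ - e₁)} ∪
    (fun a : ℤ => cl (a : ℚ)) ''
      Set.Icc (-((bad (e₁ - e₂) * bad (e₁ - e₃) : ℕ) : ℤ)) (bad (e₁ - e₂) * bad (e₁ - e₃) : ℕ))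
    ?_ ?_
  · exact Set.Finite.union (Set.toFinite _) ((Set.finite_Icc _ _).image _)
  · rintro _ ⟨P, rfl⟩
    match P with
    | 0 => exact Or.inl (Or.inl rfl)
    | .some x y hP =>
      have hE := (h.nonsingular_iff x y).1 hP
      by_cases h1 : x = e₁
      · left
        right
        left
        exact if_pos h1
      · have hdl : dl (W := W) e₁ e₂ e₃ (.some x y hP) = cl (x - e₁) := if_neg h1
        rw [hdl]
        by_cases h2 : x = e₂
        · left
          right
          right
          left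
          rw [h2]
        by_cases h3 : x = e₃
        · left
          right
          right
          right
          rw [h3]
          rfl
        right
        have n1 := sub_ne_zero.2 h1
        have n2 := sub_ne_zero.2 h2
        have n3 := sub_ne_zero.2 h3
        have hy : y ≠ 0 := by
          rintro rfl
          have : (x - e₁) * (x - e₂) * (x - e₃) ≠ 0 := mul_ne_zero (mul_ne_zero n1 n2) n3
          apply this
          rw [← hE]
          ring
        refine cl_mem _ (Nat.mul_ne_zero hN1 hN2) _ n1 fun p hp hpN => ?_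
        have : Fact p.Prime := ⟨hp⟩
        exact even_val hy hE h.h12 h.h13
          (val_of_not_dvd fun h4 => hpN (h4.mul_right _))
          (val_of_not_dvd fun h4 => hpN (h4.mul_left _))

private theorem finiteIndex_gen {K : Type} [Field K] [NeZero (2 : K)] {W : WeierstrassCurve K}
    {e₁ e₂ e₃ : K} (h : Rts W e₁ e₂ e₃) (hf₁ : (Set.range (dl (W := W) e₁ e₂ e₃)).Finite)
    (hf₂ : (Set.range (dl (W := W) e₂ e₁ e₃)).Finite) :
    (nsmulAddMonoidHom (α := W.toAffine.Point) 2).range.FiniteIndex := by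
  have hfin : Set.Finite ((dHom2 h).range : Set (Cl K × Cl K)) := by
    refine Set.Finite.subset (hf₁.prod hf₂) ?_
    rintro _ ⟨P, rfl⟩
    rw [dHom2_apply]
    exact ⟨⟨P, rfl⟩, ⟨P, rfl⟩⟩
  have : Finite (dHom2 h).range := hfin
  have : (dHom2 h).ker.FiniteIndex := AddSubgroup.finiteIndex_ker (dHom2 h)
  refine AddSubgroup.finiteIndex_of_le (H := (dHom2 h).ker) ?_
  intro P hP
  have h1 : dHom2 h P = 0 := hP
  rw [dHom2_apply] at h1
  obtain ⟨Q, hQ⟩ := exists_half h P (congrArg Prod.fst h1) (congrArg Prod.snd h1)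
  exact ⟨Q, by rw [hQ]; exact two_nsmul Q⟩

private theorem finiteIndex_aux {W : WeierstrassCurve ℚ} {e₁ e₂ e₃ : ℚ} (h : Rts W e₁ e₂ e₃)
    [inst : DecidableEq ℚ] (hi : inst = fun a b => Classical.propDecidable (a = b)) :
    (nsmulAddMonoidHom (α := W.toAffine.Point) 2).range.FiniteIndex := by
  subst hi
  exact finiteIndex_gen h (finite_range h) (finite_range h.swap12)

/- PROOF. Let `S` be the finite set of primes `p` with `v_p(e₁ - e₂) ≠ 0` or `v_p(e₁ - e₃) ≠ 0` or
`v_p(e₂ - e₃) ≠ 0` (`padicValRat`; a nonzero rational number has nonzero valuation only at primes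
dividing its numerator or denominator). If `P = (x, y)` with `y ≠ 0` and `p ∉ S` then `v_p(x - e₁)` is
even: if it is `< 0` then `x - e₁`, `x - e₂`, `x - e₃` have the same valuation `v` and `2 v(y) = 3 v`; if
it is `> 0` then the other two factors have valuation `0` and `2 v(y) = v`. The same for `x - e₂`. So
`x - e₁` has the class of an integer without square factors divisible by primes of `S` only, and `dl`
has only finitely many values. The kernel of `dHom2` consists of multiples of two (`exists_half`). -/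
theorem finiteIndex {W : WeierstrassCurve ℚ} {e₁ e₂ e₃ : ℚ} (h : Rts W e₁ e₂ e₃) :
    (nsmulAddMonoidHom (α := W.toAffine.Point) 2).range.FiniteIndex :=
  finiteIndex_aux h (Subsingleton.elim _ _)

end Pool.Agent.ZCQ
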