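import Pool.Agent.ZCQ.AddSub
import Pool.Agent.ZCQ.Weak

/-!
# Mordell's theorem for curves with rational two-torsion
-/

set_option autoImplicit false

noncomputable section

namespace Pool.Agent.ZCQ

open WeierstrassCurve Pool.Agent.ZC
open scoped Classical

private def ht {W : WeierstrassCurve ℚ} (P : W.toAffine.Point) : ℝ := Height.logHeight P.xRep

private theorem xRep_vec {W : WeierstrassCurve ℚ} (P : W.toAffine.Point) :
    P.xRep = ![P.xRep 0, P.xRep 1] := by
  ext i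
  fin_cases i <;> rfl

private theorem sym_le {W : WeierstrassCurve ℚ} : ∃ C : ℝ, ∀ P Q : W.toAffine.Point,
    |Height.logHeight (P.sym2x Q) - (ht P + ht Q)| ≤ C := by
  obtain ⟨C, hC⟩ := Height.abs_logHeight_sym2_sub_le ℚ
  refine ⟨C, fun P Q => ?_⟩
  have hP : ![P.xRep 0, P.xRep 1] ≠ 0 := by
    rw [← xRep_vec]
    exact P.xRep_ne_zero
  have hQ : ![Q.xRep 0, Q.xRep 1] ≠ 0 := by
    rw [← xRep_vec]
    exact Q.xRep_ne_zero
  have h1 := hC hP hQ
  rw [← xRep_vec, ← xRep_vec] at h1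
  exact h1

private theorem para {W : WeierstrassCurve ℚ} {e₁ e₂ e₃ : ℚ} (h : Rts W e₁ e₂ e₃) :
    ∃ C : ℝ, ∀ P Q : W.toAffine.Point,
      |ht (P + Q) + ht (P - Q) - 2 * (ht P + ht Q)| ≤ C := by
  have := h.isElliptic
  obtain ⟨C₁, h₁⟩ := sym_le (W := W)
  obtain ⟨C₂, h₂⟩ := W.abs_logHeight_addSubMap_sub_two_mul_logHeight_le
  refine ⟨3 * C₁ + C₂, fun P Q => ?_⟩
  obtain ⟨c, hc, hcc⟩ : ∃ c : ℚ, c ≠ 0 ∧ (fun i => (W.addSubMap i).eval (P.sym2x Q)) =
      c • ((P + Q).sym2x (P - Q)) := addSubMap_sym2x h P Q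
  have a1 := abs_le.1 (h₁ P Q)
  have a2 := abs_le.1 (h₁ (P + Q) (P - Q))
  have a3 := h₂ (P.sym2x Q)
  rw [hcc, Height.logHeight_smul_eq_logHeight _ hc] at a3
  have a3 := abs_le.1 a3
  rw [abs_le]
  constructor <;> linarith [a1.1, a1.2, a2.1, a2.2, a3.1, a3.2]

private theorem northcott {W : WeierstrassCurve ℚ} : Northcott (ht (W := W)) where
  finite_le b := by
    have h1 : (insert (![1, 0] : Fin 2 → ℚ)
        ((fun x : ℚ => (![x, 1] : Fin 2 → ℚ)) '' {x : ℚ | Height.logHeight₁ x ≤ b})).Finite :=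
      ((Northcott.finite_le (h := Height.logHeight₁ (K := ℚ)) b).image _).insert _
    have h2 : {P : W.toAffine.Point | ht P ≤ b} ⊆ (fun P : W.toAffine.Point => P.xRep) ⁻¹'
        (insert (![1, 0] : Fin 2 → ℚ)
        ((fun x : ℚ => (![x, 1] : Fin 2 → ℚ)) '' {x : ℚ | Height.logHeight₁ x ≤ b})) := by
      intro P hP
      match P with
      | 0 => exact Set.mem_insert _ _
      | .some x y hxy =>
        refine Set.mem_insert_of_mem _ ⟨x, ?_, rfl⟩
        have h3 : ht (Affine.Point.some x y hxy) ≤ b := hP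
        unfold ht at h3
        rw [Affine.Point.xRep_some] at h3
        show Height.logHeight₁ x ≤ b
        rw [Height.logHeight₁_eq_logHeight]
        exact h3
    refine Set.Finite.subset ?_ h2
    refine Set.Finite.preimage' h1 fun v _ => ?_
    by_cases hv : ∃ P : W.toAffine.Point, P.xRep = v
    · obtain ⟨P, rfl⟩ := hv
      refine (Set.toFinite {P, -P}).subset fun Q hQ => ?_
      have h4 : Q.xRep = P.xRep := hQ
      rcases Affine.Point.eq_or_eq_neg_of_xRep_eq_xRep h4 with h5 | h5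
      · exact Or.inl h5
      · exact Or.inr h5
    · refine (Set.finite_empty).subset fun Q hQ => hv ⟨Q, hQ⟩

theorem fg {W : WeierstrassCurve ℚ} {e₁ e₂ e₃ : ℚ} (h : Rts W e₁ e₂ e₃) :
    AddGroup.FG W.toAffine.Point := by
  obtain ⟨C, hC⟩ := para h
  have := northcott (W := W)
  exact AddCommGroup.fg_of_descent' (h := ht (W := W)) (C := C) (finiteIndex h)
    (fun P => Height.logHeight_nonneg _) hC

end Pool.Agent.ZCQ
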