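import Pool.Agent.ZCQ.QuadPts
import Pool.Agent.ZCQ.E0Classes
import Pool.Agent.ZCQ.Mordell

/-!
# The curve `y² = x (x - 4810) (x - 5850)` has rank four
-/

set_option autoImplicit false

noncomputable section

namespace Pool.Agent.ZCQ

open WeierstrassCurve Pool.Agent.ZC
open scoped Classical

theorem e0_quad : Quad 370 450 170 110 200 160 := by
  constructor <;> norm_num

private theorem cl_of_sq_mul {x y : ℚ} (hx : x ≠ 0) (hy : y ≠ 0) (h : IsSquare (x * y)) :
    cl x = cl y :=
  (cl_eq_cl hx hy).2 h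

private theorem cl_same {x y : ℚ} (r : ℚ) (hx : x ≠ 0) (hy : y ≠ 0) (h : x * y = r * r) :
    cl x = cl y :=
  cl_of_sq_mul hx hy ⟨r, h⟩

private theorem cl_prod6 {a b c d e f : ℚ} (ha : a ≠ 0) (hb : b ≠ 0) (hc : c ≠ 0) (hd : d ≠ 0)
    (he : e ≠ 0) (hf : f ≠ 0) (i j k l m n : ℕ) :
    cl (a ^ i * b ^ j * c ^ k * d ^ l * e ^ m * f ^ n) =
      i • cl a + j • cl b + k • cl c + l • cl d + m • cl e + n • cl f := by
  have ha' := pow_ne_zero i ha
  have hb' := pow_ne_zero j hb
  have hc' := pow_ne_zero k hc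
  have hd' := pow_ne_zero l hd
  have he' := pow_ne_zero m he
  have hf' := pow_ne_zero n hf
  rw [cl_mul (mul_ne_zero (mul_ne_zero (mul_ne_zero (mul_ne_zero ha' hb') hc') hd') he') hf',
    cl_mul (mul_ne_zero (mul_ne_zero (mul_ne_zero ha' hb') hc') hd') he',
    cl_mul (mul_ne_zero (mul_ne_zero ha' hb') hc') hd', cl_mul (mul_ne_zero ha' hb') hc',
    cl_mul ha' hb', cl_pow ha, cl_pow hb, cl_pow hc, cl_pow hd, cl_pow he, cl_pow hf]

private theorem e0_phi0 : dHom2 e0_quad.rts (e0_quad.pt 0) = (cl 185, cl (-74)) := by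
  have h := congrFun e0_quad.cl_pt 0
  simp only [Matrix.cons_val_zero] at h
  rw [h]
  refine Prod.ext ?_ ?_
  · exact cl_same 370 (by norm_num) (by norm_num) (by norm_num)
  · exact cl_same 370 (by norm_num) (by norm_num) (by norm_num)

private theorem e0_phi1 : dHom2 e0_quad.rts (e0_quad.pt 1) = (cl 1, cl (-10)) := by
  have h := congrFun e0_quad.cl_pt 1
  simp only [Matrix.cons_val_one, Matrix.cons_val_zero] at h
  rw [h]
  refine Prod.ext ?_ ?_
  · exact cl_same 30 (by norm_num) (by norm_num) (by norm_num)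
  · rfl

private theorem e0_phi2 : dHom2 e0_quad.rts (e0_quad.pt 2) = (cl 74, cl (-185)) := by
  have h := congrFun e0_quad.cl_pt 2
  simp only [Matrix.cons_val] at h
  rw [h]
  refine Prod.ext ?_ ?_
  · exact cl_same 370 (by norm_num) (by norm_num) (by norm_num)
  · exact cl_same 370 (by norm_num) (by norm_num) (by norm_num)

private theorem e0_phi3 : dHom2 e0_quad.rts (e0_quad.pt 3) = (cl 10, cl (-10)) := by
  have h := congrFun e0_quad.cl_pt 3
  simp only [Matrix.cons_val] at h
  rw [h]
  refine Prod.ext ?_ ?_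
  · exact cl_same 150 (by norm_num) (by norm_num) (by norm_num)
  · rfl

private theorem e0_phiT0 : dHom2 e0_quad.rts e0_quad.rts.T = (cl 185, cl (-4810)) := by
  rw [e0_quad.cl_T.1]
  refine Prod.ext ?_ ?_
  · exact cl_same 5550 (by norm_num) (by norm_num) (by norm_num)
  · exact cl_same 4810 (by norm_num) (by norm_num) (by norm_num)

private theorem e0_phiT1 : dHom2 e0_quad.rts e0_quad.rts.swap12.T = (cl 4810, cl (-74)) := by
  rw [e0_quad.cl_T.2]
  refine Prod.ext ?_ ?_
  · exact cl_same 4810 (by norm_num) (by norm_num) (by norm_num)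
  · exact cl_same 1480 (by norm_num) (by norm_num) (by norm_num)

/-- The classes of every point are classes of combinations of the known points. -/
private theorem e0_span (P : (cc (13 * 370) (13 * 450)).toAffine.Point) :
    ∃ (n : Fin 4 → ℕ) (t₀ t₁ : ℕ), dHom2 e0_quad.rts P =
      ∑ i, n i • dHom2 e0_quad.rts (e0_quad.pt i) + t₀ • dHom2 e0_quad.rts e0_quad.rts.T +
        t₁ • dHom2 e0_quad.rts e0_quad.rts.swap12.T := by
  rcases P with _ | ⟨x, y, hns⟩
  · refine ⟨0, 0, 0, ?_⟩
    simp only [Pi.zero_apply, zero_nsmul, add_zero, Finset.sum_const_zero]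
    rfl
  · have heq := (e0_quad.rts.nonsingular_iff x y).1 hns
    by_cases hx : x = 0
    · subst hx
      have hy : y = 0 := by
        have : y ^ 2 = 0 := by rw [heq]; ring
        exact pow_eq_zero_iff (two_ne_zero) |>.1 this
      subst hy
      refine ⟨0, 1, 0, ?_⟩
      simp only [Pi.zero_apply, zero_nsmul, add_zero, Finset.sum_const_zero, zero_add, one_nsmul]
      rfl
    · by_cases hx' : x = 13 * 370
      · subst hx'
        have hy : y = 0 := by
          have : y ^ 2 = 0 := by rw [heq]; ring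
          exact pow_eq_zero_iff (two_ne_zero) |>.1 this
        subst hy
        refine ⟨0, 0, 1, ?_⟩
        simp only [Pi.zero_apply, zero_nsmul, add_zero, Finset.sum_const_zero, zero_add, one_nsmul]
        rfl
      · have hx4 : x ≠ 4810 := by
          intro h
          apply hx'
          rw [h]
          norm_num
        obtain ⟨n₁, n₂, n₃, n₄, t₀, t₁, h1, h2⟩ := e0_classes x y
          (by rw [heq]; ring) hx hx4
        refine ⟨![n₁, n₂, n₃, n₄], t₀, t₁, ?_⟩
        simp only [Fin.sum_univ_four, e0_phi0, e0_phi1, e0_phi2, e0_phi3, e0_phiT0, e0_phiT1,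
          Matrix.cons_val]
        have hd1 : dl 0 (13 * 370) (13 * 450)
            (Affine.Point.some x y hns : (cc (13 * 370) (13 * 450)).toAffine.Point) = cl x := by
          simp only [dl]
          rw [if_neg hx, sub_zero]
        have hd2 : dl (13 * 370) 0 (13 * 450)
            (Affine.Point.some x y hns : (cc (13 * 370) (13 * 450)).toAffine.Point) =
              cl (x - 4810) := by
          simp only [dl]
          rw [if_neg hx', show (13 : ℚ) * 370 = 4810 by norm_num]
        rw [dHom2_apply, hd1, hd2]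
        have e1 := cl_of_sq_mul hx (by positivity) h1
        have e2 := cl_of_sq_mul (sub_ne_zero.2 hx4) (by
          refine mul_ne_zero (mul_ne_zero (mul_ne_zero (mul_ne_zero (mul_ne_zero ?_ ?_) ?_) ?_) ?_)
            ?_ <;> exact pow_ne_zero _ (by norm_num)) h2
        rw [cl_prod6 (by norm_num) (by norm_num) (by norm_num) (by norm_num) (by norm_num)
          (by norm_num)] at e1 e2
        rw [e1, e2]
        rfl

/-- Two-descent: if the classes of all points are spanned by the classes of the points `pt i` and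
of the points of order two then the `pt i` generate a subgroup of finite exponent index. -/
theorem exists_mul_mem_of_classes {K : Type} [Field K] [DecidableEq K] [NeZero (2 : K)] {W : WeierstrassCurve K}
    {e₁ e₂ e₃ : K} (h : Rts W e₁ e₂ e₃) (hfg : AddGroup.FG W.toAffine.Point) {r : ℕ}
    (pt : Fin r → W.toAffine.Point)
    (hspan : ∀ P : W.toAffine.Point, ∃ (n : Fin r → ℕ) (t₀ t₁ : ℕ),
      dHom2 h P = ∑ i, n i • dHom2 h (pt i) + t₀ • dHom2 h h.T + t₁ • dHom2 h h.swap12.T) :
    ∃ M : ℕ, 0 < M ∧ ∀ P : W.toAffine.Point, M • P ∈ AddSubgroup.closure (Set.range pt) := by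
  set C := AddSubgroup.closure (Set.range pt) with hC
  have hpt : ∀ i, pt i ∈ C := fun i => AddSubgroup.subset_closure ⟨i, rfl⟩
  set H : AddSubgroup W.toAffine.Point := C.comap (nsmulAddMonoidHom 2) with hH
  have hCH : ∀ x ∈ C, x ∈ H := fun x hx => C.nsmul_mem hx 2
  have hT : ∀ x : W.toAffine.Point, x + x = 0 → x ∈ H := by
    intro x hx
    change 2 • x ∈ C
    rw [two_nsmul, hx]
    exact C.zero_mem
  have hT0 : h.T ∈ H := hT _ (T_add_T h)
  have hT1 : h.swap12.T ∈ H := hT _ (T_add_T h.swap12)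
  obtain ⟨M, hM, hMem⟩ := exists_mul_mem H (by
    intro P
    obtain ⟨n, t₀, t₁, hP⟩ := hspan P
    set a := ∑ i, n i • pt i + t₀ • h.T + t₁ • h.swap12.T with ha
    have haH : a ∈ H := by
      refine H.add_mem (H.add_mem (H.sum_mem fun i _ => ?_) ?_) ?_
      · exact H.nsmul_mem (hCH _ (hpt i)) _
      · exact H.nsmul_mem hT0 _
      · exact H.nsmul_mem hT1 _
    have h0 : dHom2 h (P - a) = 0 := by
      rw [map_sub, hP, ha, map_add, map_add, map_sum, map_nsmul, map_nsmul]
      simp only [map_nsmul, sub_self]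
    rw [dHom2_apply] at h0
    obtain ⟨h1, h2⟩ := Prod.mk_eq_zero.1 h0
    obtain ⟨Q, hQ⟩ := exists_half h (P - a) h1 h2
    refine ⟨a, haH, Q, ?_⟩
    rw [← hQ]
    abel)
  refine ⟨M * 2, by positivity, fun P => ?_⟩
  have := hMem P
  change 2 • (M • P) ∈ C at this
  rw [← mul_nsmul] at this
  exact this

theorem e0_mul_mem : ∃ M : ℕ, 0 < M ∧ ∀ P : (cc (13 * 370) (13 * 450)).toAffine.Point,
    M • P ∈ AddSubgroup.closure (Set.range e0_quad.pt) := by
  exact exists_mul_mem_of_classes e0_quad.rts (fg e0_quad.rts) e0_quad.pt e0_span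

end Pool.Agent.ZCQ
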