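import Mathlib

/-!
# The square classes of the rational points of `y² = x (x - 1690) (x + 3120)`
-/

set_option autoImplicit false

namespace Pool.Agent.ZCQ


/-- The possible pairs of square classes. -/
private def Conds (dA dB : ℤ) : Prop :=
  (if (3 : ℤ) ∣ dA then dB % 3 = 2 else dB % 3 = 1) ∧
  (∃ z ∈ Finset.range 37, (37 : ℤ) ∣ dA - (z : ℤ) ^ 2) ∧
  ((dA % 5 = 1 ∨ dA % 5 = 4) ∧ (dB % 5 = 1 ∨ dB % 5 = 4) ∨
   (¬ (5 : ℤ) ∣ dA ∧ (dA % 5 = 2 ∨ dA % 5 = 3)) ∧ ((5 : ℤ) ∣ dB ∧ (dB / 5 % 5 = 2 ∨ dB / 5 % 5 = 3)) ∨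
   ((5 : ℤ) ∣ dA ∧ (dA / 5 % 5 = 2 ∨ dA / 5 % 5 = 3)) ∧ (dB % 5 = 1 ∨ dB % 5 = 4) ∨
   ((5 : ℤ) ∣ dA ∧ (dA / 5 % 5 = 1 ∨ dA / 5 % 5 = 4)) ∧
     ((5 : ℤ) ∣ dB ∧ (dB / 5 % 5 = 2 ∨ dB / 5 % 5 = 3)))

private instance (dA dB : ℤ) : Decidable (Conds dA dB) := by
  unfold Conds
  infer_instance

private def goodList : List (ℤ × ℤ) :=
  [(1, 1), (10, 481), ((-78), (-10)), ((-195), (-4810)), ((-10), (-74)), ((-1), (-26)),
      (195, 185), (78, 65), ((-3), (-10)), ((-30), (-4810)), (26, 1), (65, 481), (30, 185),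
      (3, 65), ((-65), (-74)), ((-26), (-26)), ((-30), (-10)), ((-3), (-4810)), (65, 1),
      (26, 481), (3, 185), (30, 65), ((-26), (-74)), ((-65), (-26)), (10, 1), (1, 481), ((-195),
      (-10)), ((-78), (-4810)), ((-1), (-74)), ((-10), (-26)), (78, 185), (195, 65)]

private theorem table_pos : ∀ a ∈ Nat.divisors 390, ∀ b ∈ Nat.divisors 4810,
    Conds (a : ℤ) (b : ℤ) → ((a : ℤ), (b : ℤ)) ∈ goodList := by
  decide +kernel

private theorem table_neg : ∀ a ∈ Nat.divisors 390, ∀ b ∈ Nat.divisors 4810,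
    Conds (-(a : ℤ)) (-(b : ℤ)) → (-(a : ℤ), -(b : ℤ)) ∈ goodList := by
  decide +kernel

private theorem roots (dA dB : ℤ) (h : (dA, dB) ∈ goodList) :
    ∃ n₁ n₂ n₃ t₀ t₁ : ℕ, ∃ wA wB : ℤ,
      dA * ((-30) ^ n₁ * (-3) ^ n₂ * (-10) ^ n₃ * (-78) ^ t₀ * 10 ^ t₁) = wA ^ 2 ∧
      dB * ((-10) ^ n₁ * (-10) ^ n₂ * (-74) ^ n₃ * (-10) ^ t₀ * 481 ^ t₁) = wB ^ 2 := by
  simp only [goodList, List.mem_cons, List.not_mem_nil, or_false, Prod.mk.injEq] at h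
  rcases h with ⟨rfl, rfl⟩ | ⟨rfl, rfl⟩ | ⟨rfl, rfl⟩ | ⟨rfl, rfl⟩ | ⟨rfl, rfl⟩ | ⟨rfl, rfl⟩ | ⟨rfl, rfl⟩ | ⟨rfl, rfl⟩ |
    ⟨rfl, rfl⟩ | ⟨rfl, rfl⟩ | ⟨rfl, rfl⟩ | ⟨rfl, rfl⟩ | ⟨rfl, rfl⟩ | ⟨rfl, rfl⟩ | ⟨rfl, rfl⟩ | ⟨rfl, rfl⟩ |
    ⟨rfl, rfl⟩ | ⟨rfl, rfl⟩ | ⟨rfl, rfl⟩ | ⟨rfl, rfl⟩ | ⟨rfl, rfl⟩ | ⟨rfl, rfl⟩ | ⟨rfl, rfl⟩ | ⟨rfl, rfl⟩ |
    ⟨rfl, rfl⟩ | ⟨rfl, rfl⟩ | ⟨rfl, rfl⟩ | ⟨rfl, rfl⟩ | ⟨rfl, rfl⟩ | ⟨rfl, rfl⟩ | ⟨rfl, rfl⟩ | ⟨rfl, rfl⟩
  · exact ⟨0, 0, 0, 0, 0, 1, 1, by norm_num, by norm_num⟩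
  · exact ⟨0, 0, 0, 0, 1, 10, 481, by norm_num, by norm_num⟩
  · exact ⟨0, 0, 0, 1, 0, 78, 10, by norm_num, by norm_num⟩
  · exact ⟨0, 0, 0, 1, 1, 390, 4810, by norm_num, by norm_num⟩
  · exact ⟨0, 0, 1, 0, 0, 10, 74, by norm_num, by norm_num⟩
  · exact ⟨0, 0, 1, 0, 1, 10, 962, by norm_num, by norm_num⟩
  · exact ⟨0, 0, 1, 1, 0, 390, 370, by norm_num, by norm_num⟩
  · exact ⟨0, 0, 1, 1, 1, 780, 4810, by norm_num, by norm_num⟩
  · exact ⟨0, 1, 0, 0, 0, 3, 10, by norm_num, by norm_num⟩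
  · exact ⟨0, 1, 0, 0, 1, 30, 4810, by norm_num, by norm_num⟩
  · exact ⟨0, 1, 0, 1, 0, 78, 10, by norm_num, by norm_num⟩
  · exact ⟨0, 1, 0, 1, 1, 390, 4810, by norm_num, by norm_num⟩
  · exact ⟨0, 1, 1, 0, 0, 30, 370, by norm_num, by norm_num⟩
  · exact ⟨0, 1, 1, 0, 1, 30, 4810, by norm_num, by norm_num⟩
  · exact ⟨0, 1, 1, 1, 0, 390, 740, by norm_num, by norm_num⟩
  · exact ⟨0, 1, 1, 1, 1, 780, 9620, by norm_num, by norm_num⟩
  · exact ⟨1, 0, 0, 0, 0, 30, 10, by norm_num, by norm_num⟩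
  · exact ⟨1, 0, 0, 0, 1, 30, 4810, by norm_num, by norm_num⟩
  · exact ⟨1, 0, 0, 1, 0, 390, 10, by norm_num, by norm_num⟩
  · exact ⟨1, 0, 0, 1, 1, 780, 4810, by norm_num, by norm_num⟩
  · exact ⟨1, 0, 1, 0, 0, 30, 370, by norm_num, by norm_num⟩
  · exact ⟨1, 0, 1, 0, 1, 300, 4810, by norm_num, by norm_num⟩
  · exact ⟨1, 0, 1, 1, 0, 780, 740, by norm_num, by norm_num⟩
  · exact ⟨1, 0, 1, 1, 1, 3900, 9620, by norm_num, by norm_num⟩
  · exact ⟨1, 1, 0, 0, 0, 30, 10, by norm_num, by norm_num⟩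
  · exact ⟨1, 1, 0, 0, 1, 30, 4810, by norm_num, by norm_num⟩
  · exact ⟨1, 1, 0, 1, 0, 1170, 100, by norm_num, by norm_num⟩
  · exact ⟨1, 1, 0, 1, 1, 2340, 48100, by norm_num, by norm_num⟩
  · exact ⟨1, 1, 1, 0, 0, 30, 740, by norm_num, by norm_num⟩
  · exact ⟨1, 1, 1, 0, 1, 300, 9620, by norm_num, by norm_num⟩
  · exact ⟨1, 1, 1, 1, 0, 2340, 3700, by norm_num, by norm_num⟩
  · exact ⟨1, 1, 1, 1, 1, 11700, 48100, by norm_num, by norm_num⟩

/-! ### Arithmetic lemmas -/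

private theorem sqf_decomp (A : ℤ) (hA : A ≠ 0) :
    ∃ d t : ℤ, A = d * t ^ 2 ∧ Squarefree d ∧ t ≠ 0 := by
  obtain ⟨a, b, hab, hsq⟩ := Nat.sq_mul_squarefree A.natAbs
  have hb : (b : ℤ) ≠ 0 := by
    rintro h
    have : b = 0 := by exact_mod_cast h
    rw [this] at hab
    apply hA
    rw [← Int.natAbs_eq_zero, ← hab]
    ring
  rcases Int.natAbs_eq A with h | h
  · refine ⟨a, b, ?_, ?_, hb⟩
    · rw [h, ← hab]; push_cast; ring
    · rw [← Int.squarefree_natAbs, Int.natAbs_natCast]; exact hsq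
  · refine ⟨-a, b, ?_, ?_, hb⟩
    · rw [h, ← hab]; push_cast; ring
    · rw [← Int.squarefree_natAbs, Int.natAbs_neg, Int.natAbs_natCast]; exact hsq

private theorem root_int (d t M b : ℤ) (ht : t ≠ 0) (h : d * t ^ 2 * M = b ^ 2) :
    ∃ r, d * M = r ^ 2 := by
  have h1 : t ^ 2 ∣ b ^ 2 := ⟨d * M, by rw [← h]; ring⟩
  obtain ⟨r, hr⟩ := (Int.pow_dvd_pow_iff (by norm_num)).1 h1
  refine ⟨r, ?_⟩
  have h2 : t ^ 2 ≠ 0 := pow_ne_zero 2 ht
  apply mul_left_cancel₀ h2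
  rw [hr] at h
  linear_combination h

private theorem natAbs_dvd_of (s m : ℤ) (hs : Squarefree s) (hm : m ≠ 0)
    (h : ∀ p : ℕ, p.Prime → (p : ℤ) ∣ s → (p : ℤ) ∣ m) : s.natAbs ∣ m.natAbs := by
  have hs' : Squarefree s.natAbs := Int.squarefree_natAbs.2 hs
  rw [← Nat.prod_primeFactors_of_squarefree hs']
  refine dvd_trans (Finset.prod_dvd_prod_of_subset _ (Nat.primeFactors m.natAbs) _ ?_)
    (Nat.prod_primeFactors_dvd _)
  intro p hp
  rw [Nat.mem_primeFactors] at hp ⊢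
  refine ⟨hp.1, ?_, by simpa using hm⟩
  exact Int.natCast_dvd.1 (h p hp.1 (Int.natCast_dvd.2 hp.2.1))

/-- Primes dividing the squarefree part. -/
private theorem prime_dvd (A e M d t r : ℤ) (p : ℕ) (hp : p.Prime) (hcop : IsCoprime A e)
    (hA : A = d * t ^ 2) (hd : Squarefree d) (hr : d * M = r ^ 2) (hpd : (p : ℤ) ∣ d) :
    (p : ℤ) ∣ M ∧ ¬ (p : ℤ) ∣ e := by
  have hp' : Prime (p : ℤ) := Nat.prime_iff_prime_int.1 hp
  refine ⟨?_, ?_⟩
  · by_contra hM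
    have h1 : (p : ℤ) ∣ r ^ 2 := by rw [← hr]; exact Dvd.dvd.mul_right hpd M
    have h2 : (p : ℤ) ∣ r := hp'.dvd_of_dvd_pow h1
    have h3 : (p : ℤ) ^ 2 ∣ d * M := by rw [hr]; exact pow_dvd_pow_of_dvd h2 2
    have h4 : (p : ℤ) ^ 2 ∣ d := hp'.pow_dvd_of_dvd_mul_right 2 hM h3
    have h5 := hd p (by rw [← sq]; exact h4)
    exact hp'.not_isUnit h5
  · intro he
    have h1 : (p : ℤ) ∣ A := by rw [hA]; exact Dvd.dvd.mul_right hpd _
    exact hp'.not_isUnit (hcop.isUnit_of_dvd' h1 he)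

private theorem emod_of_zmod37 (d : ℤ) (h : IsSquare (d : ZMod 37)) :
    ∃ z ∈ Finset.range 37, (37 : ℤ) ∣ d - (z : ℤ) ^ 2 := by
  obtain ⟨r, hr⟩ := h
  refine ⟨r.val, Finset.mem_range.2 (ZMod.val_lt r), ?_⟩
  have h1 : ((d - ((r.val : ℕ) : ℤ) ^ 2 : ℤ) : ZMod 37) = 0 := by
    push_cast
    rw [ZMod.natCast_zmod_val, hr]
    ring
  exact_mod_cast (ZMod.intCast_zmod_eq_zero_iff_dvd _ 37).1 h1

private theorem z37a : (4810 : ZMod 37) = 0 := by decide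

private theorem z37b : (1690 : ZMod 37) = 25 := by decide

private theorem z37c : (5 : ZMod 37) ≠ 0 := by decide

private theorem res_cond37 (A B e dA t r : ℤ) (hcop : IsCoprime A e) (hB : B = A - 1690 * e ^ 2)
    (hA : A = dA * t ^ 2) (hr : dA * (B * (A + 3120 * e ^ 2)) = r ^ 2) :
    ∃ z ∈ Finset.range 37, (37 : ℤ) ∣ dA - (z : ℤ) ^ 2 := by
  have : Fact (Nat.Prime 37) := ⟨by norm_num⟩
  apply emod_of_zmod37
  have h1 := congrArg (Int.cast : ℤ → ZMod 37) hB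
  have h2 := congrArg (Int.cast : ℤ → ZMod 37) hA
  have h3 := congrArg (Int.cast : ℤ → ZMod 37) hr
  push_cast at h1 h2 h3
  have e1 := z37a
  have e2 := z37b
  by_cases hb : (B : ZMod 37) = 0
  · -- `A = (5 e)²`
    have h4 : (A : ZMod 37) = (5 * (e : ZMod 37)) ^ 2 := by
      rw [hb] at h1
      linear_combination -h1 + (e : ZMod 37) ^ 2 * e2
    have he : (e : ZMod 37) ≠ 0 := by
      intro he
      rw [he] at h4
      have h5 : (37 : ℤ) ∣ A := by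
        exact_mod_cast (ZMod.intCast_zmod_eq_zero_iff_dvd A 37).1 (by rw [h4]; ring)
      have h6 : (37 : ℤ) ∣ e := by
        exact_mod_cast (ZMod.intCast_zmod_eq_zero_iff_dvd e 37).1 he
      have h7 := hcop.isUnit_of_dvd' h5 h6
      exact absurd h7 (by rw [Int.isUnit_iff]; norm_num)
    have ht : (t : ZMod 37) ≠ 0 := by
      intro ht
      rw [ht, h4] at h2
      have h8 : (5 * (e : ZMod 37)) ^ 2 = 0 := by rw [h2]; ring
      have h9 := pow_eq_zero_iff (two_ne_zero) |>.1 h8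
      rcases mul_eq_zero.1 h9 with h | h
      · exact z37c h
      · exact he h
    refine ⟨5 * (e : ZMod 37) / t, ?_⟩
    field_simp
    rw [← h2, h4]
    ring
  · have h4 : ((A : ZMod 37) + 3120 * (e : ZMod 37) ^ 2) = B := by
      rw [h1]
      linear_combination (e : ZMod 37) ^ 2 * e1
    rw [h4] at h3
    refine ⟨(r : ZMod 37) / B, ?_⟩
    field_simp
    rw [← h3]
    ring

private theorem three_a : ∀ d a r : ZMod 3, a ≠ 0 → d ≠ 0 → d * a ^ 2 = r ^ 2 → d = 1 := by decide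

private theorem three_b : ∀ d t e : ZMod 3, e ≠ 0 → d * t ^ 2 = -e ^ 2 → d = 2 := by decide

private theorem cast_ne {p : ℕ} (z : ℤ) (h : ¬ (p : ℤ) ∣ z) : (z : ZMod p) ≠ 0 := fun h1 =>
  h ((ZMod.intCast_zmod_eq_zero_iff_dvd z p).1 h1)

private theorem emod_of_cast {p : ℕ} (z w : ℤ) (h : (z : ZMod p) = (w : ZMod p)) :
    z % p = w % p :=
  (ZMod.intCast_eq_intCast_iff z w p).1 h

private theorem res_cond3 (A B C e dA dB tA tB rB rC : ℤ) (hcop : IsCoprime A e)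
    (hB : B = A - 1690 * e ^ 2) (hC : C = A + 3120 * e ^ 2)
    (hA : A = dA * tA ^ 2) (hBd : B = dB * tB ^ 2)
    (hrB : dB * (A * C) = rB ^ 2) (hrC : dA * dB * C = rC ^ 2) (h3 : ¬ (3 : ℤ) ∣ dB) :
    if (3 : ℤ) ∣ dA then dB % 3 = 2 else dB % 3 = 1 := by
  have hp3 : Prime (3 : ℤ) := Int.prime_three
  by_cases h3A : (3 : ℤ) ∣ A
  · have h3e : ¬ (3 : ℤ) ∣ e := fun he => hp3.not_isUnit (hcop.isUnit_of_dvd' h3A he)
    have hd2 : dB % 3 = 2 := by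
      have h1 := congrArg (Int.cast : ℤ → ZMod 3) hB
      rw [hBd] at h1
      push_cast at h1
      have h2 : (A : ZMod 3) = 0 := (ZMod.intCast_zmod_eq_zero_iff_dvd A 3).2 (by exact_mod_cast h3A)
      have h4 : (1690 : ZMod 3) = 1 := by decide
      rw [h2, h4, zero_sub, one_mul] at h1
      have h5 := three_b _ _ _ (cast_ne (p := 3) e (by exact_mod_cast h3e)) h1
      have h6 := emod_of_cast (p := 3) dB 2 (by rw [h5]; rfl)
      simpa using h6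
    have h3dA : (3 : ℤ) ∣ dA := by
      by_contra hn
      have h4 : (3 : ℤ) ∣ tA := by
        rw [hA] at h3A
        rcases hp3.dvd_or_dvd h3A with h | h
        · exact absurd h hn
        · exact hp3.dvd_of_dvd_pow h
      have h5 : (3 : ℤ) ^ 2 ∣ A := by
        rw [hA]
        exact Dvd.dvd.mul_left (pow_dvd_pow_of_dvd h4 2) dA
      have h6 : (3 : ℤ) ∣ C := by
        rw [hC]
        exact dvd_add h3A ⟨1040 * e ^ 2, by ring⟩
      have h7 : (3 : ℤ) ∣ rC := by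
        apply hp3.dvd_of_dvd_pow (n := 2)
        rw [← hrC]
        exact Dvd.dvd.mul_left h6 _
      have h8 : (3 : ℤ) ^ 2 ∣ (dA * dB) * C := by
        rw [hrC]
        exact pow_dvd_pow_of_dvd h7 2
      have h9 : ¬ (3 : ℤ) ∣ dA * dB := fun h => by
        rcases hp3.dvd_or_dvd h with h | h
        · exact hn h
        · exact h3 h
      have h10 : (3 : ℤ) ^ 2 ∣ C := hp3.pow_dvd_of_dvd_mul_left 2 h9 h8
      have h11 : (3 : ℤ) ∣ e ^ 2 := by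
        rw [hC] at h10
        obtain ⟨k, hk⟩ := h5
        obtain ⟨m, hm⟩ := h10
        refine ⟨e ^ 2 - (m - k - 346 * e ^ 2), ?_⟩
        linarith
      exact h3e (hp3.dvd_of_dvd_pow h11)
    rw [if_pos h3dA]
    exact hd2
  · have hn : ¬ (3 : ℤ) ∣ dA := fun h => h3A (by rw [hA]; exact Dvd.dvd.mul_right h _)
    rw [if_neg hn]
    have h1 := congrArg (Int.cast : ℤ → ZMod 3) hrB
    rw [hC] at h1
    push_cast at h1
    have h4 : (3120 : ZMod 3) = 0 := by decide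
    rw [h4, zero_mul, add_zero, ← sq] at h1
    have h5 := three_a _ _ _ (cast_ne (p := 3) A (by exact_mod_cast h3A))
      (cast_ne (p := 3) dB (by exact_mod_cast h3)) h1
    have h6 := emod_of_cast (p := 3) dB 1 (by rw [h5]; rfl)
    simpa using h6

private theorem five_a : ∀ d a r : ZMod 5, a ≠ 0 → d ≠ 0 → d * a ^ 2 = r ^ 2 → d = 1 ∨ d = 4 := by
  decide

private theorem five_b : ∀ d t e : ZMod 5, e ≠ 0 → d * t ^ 2 = 2 * e ^ 2 → d = 2 ∨ d = 3 := by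
  decide

private theorem five_c : ∀ d t e : ZMod 5, e ≠ 0 → d * t ^ 2 = 3 * e ^ 2 → d = 2 ∨ d = 3 := by
  decide

private theorem five_d : ∀ d t e : ZMod 5, e ≠ 0 → d * t ^ 2 = e ^ 2 → d = 1 ∨ d = 4 := by
  decide

private theorem five_e : ∀ d s e : ZMod 5, e ≠ 0 → d ≠ 0 → d * ((2 * e ^ 2) * (4 * e ^ 2)) = s ^ 2 →
    d = 2 ∨ d = 3 := by
  decide

private theorem five_f : ∀ d s e : ZMod 5, e ≠ 0 → d ≠ 0 → d * ((3 * e ^ 2) * (2 * e ^ 2)) = s ^ 2 →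
    d = 1 ∨ d = 4 := by
  decide

private theorem prime_five : Prime (5 : ℤ) := Nat.prime_iff_prime_int.1 (by norm_num : Nat.Prime 5)

private theorem pull5 (a d t : ℤ) (h : 5 * a = d * t ^ 2) (ha : ¬ (5 : ℤ) ∣ a) :
    ∃ d', d = 5 * d' ∧ a = d' * t ^ 2 := by
  have h1 : (5 : ℤ) ∣ d := by
    by_contra hd
    have h2 : (5 : ℤ) ∣ d * t ^ 2 := ⟨a, h.symm⟩
    rcases prime_five.dvd_or_dvd h2 with h3 | h3
    · exact hd h3
    · have h4 : (5 : ℤ) ^ 2 ∣ t ^ 2 := pow_dvd_pow_of_dvd (prime_five.dvd_of_dvd_pow h3) 2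
      obtain ⟨k, hk⟩ := h4
      apply ha
      refine ⟨d * k, ?_⟩
      rw [hk] at h
      linarith
  obtain ⟨d', hd'⟩ := h1
  refine ⟨d', hd', ?_⟩
  rw [hd'] at h
  linarith

private theorem sqf5 (d m s : ℤ) (hd : Squarefree d) (h : d * m = s ^ 2) (h5 : (5 : ℤ) ∣ d) :
    (5 : ℤ) ∣ m := by
  by_contra hm
  have h1 : (5 : ℤ) ∣ s := by
    apply prime_five.dvd_of_dvd_pow (n := 2)
    rw [← h]
    exact Dvd.dvd.mul_right h5 m
  have h2 : (5 : ℤ) ^ 2 ∣ d * m := by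
    rw [h]
    exact pow_dvd_pow_of_dvd h1 2
  have h3 := prime_five.pow_dvd_of_dvd_mul_right 2 hm h2
  exact prime_five.not_isUnit (hd 5 (by rw [← sq]; exact h3))

private theorem or_emod (d : ℤ) (u v : ℤ) (hu : u % 5 = u) (hv : v % 5 = v)
    (h : (d : ZMod 5) = (u : ZMod 5) ∨ (d : ZMod 5) = (v : ZMod 5)) : d % 5 = u ∨ d % 5 = v := by
  rcases h with h | h
  · left
    have := emod_of_cast (p := 5) d u h
    push_cast at this
    rw [this, hu]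
  · right
    have := emod_of_cast (p := 5) d v h
    push_cast at this
    rw [this, hv]

private theorem res_cond5 (A B C e dA dB tA tB rA rB : ℤ) (hcop : IsCoprime A e)
    (hB : B = A - 1690 * e ^ 2) (hC : C = A + 3120 * e ^ 2)
    (hA : A = dA * tA ^ 2) (hBd : B = dB * tB ^ 2) (hsA : Squarefree dA) (hsB : Squarefree dB)
    (hrA : dA * (B * C) = rA ^ 2) (hrB : dB * (A * C) = rB ^ 2) :
    ((dA % 5 = 1 ∨ dA % 5 = 4) ∧ (dB % 5 = 1 ∨ dB % 5 = 4) ∨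
   (¬ (5 : ℤ) ∣ dA ∧ (dA % 5 = 2 ∨ dA % 5 = 3)) ∧ ((5 : ℤ) ∣ dB ∧ (dB / 5 % 5 = 2 ∨ dB / 5 % 5 = 3)) ∨
   ((5 : ℤ) ∣ dA ∧ (dA / 5 % 5 = 2 ∨ dA / 5 % 5 = 3)) ∧ (dB % 5 = 1 ∨ dB % 5 = 4) ∨
   ((5 : ℤ) ∣ dA ∧ (dA / 5 % 5 = 1 ∨ dA / 5 % 5 = 4)) ∧
     ((5 : ℤ) ∣ dB ∧ (dB / 5 % 5 = 2 ∨ dB / 5 % 5 = 3))) := by
  by_cases h5A : (5 : ℤ) ∣ A
  · have h5e : ¬ (5 : ℤ) ∣ e := fun he => prime_five.not_isUnit (hcop.isUnit_of_dvd' h5A he)
    have he0 : (e : ZMod 5) ≠ 0 := cast_ne (p := 5) e (by exact_mod_cast h5e)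
    obtain ⟨a, ha⟩ := h5A
    obtain ⟨b, hb⟩ : ∃ b, b = a - 338 * e ^ 2 := ⟨_, rfl⟩
    obtain ⟨c, hc⟩ : ∃ c, c = a + 624 * e ^ 2 := ⟨_, rfl⟩
    have hB5 : B = 5 * b := by rw [hB, ha, hb]; ring
    have hC5 : C = 5 * c := by rw [hC, ha, hc]; ring
    have sq25 : ∀ d m r : ℤ, d * (5 * m) = r ^ 2 → (5 : ℤ) ∣ m → ∃ s, d * (m / 5) = s ^ 2 := by
      intro d m r h hm
      obtain ⟨k, hk⟩ := hm
      have h1 : (5 : ℤ) ∣ r := by
        apply prime_five.dvd_of_dvd_pow (n := 2)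
        rw [← h]
        exact ⟨d * m, by ring⟩
      obtain ⟨s, hs⟩ := h1
      refine ⟨s, ?_⟩
      rw [hk, Int.mul_ediv_cancel_left _ (by norm_num)]
      rw [hk, hs] at h
      nlinarith
    obtain ⟨sA, hsA'⟩ : ∃ s, dA * (b * c) = s ^ 2 := by
      obtain ⟨s, hs⟩ := sq25 dA (5 * (b * c)) rA (by rw [← hrA, hB5, hC5]; ring) ⟨b * c, rfl⟩
      rw [Int.mul_ediv_cancel_left _ (by norm_num)] at hs
      exact ⟨s, hs⟩
    obtain ⟨sB, hsB'⟩ : ∃ s, dB * (a * c) = s ^ 2 := by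
      obtain ⟨s, hs⟩ := sq25 dB (5 * (a * c)) rB (by rw [← hrB, ha, hC5]; ring) ⟨a * c, rfl⟩
      rw [Int.mul_ediv_cancel_left _ (by norm_num)] at hs
      exact ⟨s, hs⟩
    have hA5 : 5 * a = dA * tA ^ 2 := by rw [← ha, ← hA]
    have hBt : 5 * b = dB * tB ^ 2 := by rw [← hB5, ← hBd]
    have cb := congrArg (Int.cast : ℤ → ZMod 5) hb
    have cc := congrArg (Int.cast : ℤ → ZMod 5) hc
    push_cast at cb cc
    have n1 : (338 : ZMod 5) = 3 := by decide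
    have n2 : (624 : ZMod 5) = 4 := by decide
    have n3 : (5 : ZMod 5) = 0 := by decide
    rw [n1] at cb
    rw [n2] at cc
    have zero_cast : ∀ z : ℤ, (5 : ℤ) ∣ z → (z : ZMod 5) = 0 := fun z hz =>
      (ZMod.intCast_zmod_eq_zero_iff_dvd z 5).2 (by exact_mod_cast hz)
    have unit_cast : ∀ z : ℤ, (z : ZMod 5) ≠ 0 → ¬ (5 : ℤ) ∣ z := fun z hz h => hz (zero_cast z h)
    have e20 : (e : ZMod 5) ^ 2 ≠ 0 :=
      (by decide : ∀ x : ZMod 5, x ≠ 0 → x ^ 2 ≠ 0) _ he0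
    by_cases h5a : (5 : ℤ) ∣ a
    · -- `5 ∣ a`
      have ca := zero_cast a h5a
      have cb' : (b : ZMod 5) = 2 * (e : ZMod 5) ^ 2 := by
        rw [cb, ca]; linear_combination -(e : ZMod 5) ^ 2 * n3
      have cc' : (c : ZMod 5) = 4 * (e : ZMod 5) ^ 2 := by
        rw [cc, ca]; ring
      have hb5 : ¬ (5 : ℤ) ∣ b := by
        apply unit_cast
        rw [cb']
        exact (by decide : ∀ x : ZMod 5, x ≠ 0 → 2 * x ≠ 0) _ e20
      have hc5 : ¬ (5 : ℤ) ∣ c := by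
        apply unit_cast
        rw [cc']
        exact (by decide : ∀ x : ZMod 5, x ≠ 0 → 4 * x ≠ 0) _ e20
      obtain ⟨dB', hdB', hb'⟩ := pull5 b dB tB hBt hb5
      have hdA5 : ¬ (5 : ℤ) ∣ dA := fun h => by
        rcases prime_five.dvd_or_dvd (sqf5 dA (b * c) sA hsA hsA' h) with h | h
        · exact hb5 h
        · exact hc5 h
      right
      left
      refine ⟨⟨hdA5, ?_⟩, ⟨dB', hdB'⟩, ?_⟩
      · apply or_emod dA 2 3 rfl rfl
        have h1 := congrArg (Int.cast : ℤ → ZMod 5) hsA'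
        push_cast at h1 ⊢
        rw [cb', cc'] at h1
        exact five_e _ _ _ he0 (cast_ne (p := 5) dA (by exact_mod_cast hdA5)) h1
      · rw [hdB', Int.mul_ediv_cancel_left _ (by norm_num)]
        apply or_emod dB' 2 3 rfl rfl
        have h1 := congrArg (Int.cast : ℤ → ZMod 5) hb'
        push_cast at h1 ⊢
        rw [cb'] at h1
        exact five_b _ _ _ he0 h1.symm
    · obtain ⟨dA', hdA', ha'⟩ := pull5 a dA tA hA5 h5a
      have hbc := sqf5 dA (b * c) sA hsA hsA' ⟨dA', hdA'⟩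
      rcases prime_five.dvd_or_dvd hbc with h5b | h5c
      · -- `5 ∣ b`
        have cb0 := zero_cast b h5b
        rw [cb0] at cb
        have ca' : (a : ZMod 5) = 3 * (e : ZMod 5) ^ 2 := by
          linear_combination -cb
        have cc' : (c : ZMod 5) = 2 * (e : ZMod 5) ^ 2 := by
          rw [cc, ca']; linear_combination (e : ZMod 5) ^ 2 * n3
        have hc5 : ¬ (5 : ℤ) ∣ c := by
          apply unit_cast
          rw [cc']
          exact (by decide : ∀ x : ZMod 5, x ≠ 0 → 2 * x ≠ 0) _ e20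
        have hdB5 : ¬ (5 : ℤ) ∣ dB := fun h => by
          rcases prime_five.dvd_or_dvd (sqf5 dB (a * c) sB hsB hsB' h) with h | h
          · exact h5a h
          · exact hc5 h
        right
        right
        left
        refine ⟨⟨⟨dA', hdA'⟩, ?_⟩, ?_⟩
        · rw [hdA', Int.mul_ediv_cancel_left _ (by norm_num)]
          apply or_emod dA' 2 3 rfl rfl
          have h1 := congrArg (Int.cast : ℤ → ZMod 5) ha'
          push_cast at h1 ⊢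
          rw [ca'] at h1
          exact five_c _ _ _ he0 h1.symm
        · apply or_emod dB 1 4 rfl rfl
          have h1 := congrArg (Int.cast : ℤ → ZMod 5) hsB'
          push_cast at h1 ⊢
          rw [ca', cc'] at h1
          exact five_f _ _ _ he0 (cast_ne (p := 5) dB (by exact_mod_cast hdB5)) h1
      · -- `5 ∣ c`
        have cc0 := zero_cast c h5c
        rw [cc0] at cc
        have ca' : (a : ZMod 5) = (e : ZMod 5) ^ 2 := by
          linear_combination -cc - (e : ZMod 5) ^ 2 * n3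
        have cb' : (b : ZMod 5) = 3 * (e : ZMod 5) ^ 2 := by
          rw [cb, ca']; linear_combination -(e : ZMod 5) ^ 2 * n3
        have hb5 : ¬ (5 : ℤ) ∣ b := by
          apply unit_cast
          rw [cb']
          exact (by decide : ∀ x : ZMod 5, x ≠ 0 → 3 * x ≠ 0) _ e20
        obtain ⟨dB', hdB', hb'⟩ := pull5 b dB tB hBt hb5
        right
        right
        right
        refine ⟨⟨⟨dA', hdA'⟩, ?_⟩, ⟨dB', hdB'⟩, ?_⟩
        · rw [hdA', Int.mul_ediv_cancel_left _ (by norm_num)]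
          apply or_emod dA' 1 4 rfl rfl
          have h1 := congrArg (Int.cast : ℤ → ZMod 5) ha'
          push_cast at h1 ⊢
          rw [ca'] at h1
          exact five_d _ _ _ he0 h1.symm
        · rw [hdB', Int.mul_ediv_cancel_left _ (by norm_num)]
          apply or_emod dB' 2 3 rfl rfl
          have h1 := congrArg (Int.cast : ℤ → ZMod 5) hb'
          push_cast at h1 ⊢
          rw [cb'] at h1
          exact five_c _ _ _ he0 h1.symm
  · left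
    have hA0 := cast_ne (p := 5) A (by exact_mod_cast h5A)
    have n1 : (1690 : ZMod 5) = 0 := by decide
    have n2 : (3120 : ZMod 5) = 0 := by decide
    have cB := congrArg (Int.cast : ℤ → ZMod 5) hB
    have cC := congrArg (Int.cast : ℤ → ZMod 5) hC
    push_cast at cB cC
    rw [n1, zero_mul, sub_zero] at cB
    rw [n2, zero_mul, add_zero] at cC
    have hdA0 : (dA : ZMod 5) ≠ 0 := by
      intro h
      apply hA0
      rw [hA]
      push_cast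
      rw [h, zero_mul]
    have hdB0 : (dB : ZMod 5) ≠ 0 := by
      intro h
      apply hA0
      rw [← cB, hBd]
      push_cast
      rw [h, zero_mul]
    constructor
    · apply or_emod dA 1 4 rfl rfl
      have h1 := congrArg (Int.cast : ℤ → ZMod 5) hrA
      push_cast at h1 ⊢
      rw [cB, cC, ← sq] at h1
      exact five_a _ _ _ hA0 hdA0 h1
    · apply or_emod dB 1 4 rfl rfl
      have h1 := congrArg (Int.cast : ℤ → ZMod 5) hrB
      push_cast at h1 ⊢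
      rw [cC, ← sq] at h1
      exact five_a _ _ _ hA0 hdB0 h1

private theorem descent_int (A B C e b : ℤ) (he : e ≠ 0) (hcop : IsCoprime A e)
    (hB : B = A - 1690 * e ^ 2) (hC : C = A + 3120 * e ^ 2) (hA0 : A ≠ 0) (hB0 : B ≠ 0)
    (h : A * B * C = b ^ 2) :
    ∃ n₁ n₂ n₃ t₀ t₁ : ℕ, ∃ wA wB : ℤ,
      A * ((-30) ^ n₁ * (-3) ^ n₂ * (-10) ^ n₃ * (-78) ^ t₀ * 10 ^ t₁) = wA ^ 2 ∧
      B * ((-10) ^ n₁ * (-10) ^ n₂ * (-74) ^ n₃ * (-10) ^ t₀ * 481 ^ t₁) = wB ^ 2 := by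
  have he2 : 0 < e ^ 2 := by positivity
  obtain ⟨dA, tA, hA, hsA, htA⟩ := sqf_decomp A hA0
  obtain ⟨dB, tB, hBd, hsB, htB⟩ := sqf_decomp B hB0
  obtain ⟨rA, hrA⟩ := root_int dA tA (B * C) b htA (by rw [← hA, ← h]; ring)
  obtain ⟨rB, hrB⟩ := root_int dB tB (A * C) b htB (by rw [← hBd, ← h]; ring)
  obtain ⟨rC, hrC⟩ := root_int (dA * dB) (tA * tB) C b (mul_ne_zero htA htB) (by
    have h1 : dA * tA ^ 2 * (dB * tB ^ 2) * C = b ^ 2 := by rw [← hA, ← hBd]; exact h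
    rw [← h1]
    ring)
  have hcopB : IsCoprime B e := by
    rw [hB]
    have h1 : A - 1690 * e ^ 2 = A + (-1690 * e) * e := by ring
    rw [h1]
    exact IsCoprime.add_mul_right_left hcop _
  have hdA : dA.natAbs ∣ 390 := by
    refine natAbs_dvd_of dA 390 hsA (by norm_num) ?_
    intro p hp hpd
    have hp' : Prime (p : ℤ) := Nat.prime_iff_prime_int.1 hp
    obtain ⟨h1, h2⟩ := prime_dvd A e (B * C) dA tA rA p hp hcop hA hsA hrA hpd
    have h3 : (p : ℤ) ∣ A := by rw [hA]; exact Dvd.dvd.mul_right hpd _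
    have h4 : ¬ (p : ℤ) ∣ e ^ 2 := fun h => h2 (hp'.dvd_of_dvd_pow h)
    rcases hp'.dvd_or_dvd h1 with h5 | h5
    · have h6 : (p : ℤ) ∣ 1690 * e ^ 2 := by
        have h7 := dvd_sub h3 h5
        rw [hB] at h7
        have h8 : A - (A - 1690 * e ^ 2) = 1690 * e ^ 2 := by ring
        rwa [h8] at h7
      have h7 : (p : ℤ) ∣ 1690 := (hp'.dvd_or_dvd h6).resolve_right h4
      exact hp'.dvd_of_dvd_pow (n := 2) (dvd_trans h7 ⟨90, by norm_num⟩)
    · have h6 : (p : ℤ) ∣ 3120 * e ^ 2 := by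
        have h7 := dvd_sub h5 h3
        rw [hC] at h7
        have h8 : A + 3120 * e ^ 2 - A = 3120 * e ^ 2 := by ring
        rwa [h8] at h7
      have h7 : (p : ℤ) ∣ 3120 := (hp'.dvd_or_dvd h6).resolve_right h4
      exact hp'.dvd_of_dvd_pow (n := 4) (dvd_trans h7 ⟨7414875, by norm_num⟩)
  have hdB : dB.natAbs ∣ 4810 := by
    refine natAbs_dvd_of dB 4810 hsB (by norm_num) ?_
    intro p hp hpd
    have hp' : Prime (p : ℤ) := Nat.prime_iff_prime_int.1 hp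
    obtain ⟨h1, h2⟩ := prime_dvd B e (A * C) dB tB rB p hp hcopB hBd hsB hrB hpd
    have h3 : (p : ℤ) ∣ B := by rw [hBd]; exact Dvd.dvd.mul_right hpd _
    have h4 : ¬ (p : ℤ) ∣ e ^ 2 := fun h => h2 (hp'.dvd_of_dvd_pow h)
    rcases hp'.dvd_or_dvd h1 with h5 | h5
    · have h6 : (p : ℤ) ∣ 1690 * e ^ 2 := by
        have h7 := dvd_sub h5 h3
        rw [hB] at h7
        have h8 : A - (A - 1690 * e ^ 2) = 1690 * e ^ 2 := by ring
        rwa [h8] at h7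
      have h7 : (p : ℤ) ∣ 1690 := (hp'.dvd_or_dvd h6).resolve_right h4
      exact hp'.dvd_of_dvd_pow (n := 2) (dvd_trans h7 ⟨13690, by norm_num⟩)
    · have h6 : (p : ℤ) ∣ 4810 * e ^ 2 := by
        have h7 := dvd_sub h5 h3
        rw [hC, hB] at h7
        have h8 : A + 3120 * e ^ 2 - (A - 1690 * e ^ 2) = 4810 * e ^ 2 := by ring
        rwa [h8] at h7
      exact (hp'.dvd_or_dvd h6).resolve_right h4
  have h3dB : ¬ (3 : ℤ) ∣ dB := by
    intro h3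
    have h4 : 3 ∣ dB.natAbs := by exact_mod_cast Int.natCast_dvd.1 (by exact_mod_cast h3)
    have h5 := dvd_trans h4 hdB
    norm_num at h5
  have hAB : 0 < A * B := by
    by_contra hn
    have h1 : A * B < 0 := lt_of_le_of_ne (not_lt.1 hn) (mul_ne_zero hA0 hB0)
    have h2 : C ≤ 0 := by
      by_contra hc
      have h3 : A * B * C < 0 := mul_neg_of_neg_of_pos h1 (not_le.1 hc)
      rw [h] at h3
      exact absurd h3 (not_lt.2 (sq_nonneg b))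
    have h3 : A < 0 := by rw [hC] at h2; linarith
    have h4 : B < 0 := by rw [hB]; linarith
    exact absurd h1 (not_lt.2 (mul_pos_of_neg_of_neg h3 h4).le)
  have hdAB : 0 < dA * dB := by
    have h1 : A * B = dA * dB * (tA * tB) ^ 2 := by
      have h2 : dA * tA ^ 2 * (dB * tB ^ 2) = A * B := by rw [← hA, ← hBd]
      rw [← h2]
      ring
    rw [h1] at hAB
    exact pos_of_mul_pos_left hAB (sq_nonneg _)
  have hcond : Conds dA dB :=
    ⟨res_cond3 A B C e dA dB tA tB rB rC hcop hB hC hA hBd hrB hrC h3dB,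
      res_cond37 A B e dA tA rA hcop hB hA (by rw [← hC]; exact hrA),
      res_cond5 A B C e dA dB tA tB rA rB hcop hB hC hA hBd hsA hsB hrA hrB⟩
  have hdA0 : dA ≠ 0 := hsA.ne_zero
  have hmem : (dA, dB) ∈ goodList := by
    rcases lt_or_gt_of_ne hdA0 with hneg | hpos
    · have hBneg : dB < 0 := by
        by_contra hc
        exact absurd hdAB (not_lt.2 (mul_nonpos_of_nonpos_of_nonneg hneg.le (not_lt.1 hc)))
      have e1 : dA = -(dA.natAbs : ℤ) := by omega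
      have e2 : dB = -(dB.natAbs : ℤ) := by omega
      have h1 := table_neg dA.natAbs (Nat.mem_divisors.2 ⟨hdA, by norm_num⟩) dB.natAbs
        (Nat.mem_divisors.2 ⟨hdB, by norm_num⟩) (by rw [← e1, ← e2]; exact hcond)
      rwa [← e1, ← e2] at h1
    · have hBpos : 0 < dB := by
        by_contra hc
        exact absurd hdAB (not_lt.2 (mul_nonpos_of_nonneg_of_nonpos hpos.le (not_lt.1 hc)))
      have e1 : dA = (dA.natAbs : ℤ) := by omega
      have e2 : dB = (dB.natAbs : ℤ) := by omega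
      have h1 := table_pos dA.natAbs (Nat.mem_divisors.2 ⟨hdA, by norm_num⟩) dB.natAbs
        (Nat.mem_divisors.2 ⟨hdB, by norm_num⟩) (by rw [← e1, ← e2]; exact hcond)
      rwa [← e1, ← e2] at h1
  obtain ⟨n₁, n₂, n₃, t₀, t₁, wA, wB, hwA, hwB⟩ := roots dA dB hmem
  refine ⟨n₁, n₂, n₃, t₀, t₁, wA * tA, wB * tB, ?_, ?_⟩
  · rw [hA, mul_pow, ← hwA]
    ring
  · rw [hBd, mul_pow, ← hwB]
    ring

/- PROOF. `A = x`, `B = x - 1690`, `C = x + 3120`, `A B C = y²`. The differences are `A - B = 1690 = 2 * 5 * 13²`,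
`C - A = 3120 = 2⁴ * 3 * 5 * 13`, `C - B = 4810 = 2 * 5 * 13 * 37`. (`x = -3120`, i.e. `C = 0`: the pair is
`(-3120, -4810)`, direct: `n₁ = 1, n₂ = 0, n₃ = 1, ...`; find the exponents from the list below. Let `C ≠ 0`.)
For a prime `p` and `z ≠ 0` write `z = p ^ v(z) z'`, `χ_p(z) = 0` if `z'` is a square mod `p`, else `1`.
(a) `A` and `B` have the same sign (`x < -3120` impossible; `0 < x < 1690` impossible).
(b) `p ≠ 2, 3, 5, 13, 37`: all valuations are even.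
(c) `p = 3`: `v(B)` is even and `χ₃(B) ≡ v₃(A)`. [`A = 3 a`, `C = 3 c`, `c - a = 1040 ≡ 2 mod 3`, `B ≡ -1690 ≡ 2 mod 3` if
`3 ∣ A`. All valuations `≤ 0`: they are equal and even or zero; `A ≡ C mod 3` so `B'` is a square. `3 ∣ B`:
`A ≡ 1690 ≡ 1`, `C ≡ 4810 ≡ 1`, `B'` is a square and `v(B)` even. `3 ∣ A`: then `v(A) + v(C)` is even and `min = 1`, both
odd, and `B ≡ 2`.]
(d) `p = 5`: `v(B) ≡ χ₅(B)`, `χ₅(A) ≡ v(A) + v(B)`. [All valuations `≤ 0`: equal and even, `A' ≡ B' ≡ C'`, all squares.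
Otherwise `A = 5 a`, `B = 5 b`, `C = 5 c`, `b = a - 338 ≡ a - 3`, `c = a + 624 ≡ a + 4 mod 5`, `v(a b c)` odd, so
exactly one of them is divisible by `5`. `5 ∣ a`: `b ≡ 2`, `c ≡ 4`, `a'` not a square: `(v, χ)` is `(0,1)` for `A`, `(1,1)`
for `B`. `5 ∣ b`: `a ≡ 3`, `c ≡ 2`: `A: (1,1)`, `B: (0,0)`. `5 ∣ c`: `a ≡ 1`, `b ≡ 3`: `A: (1,0)`, `B: (1,1)`.]
(e) `p = 37`: `v(A)` is even and `χ₃₇(A) = 0`. [All valuations `≤ 0`: `B ≡ C mod 37`, so `A'` is a square. `37 ∣ A`: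
`B ≡ -1690 ≡ 12`, `C ≡ 3120 ≡ 12 mod 37`, `v(A)` even and `A'` a square. `37 ∣ B` or `37 ∣ C`: both,
`A ≡ 1690 ≡ 25 = 5² mod 37`.]
So with `A = ± 2^i 3^j 5^k 13^l 37^m`, `B = ± 2^i' 3^j' 5^k' 13^l' 37^m'` mod squares, signs `s = s'`:
`j' = 0`, `m = 0`; `χ₃(B) = s + i' + k' = j` (`-1`, `2`, `5` are not squares mod `3`, `13`, `37` are);
`χ₅`: `2, 3, 13, 37` are not squares mod `5`, `-1` is: `i' + j' + l' + m' = k'`, `i + j + l + m = k + k'`;
`χ₃₇`: `2, 5, 13` are not squares, `-1, 3` are: `i + k + l = 0`. This is a group with `2 ^ 5` elements generated by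
`(-30, -10)`, `(-3, -10)`, `(-10, -74)`, `(-78, -10)`, `(10, 481)`. -/
theorem e1_classes (x y : ℚ) (hxy : y ^ 2 = x * (x - 1690) * (x + 3120)) (hx : x ≠ 0)
    (hx' : x ≠ 1690) : ∃ n₁ n₂ n₃ t₀ t₁ : ℕ,
      IsSquare (x * ((-30) ^ n₁ * (-3) ^ n₂ * (-10) ^ n₃ * (-78) ^ t₀ * 10 ^ t₁)) ∧
      IsSquare ((x - 1690) * ((-10) ^ n₁ * (-10) ^ n₂ * (-74) ^ n₃ * (-10) ^ t₀ * 481 ^ t₁)) := by
  -- the denominator of `x` is a square
  have hd0 : (0 : ℤ) < (x.den : ℤ) := by exact_mod_cast x.den_pos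
  have hdQ : ((x.den : ℤ) : ℚ) ≠ 0 := by exact_mod_cast hd0.ne'
  have hyd0 : (0 : ℤ) < (y.den : ℤ) := by exact_mod_cast y.den_pos
  have hydQ : ((y.den : ℤ) : ℚ) ≠ 0 := by exact_mod_cast hyd0.ne'
  have hxq : x = (x.num : ℚ) / ((x.den : ℤ) : ℚ) := by
    rw [Int.cast_natCast]; exact (Rat.num_div_den x).symm
  have hyq : y = (y.num : ℚ) / ((y.den : ℤ) : ℚ) := by
    rw [Int.cast_natCast]; exact (Rat.num_div_den y).symm
  have hcop : IsCoprime x.num (x.den : ℤ) := by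
    rw [Int.isCoprime_iff_nat_coprime, Int.natAbs_natCast]
    exact x.reduced
  have hcopy : IsCoprime y.num (y.den : ℤ) := by
    rw [Int.isCoprime_iff_nat_coprime, Int.natAbs_natCast]
    exact y.reduced
  obtain ⟨n, hn⟩ : ∃ n, n = x.num := ⟨_, rfl⟩
  obtain ⟨d, hd⟩ : ∃ d : ℤ, d = (x.den : ℤ) := ⟨_, rfl⟩
  obtain ⟨u, hu⟩ : ∃ u, u = y.num := ⟨_, rfl⟩
  obtain ⟨v, hv⟩ : ∃ v : ℤ, v = (y.den : ℤ) := ⟨_, rfl⟩
  rw [← hn, ← hd] at hxq hcop
  rw [← hu, ← hv] at hyq hcopy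
  rw [← hd] at hd0 hdQ
  rw [← hv] at hyd0 hydQ
  have hNd : IsCoprime (n * (n - 1690 * d) * (n + 3120 * d)) (d ^ 3) := by
    apply IsCoprime.pow_right
    refine IsCoprime.mul_left (IsCoprime.mul_left hcop ?_) ?_
    · have h1 : n - 1690 * d = n + (-1690) * d := by ring
      rw [h1]
      exact IsCoprime.add_mul_right_left hcop _
    · exact IsCoprime.add_mul_right_left hcop _
  have heq : ((u ^ 2 : ℤ) : ℚ) / ((v ^ 2 : ℤ) : ℚ) =
      ((n * (n - 1690 * d) * (n + 3120 * d) : ℤ) : ℚ) / ((d ^ 3 : ℤ) : ℚ) := by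
    have h1 := hxy
    rw [hxq, hyq] at h1
    push_cast
    rw [← div_pow, h1]
    field_simp
  obtain ⟨hnum, hden⟩ := Rat.div_int_inj (pow_pos hyd0 2) (pow_pos hd0 3)
    (Int.isCoprime_iff_nat_coprime.1 (IsCoprime.pow hcopy))
    (Int.isCoprime_iff_nat_coprime.1 hNd) heq
  obtain ⟨e, he⟩ : d ∣ v := by
    apply (Int.pow_dvd_pow_iff (two_ne_zero)).1
    rw [hden]
    exact ⟨d, by ring⟩
  have hde : d = e ^ 2 := by
    have h1 : d ^ 2 ≠ 0 := pow_ne_zero 2 hd0.ne'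
    apply mul_left_cancel₀ h1
    rw [he] at hden
    linear_combination -hden
  have he0 : e ≠ 0 := by
    rintro rfl
    rw [hde] at hd0
    norm_num at hd0
  have heQ : (e : ℚ) ≠ 0 := by exact_mod_cast he0
  have hcope : IsCoprime n e := by
    rw [hde] at hcop
    exact (IsCoprime.pow_right_iff (by norm_num : 0 < 2)).1 hcop
  have hn0 : n ≠ 0 := by
    rintro rfl
    apply hx
    rw [hxq]
    simp
  have hxe : x = (n : ℚ) / (e : ℚ) ^ 2 := by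
    rw [hxq, hde]
    push_cast
    rfl
  have hB0 : n - 1690 * e ^ 2 ≠ 0 := by
    intro h1
    apply hx'
    rw [hxe, div_eq_iff (pow_ne_zero 2 heQ)]
    have h2 : n = 1690 * e ^ 2 := by linarith
    rw [h2]
    push_cast
    ring
  obtain ⟨n₁, n₂, n₃, t₀, t₁, wA, wB, hwA, hwB⟩ := descent_int n (n - 1690 * e ^ 2)
    (n + 3120 * e ^ 2) e u he0 hcope rfl rfl hn0 hB0 (by rw [hnum, hde])
  refine ⟨n₁, n₂, n₃, t₀, t₁, ⟨(wA : ℚ) / e, ?_⟩, ⟨(wB : ℚ) / e, ?_⟩⟩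
  · have h1 := congrArg (Int.cast : ℤ → ℚ) hwA
    push_cast at h1
    rw [hxe]
    rw [div_mul_eq_mul_div, h1]
    ring
  · have h1 := congrArg (Int.cast : ℤ → ℚ) hwB
    push_cast at h1
    have h2 : x - 1690 = ((n : ℚ) - 1690 * (e : ℚ) ^ 2) / (e : ℚ) ^ 2 := by
      rw [hxe]
      field_simp
    rw [h2, div_mul_eq_mul_div, h1]
    ring

end Pool.Agent.ZCQ
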