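import Mathlib

/-!
# Descent in abelian groups
-/

set_option autoImplicit false

noncomputable section

namespace Pool.Agent.ZCQ

private lemma li_zsmul {V : Type} [AddCommGroup V] (hV : ∀ v : V, v + v = 0) (n : ℤ) (v : V) :
    n • v = (n % 2).toNat • v := by
  have h1 : ((n % 2).toNat : ℤ) = n % 2 := Int.toNat_of_nonneg (Int.emod_nonneg n (by norm_num))
  rw [← natCast_zsmul, h1]
  conv_lhs => rw [← Int.mul_ediv_add_emod n 2]
  rw [add_smul, mul_smul, two_smul, ← smul_add, hV, smul_zero, zero_add]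

private lemma li_nsmul {V : Type} [AddCommGroup V] (hV : ∀ v : V, v + v = 0) (n : ℕ) (v : V) :
    n • v = (n % 2) • v := by
  conv_lhs => rw [← Nat.div_add_mod n 2]
  rw [add_smul, mul_smul, two_smul, ← smul_add, hV, smul_zero, zero_add]

private lemma li_lt (n : ℤ) : (n % 2).toNat < 2 := by
  have h1 := Int.emod_lt_of_pos n (show (0 : ℤ) < 2 by norm_num)
  omega

private lemma li_even {n : ℤ} (h : (n % 2).toNat = 0) : n = 2 * (n / 2) := by
  have h1 := Int.emod_nonneg n (show (2 : ℤ) ≠ 0 by norm_num)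
  omega

/- PROOF. Suppose `∑ m i • P i = 0` with `m : Fin r → ℤ`, not all zero; choose a relation with minimal
`∑ |m i|` (or induct on `∑ |m i|`). Applying `φ` (and `n • v = (n % 2) • v`) all `m i` are even,
`m i = 2 m' i`; `x = ∑ m' i • P i` satisfies `x + x = 0`, so `x = a • T₀ + b • T₁`; applying `φ` again,
`a` and `b` are even (use `a % 2`, `b % 2`), so `x = 0`: a smaller relation. -/
theorem linInd_of_classes {A V : Type} [AddCommGroup A] [AddCommGroup V] (φ : A →+ V)
    (hV : ∀ v : V, v + v = 0) {r : ℕ} (P : Fin r → A) (T₀ T₁ : A) (hT₀ : T₀ + T₀ = 0)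
    (hT₁ : T₁ + T₁ = 0) (h2 : ∀ x : A, x + x = 0 → ∃ a b : ℕ, x = a • T₀ + b • T₁)
    (hind : ∀ (n : Fin r → ℕ) (a b : ℕ), (∀ i, n i < 2) → a < 2 → b < 2 →
      ∑ i, n i • φ (P i) + a • φ T₀ + b • φ T₁ = 0 → (∀ i, n i = 0) ∧ a = 0 ∧ b = 0) :
    LinearIndependent ℤ P := by
  rw [Fintype.linearIndependent_iff]
  suffices H : ∀ (N : ℕ) (g : Fin r → ℤ), ∑ i, (g i).natAbs = N → ∑ i, g i • P i = 0 →
      ∀ i, g i = 0 from fun g hg => H _ g rfl hg
  intro N
  induction N using Nat.strong_induction_on with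
  | _ N ih =>
  intro g hgN hg
  have hφ : ∀ g : Fin r → ℤ, φ (∑ i, g i • P i) = ∑ i, (g i % 2).toNat • φ (P i) := by
    intro g
    rw [map_sum]
    refine Finset.sum_congr rfl fun i _ => ?_
    rw [map_zsmul, li_zsmul hV]
  have h3 := hind (fun i => (g i % 2).toNat) 0 0 (fun i => li_lt _) (by norm_num) (by norm_num)
    (by rw [zero_smul, zero_smul, add_zero, add_zero, ← hφ, hg, map_zero])
  have h4 : ∀ i, g i = 2 * (g i / 2) := fun i => li_even (h3.1 i)
  set x : A := ∑ i, (g i / 2) • P i with hx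
  have h5 : x + x = 0 := by
    rw [hx, ← Finset.sum_add_distrib, ← hg]
    refine Finset.sum_congr rfl fun i _ => ?_
    rw [← add_smul, ← two_mul, ← h4]
  obtain ⟨a, b, hab⟩ := h2 x h5
  have h6 := hind (fun i => (g i / 2 % 2).toNat) (a % 2) (b % 2) (fun i => li_lt _)
    (Nat.mod_lt _ (by norm_num)) (Nat.mod_lt _ (by norm_num)) (by
      rw [← hφ, ← li_nsmul hV, ← li_nsmul hV, ← hx, add_assoc, ← map_nsmul, ← map_nsmul,
        ← map_add, ← hab]
      exact hV _)
  have h7 : ∀ (c : ℕ) (T : A), T + T = 0 → c % 2 = 0 → c • T = 0 := by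
    intro c T hT hc
    conv_lhs => rw [← Nat.div_add_mod c 2]
    rw [hc, add_zero, mul_comm, mul_smul, two_smul, hT, smul_zero]
  have h8 : x = 0 := by
    rw [hab, h7 a T₀ hT₀ h6.2.1, h7 b T₁ hT₁ h6.2.2, add_zero]
  have h9 : ∑ i, (g i).natAbs = 2 * ∑ i, (g i / 2).natAbs := by
    rw [Finset.mul_sum]
    refine Finset.sum_congr rfl fun i _ => ?_
    conv_lhs => rw [h4 i]
    rw [Int.natAbs_mul]
    rfl
  rcases Nat.eq_zero_or_pos N with hN | hN
  · intro i
    rw [hN] at hgN
    have h10 := (Finset.sum_eq_zero_iff.1 hgN) i (Finset.mem_univ i)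
    exact Int.natAbs_eq_zero.1 h10
  · have h10 := ih (∑ i, (g i / 2).natAbs) (by omega) (fun i => g i / 2) rfl (by rw [← hx, h8])
    intro i
    rw [h4 i, h10 i, mul_zero]

/- PROOF. `A ⧸ G'` where ... : the group `(G ⊔ H) ⧸ H`, or simply: `G` is finitely generated (subgroup
of a finitely generated abelian group, `AddGroup.FG` to `Module.Finite ℤ`, Noetherian), take the
product of the `k` for the generators. -/
theorem exists_mul_mem_of_sat {A : Type} [AddCommGroup A] [AddGroup.FG A] (G H : AddSubgroup A)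
    (h : ∀ g ∈ G, ∃ k : ℕ, 0 < k ∧ k • g ∈ H) : ∃ m : ℕ, 0 < m ∧ ∀ g ∈ G, m • g ∈ H := by
  classical
  haveI : Module.Finite ℤ A := Module.Finite.iff_addGroup_fg.2 inferInstance
  obtain ⟨S, hS⟩ := IsNoetherian.noetherian (AddSubgroup.toIntSubmodule G)
  have hSG : ∀ s ∈ S, s ∈ G := by
    intro s hs
    have h1 : s ∈ AddSubgroup.toIntSubmodule G := by
      rw [← hS]
      exact Submodule.subset_span hs
    exact h1
  choose! k hk using h
  refine ⟨∏ s ∈ S, k s, Finset.prod_pos fun s hs => (hk s (hSG s hs)).1, fun g hg => ?_⟩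
  have h1 : g ∈ Submodule.span ℤ (S : Set A) := by
    rw [hS]
    exact hg
  induction h1 using Submodule.span_induction with
  | mem x hx =>
    obtain ⟨c, hc⟩ := Finset.dvd_prod_of_mem k (Finset.mem_coe.1 hx)
    rw [hc, mul_comm, mul_smul]
    exact H.nsmul_mem (hk x (hSG x hx)).2 c
  | zero =>
    rw [smul_zero]
    exact H.zero_mem
  | add x y hx hy ihx ihy =>
    rw [smul_add]
    have hx' : x ∈ AddSubgroup.toIntSubmodule G := by rw [← hS]; exact hx
    have hy' : y ∈ AddSubgroup.toIntSubmodule G := by rw [← hS]; exact hy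
    exact H.add_mem (ihx hx') (ihy hy')
  | smul a x hx ihx =>
    have hx' : x ∈ AddSubgroup.toIntSubmodule G := by rw [← hS]; exact hx
    rw [smul_comm]
    exact H.zsmul_mem (ihx hx') a

/- PROOF. `B = A ⧸ H` is a finitely generated abelian group with `2 B = B`; Nakayama
(`Submodule.exists_sub_one_mem_and_smul_eq_zero_of_fg_of_le_smul` for the ideal `(2)` of `ℤ` and the
module `B`): there is `r` with `r - 1 ∈ (2)` and `r B = 0`; `r` is odd so not zero, take `|r|`. -/
theorem exists_mul_mem {A : Type} [AddCommGroup A] [AddGroup.FG A] (H : AddSubgroup A)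
    (hH : ∀ x : A, ∃ a ∈ H, ∃ y, x = a + (y + y)) : ∃ M : ℕ, 0 < M ∧ ∀ x : A, M • x ∈ H := by
  haveI : AddGroup.FG (A ⧸ H) := inferInstance
  haveI : Module.Finite ℤ (A ⧸ H) := Module.Finite.iff_addGroup_fg.2 inferInstance
  obtain ⟨r, hr1, hr2⟩ := Submodule.exists_sub_one_mem_and_smul_eq_zero_of_fg_of_le_smul
    (Ideal.span {(2 : ℤ)}) (⊤ : Submodule ℤ (A ⧸ H)) Module.Finite.fg_top (by
      intro b _
      obtain ⟨x, rfl⟩ := QuotientAddGroup.mk_surjective b
      obtain ⟨a, ha, y, hy⟩ := hH x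
      have h1 : ((x : A) : A ⧸ H) = (2 : ℤ) • ((y : A) : A ⧸ H) := by
        rw [hy, two_smul, QuotientAddGroup.mk_add, QuotientAddGroup.mk_add,
          (QuotientAddGroup.eq_zero_iff a).2 ha, zero_add]
      rw [h1]
      exact Submodule.smul_mem_smul (Ideal.mem_span_singleton_self _) Submodule.mem_top)
  have hr0 : r ≠ 0 := by
    rintro rfl
    rw [Ideal.mem_span_singleton] at hr1
    omega
  refine ⟨r.natAbs, Int.natAbs_pos.2 hr0, fun x => ?_⟩
  have h1 := hr2 (x : A ⧸ H) Submodule.mem_top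
  rw [← QuotientAddGroup.mk_zsmul, QuotientAddGroup.eq_zero_iff] at h1
  rw [← natCast_zsmul]
  rcases Int.natAbs_eq r with h2 | h2
  · rw [← h2]
    exact h1
  · have h3 : (r.natAbs : ℤ) = -r := by omega
    rw [h3, neg_smul]
    exact H.neg_mem h1

/- PROOF. The elements `M • Q i` are `ℤ`-independent too and lie in the span of the `r` elements
`P i`; `linearIndependent_le_span_finset` / `LinearIndependent.fintype_card_le_finrank`-type lemmas
for the ring `ℤ` (strong rank condition). -/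
theorem not_linInd {A : Type} [AddCommGroup A] {r : ℕ} (P : Fin r → A) {M : ℕ} (hM : 0 < M)
    (h : ∀ x : A, M • x ∈ AddSubgroup.closure (Set.range P)) (Q : Fin (r + 1) → A) :
    ¬ LinearIndependent ℤ Q := by
  classical
  intro hQ
  have h1 : LinearIndependent ℤ (fun i => M • Q i) := by
    rw [Fintype.linearIndependent_iff] at hQ ⊢
    intro g hg i
    have h2 := hQ (fun i => g i * M) (by
      rw [← hg]
      refine Finset.sum_congr rfl fun i _ => ?_
      rw [mul_smul, natCast_zsmul]) i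
    rcases mul_eq_zero.1 h2 with h3 | h3
    · exact h3
    · omega
  have h2 : Set.range (fun i => M • Q i) ≤ Submodule.span ℤ (Set.range P) := by
    rintro _ ⟨i, rfl⟩
    have h3 := h (Q i)
    have h4 : AddSubgroup.closure (Set.range P) ≤
        (Submodule.span ℤ (Set.range P)).toAddSubgroup := by
      rw [AddSubgroup.closure_le]
      exact Submodule.subset_span
    exact h4 h3
  have h3 := linearIndependent_le_span' (fun i => M • Q i) h1 (Set.range P) h2
  have h4 : Fintype.card (Set.range P) ≤ r := by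
    have h5 := Fintype.card_range_le P
    rwa [Fintype.card_fin] at h5
  have h6 : (Cardinal.mk (Fin (r + 1))) = ((r + 1 : ℕ) : Cardinal) := Cardinal.mk_fin _
  rw [h6] at h3
  have h7 : r + 1 ≤ Fintype.card (Set.range P) := by exact_mod_cast h3
  omega

end Pool.Agent.ZCQ
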