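import Pool.Agent.ZCQ.Dhom
import Pool.Agent.ZCQ.Half
import Pool.Agent.ZCQ.LinInd
import Pool.Agent.ZCQ.Up
import Pool.Agent.ZCQ.E1Classes
import Pool.Agent.ZCQ.Mordell

/-!
# The curve `y² = x (x - 1690) (x + 3120)` has rank three
-/

set_option autoImplicit false

noncomputable section

namespace Pool.Agent.ZCQ

open WeierstrassCurve Pool.Agent.ZC
open scoped Classical

theorem e1_rts : Rts (cc 1690 (-3120)) 0 1690 (-3120) :=
  cc_rts (by norm_num) (by norm_num) (by norm_num)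

/-- The three points. -/
def e1_pt : Fin 3 → (cc 1690 (-3120)).toAffine.Point :=
  ![.some (-1920) 91200 ((e1_rts.nonsingular_iff _ _).2 (by norm_num)),
    .some (-1200) 81600 ((e1_rts.nonsingular_iff _ _).2 (by norm_num)),
    .some (-160) 29600 ((e1_rts.nonsingular_iff _ _).2 (by norm_num))]

section Inst

variable {W : WeierstrassCurve ℚ} {e₁ e₂ e₃ : ℚ}

/-- The homomorphism `dHom2` for the group law on the rational points. -/
private def dQ (h : Rts W e₁ e₂ e₃) : W.toAffine.Point →+ Cl ℚ × Cl ℚ where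
  toFun P := (dl e₁ e₂ e₃ P, dl e₂ e₁ e₃ P)
  map_zero' := rfl
  map_add' P Q := by
    have h1 := dl_add h P Q
    have h2 := dl_add h.swap12 P Q
    have e1 : dl e₁ e₂ e₃ (P + Q) = dl e₁ e₂ e₃ P + dl e₁ e₂ e₃ Q := h1
    have e2 : dl e₂ e₁ e₃ (P + Q) = dl e₂ e₁ e₃ P + dl e₂ e₁ e₃ Q := h2
    rw [e1, e2]
    rfl

private theorem half' (h : Rts W e₁ e₂ e₃) (P : W.toAffine.Point) (hP : dQ h P = 0) :
    ∃ Q, P = Q + Q :=
  exists_half h P (congrArg Prod.fst hP) (congrArg Prod.snd hP)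

private theorem TT' (h : Rts W e₁ e₂ e₃) : h.T + h.T = 0 := T_add_T h

private theorem two' (h : Rts W e₁ e₂ e₃) (P : W.toAffine.Point) (hP : P + P = 0) :
    ∃ a b : ℕ, P = a • h.T + b • h.swap12.T := two_torsion h P hP

end Inst

private theorem cl_sq_mul {x y : ℚ} (hx : x ≠ 0) (hy : y ≠ 0) (h : IsSquare (x * y)) :
    cl x = cl y := (cl_eq_cl hx hy).2 h

private theorem dl_ne {W : WeierstrassCurve ℚ} {x y e₁ e₂ e₃ c : ℚ}
    (h : W.toAffine.Nonsingular x y) (hx : x ≠ e₁) (hc : c ≠ 0) (hs : IsSquare ((x - e₁) * c)) :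
    dl e₁ e₂ e₃ (Affine.Point.some x y h) = cl c := by
  have h1 : dl e₁ e₂ e₃ (Affine.Point.some x y h) = cl (x - e₁) := if_neg hx
  rw [h1]
  exact cl_sq_mul (sub_ne_zero.2 hx) hc hs

private theorem dl_eq {W : WeierstrassCurve ℚ} {y e₁ e₂ e₃ c : ℚ}
    (h : W.toAffine.Nonsingular e₁ y) (h12 : e₁ ≠ e₂) (h13 : e₁ ≠ e₃) (hc : c ≠ 0)
    (hs : IsSquare ((e₁ - e₂) * (e₁ - e₃) * c)) :
    dl e₁ e₂ e₃ (Affine.Point.some e₁ y h) = cl c := by
  have h1 : dl e₁ e₂ e₃ (Affine.Point.some e₁ y h) = cl ((e₁ - e₂) * (e₁ - e₃)) := if_pos rfl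
  rw [h1]
  exact cl_sq_mul (mul_ne_zero (sub_ne_zero.2 h12) (sub_ne_zero.2 h13)) hc hs

private theorem ns0 : (cc 1690 (-3120)).toAffine.Nonsingular (-1920) 91200 :=
  (e1_rts.nonsingular_iff _ _).2 (by norm_num)

private theorem ns1 : (cc 1690 (-3120)).toAffine.Nonsingular (-1200) 81600 :=
  (e1_rts.nonsingular_iff _ _).2 (by norm_num)

private theorem ns2 : (cc 1690 (-3120)).toAffine.Nonsingular (-160) 29600 :=
  (e1_rts.nonsingular_iff _ _).2 (by norm_num)

private theorem nsT : (cc 1690 (-3120)).toAffine.Nonsingular 0 0 :=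
  (e1_rts.nonsingular_iff _ _).2 (by norm_num)

private theorem nsT' : (cc 1690 (-3120)).toAffine.Nonsingular 1690 0 :=
  (e1_rts.nonsingular_iff _ _).2 (by norm_num)

private theorem dQ0 : dQ e1_rts (e1_pt 0) = (cl (-30), cl (-10)) :=
  Prod.ext (dl_ne ns0 (by norm_num) (by norm_num) ⟨240, by norm_num⟩)
    (dl_ne ns0 (by norm_num) (by norm_num) ⟨190, by norm_num⟩)

private theorem dQ1 : dQ e1_rts (e1_pt 1) = (cl (-3), cl (-10)) :=
  Prod.ext (dl_ne ns1 (by norm_num) (by norm_num) ⟨60, by norm_num⟩)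
    (dl_ne ns1 (by norm_num) (by norm_num) ⟨170, by norm_num⟩)

private theorem dQ2 : dQ e1_rts (e1_pt 2) = (cl (-10), cl (-74)) :=
  Prod.ext (dl_ne ns2 (by norm_num) (by norm_num) ⟨40, by norm_num⟩)
    (dl_ne ns2 (by norm_num) (by norm_num) ⟨370, by norm_num⟩)

private theorem dQT : dQ e1_rts e1_rts.T = (cl (-78), cl (-10)) :=
  Prod.ext (dl_eq nsT (by norm_num) (by norm_num) (by norm_num) ⟨20280, by norm_num⟩)
    (dl_ne nsT (by norm_num) (by norm_num) ⟨130, by norm_num⟩)

private theorem dQT' : dQ e1_rts e1_rts.swap12.T = (cl 10, cl 481) :=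
  Prod.ext (dl_ne nsT' (by norm_num) (by norm_num) ⟨130, by norm_num⟩)
    (dl_eq nsT' (by norm_num) (by norm_num) (by norm_num) ⟨62530, by norm_num⟩)

/-- the classes of the elements of the group generated by the points -/
private theorem dQ_sum (n₁ n₂ n₃ a b : ℕ) :
    dQ e1_rts (n₁ • e1_pt 0 + n₂ • e1_pt 1 + n₃ • e1_pt 2 + a • e1_rts.T +
      b • e1_rts.swap12.T) =
      (cl ((-30) ^ n₁ * (-3) ^ n₂ * (-10) ^ n₃ * (-78) ^ a * 10 ^ b),
        cl ((-10) ^ n₁ * (-10) ^ n₂ * (-74) ^ n₃ * (-10) ^ a * 481 ^ b)) := by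
  have hne : ∀ (c : ℚ) (m : ℕ), c ≠ 0 → c ^ m ≠ 0 := fun c m h => pow_ne_zero m h
  have h30 := hne (-30) n₁ (by norm_num)
  have h3 := hne (-3) n₂ (by norm_num)
  have h10 := hne (-10) n₃ (by norm_num)
  have h78 := hne (-78) a (by norm_num)
  have h1 := hne 10 b (by norm_num)
  have g30 := hne (-10) n₁ (by norm_num)
  have g3 := hne (-10) n₂ (by norm_num)
  have g10 := hne (-74) n₃ (by norm_num)
  have g78 := hne (-10) a (by norm_num)
  have g1 := hne 481 b (by norm_num)
  rw [map_add, map_add, map_add, map_add, map_nsmul, map_nsmul, map_nsmul, map_nsmul, map_nsmul,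
    dQ0, dQ1, dQ2, dQT, dQT',
    cl_mul (mul_ne_zero (mul_ne_zero (mul_ne_zero h30 h3) h10) h78) h1,
    cl_mul (mul_ne_zero (mul_ne_zero h30 h3) h10) h78, cl_mul (mul_ne_zero h30 h3) h10,
    cl_mul h30 h3,
    cl_mul (mul_ne_zero (mul_ne_zero (mul_ne_zero g30 g3) g10) g78) g1,
    cl_mul (mul_ne_zero (mul_ne_zero g30 g3) g10) g78, cl_mul (mul_ne_zero g30 g3) g10,
    cl_mul g30 g3]
  rw [cl_pow (by norm_num), cl_pow (by norm_num), cl_pow (by norm_num), cl_pow (by norm_num),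
    cl_pow (by norm_num), cl_pow (by norm_num), cl_pow (by norm_num), cl_pow (by norm_num),
    cl_pow (by norm_num), cl_pow (by norm_num)]
  rfl

/- PROOF. `linInd_of_classes`; the classes of the points are `(-30, -10)`, `(-3, -10)`, `(-10, -74)`, those of
the points of order two `(-78, -10)` and `(10, 481)`; they are independent (signs and primes `3`, `2`, ...:
no nonempty product is a pair of squares). -/
theorem e1_linInd : LinearIndependent ℤ e1_pt := by
  refine linInd_of_classes (dQ e1_rts) (fun v => Prod.ext (cl_add_self _) (cl_add_self _)) e1_pt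
    e1_rts.T e1_rts.swap12.T (TT' e1_rts) (TT' e1_rts.swap12) (two' e1_rts) ?_
  intro n a b hn ha hb h0
  have h1 : dQ e1_rts (n 0 • e1_pt 0 + n 1 • e1_pt 1 + n 2 • e1_pt 2 + a • e1_rts.T +
      b • e1_rts.swap12.T) = 0 := by
    rw [← h0, Fin.sum_univ_three, map_add, map_add, map_add, map_add, map_nsmul, map_nsmul,
      map_nsmul, map_nsmul, map_nsmul]
  rw [dQ_sum] at h1
  have k1 := congrArg Prod.fst h1
  have k2 := congrArg Prod.snd h1
  have hne : ∀ (c : ℚ) (m : ℕ), c ≠ 0 → c ^ m ≠ 0 := fun c m h => pow_ne_zero m h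
  replace k1 := (cl_eq_zero (mul_ne_zero (mul_ne_zero (mul_ne_zero (mul_ne_zero
    (hne _ _ (by norm_num)) (hne _ _ (by norm_num))) (hne _ _ (by norm_num)))
    (hne _ _ (by norm_num))) (hne _ _ (by norm_num)))).1 k1
  replace k2 := (cl_eq_zero (mul_ne_zero (mul_ne_zero (mul_ne_zero (mul_ne_zero
    (hne _ _ (by norm_num)) (hne _ _ (by norm_num))) (hne _ _ (by norm_num)))
    (hne _ _ (by norm_num))) (hne _ _ (by norm_num)))).1 k2
  have hn' : ∀ j, n j = 0 ∨ n j = 1 := fun j => by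
    have := hn j
    omega
  have ha' : a = 0 ∨ a = 1 := by omega
  have hb' : b = 0 ∨ b = 1 := by omega
  rcases hn' 0 with g0 | g0 <;> rcases hn' 1 with g1 | g1 <;> rcases hn' 2 with g2 | g2 <;>
    rcases ha' with rfl | rfl <;> rcases hb' with rfl | rfl <;> rw [g0, g1, g2] at k1 k2 <;>
    first
      | (exfalso; norm_num at k1; done)
      | (exfalso; norm_num at k2; done)
      | (exact ⟨fun i => by fin_cases i <;> assumption, rfl, rfl⟩)

/- PROOF. `up_mem_SetE` with `(e₁, e₂) = (0, -3120)` for the first point (`-1920 = -3120 * 8 / 13`),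
`(-3120, 0)` for the second one, `(-3120, 1690)` for the third one. -/
theorem e1_mem_SetE (i : Fin 3) : up _ (e1_pt i) ∈ SetE ((cc 1690 (-3120))⁄(AlgebraicClosure ℚ))
      (algebraMap ℚ (AlgebraicClosure ℚ) (8 / 13)) := by
  fin_cases i
  · exact up_mem_SetE e1_rts.swap23 _ (by norm_num) (by norm_num)
  · exact up_mem_SetE e1_rts.swap23.swap12 _ (by norm_num) (by norm_num)
  · exact up_mem_SetE e1_rts.swap23.swap12.swap23 _ (by norm_num) (by norm_num)

/- PROOF. `e1_classes`, `exists_half`: every point is the sum of an element of the subgroup `H`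
generated by the `e1_pt i` and the points of order two and the double of a point; `exists_mul_mem`
(with `fg`), then multiply by two. -/
theorem e1_mul_mem : ∃ M : ℕ, 0 < M ∧ ∀ P : (cc 1690 (-3120)).toAffine.Point,
    M • P ∈ AddSubgroup.closure (Set.range e1_pt) := by
  have hfg : AddGroup.FG (cc 1690 (-3120)).toAffine.Point := fg e1_rts
  set H : AddSubgroup (cc 1690 (-3120)).toAffine.Point :=
    AddSubgroup.closure (Set.range e1_pt ∪ {e1_rts.T, e1_rts.swap12.T}) with hH
  have hT : e1_rts.T ∈ H := AddSubgroup.subset_closure (Or.inr (Or.inl rfl))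
  have hT' : e1_rts.swap12.T ∈ H := AddSubgroup.subset_closure (Or.inr (Or.inr rfl))
  have hP : ∀ i, e1_pt i ∈ H := fun i => AddSubgroup.subset_closure (Or.inl ⟨i, rfl⟩)
  have key : ∀ x : (cc 1690 (-3120)).toAffine.Point, ∃ a ∈ H, ∃ y, x = a + (y + y) := by
    intro P
    rcases P with _ | ⟨x, y, hxy⟩
    · refine ⟨0, H.zero_mem, 0, ?_⟩
      rw [add_zero, add_zero]
      rfl
    have heq := (e1_rts.nonsingular_iff x y).1 hxy
    by_cases hx : x = 0
    · subst hx
      have hy : y = 0 := by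
        have : y ^ 2 = 0 := by rw [heq]; ring
        exact pow_eq_zero_iff (two_ne_zero) |>.1 this
      subst hy
      exact ⟨e1_rts.T, hT, 0, by rw [add_zero, add_zero]; rfl⟩
    by_cases hx' : x = 1690
    · subst hx'
      have hy : y = 0 := by
        have : y ^ 2 = 0 := by rw [heq]; ring
        exact pow_eq_zero_iff (two_ne_zero) |>.1 this
      subst hy
      exact ⟨e1_rts.swap12.T, hT', 0, by rw [add_zero, add_zero]; rfl⟩
    obtain ⟨n₁, n₂, n₃, t₀, t₁, h1, h2⟩ := e1_classes x y (by rw [heq]; ring) hx hx'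
    set Q := n₁ • e1_pt 0 + n₂ • e1_pt 1 + n₃ • e1_pt 2 + t₀ • e1_rts.T +
      t₁ • e1_rts.swap12.T with hQ
    have hQH : Q ∈ H := by
      refine H.add_mem (H.add_mem (H.add_mem (H.add_mem ?_ ?_) ?_) ?_) ?_
      · exact H.nsmul_mem (hP 0) _
      · exact H.nsmul_mem (hP 1) _
      · exact H.nsmul_mem (hP 2) _
      · exact H.nsmul_mem hT _
      · exact H.nsmul_mem hT' _
    have hne : ∀ (c : ℚ) (m : ℕ), c ≠ 0 → c ^ m ≠ 0 := fun c m h => pow_ne_zero m h
    have h3 : dQ e1_rts (Affine.Point.some x y hxy) = dQ e1_rts Q := by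
      rw [hQ, dQ_sum]
      refine Prod.ext ?_ ?_
      · refine dl_ne hxy hx (mul_ne_zero (mul_ne_zero (mul_ne_zero (mul_ne_zero
          (hne _ _ (by norm_num)) (hne _ _ (by norm_num))) (hne _ _ (by norm_num)))
          (hne _ _ (by norm_num))) (hne _ _ (by norm_num))) ?_
        rw [sub_zero]
        exact h1
      · exact dl_ne hxy hx' (mul_ne_zero (mul_ne_zero (mul_ne_zero (mul_ne_zero
          (hne _ _ (by norm_num)) (hne _ _ (by norm_num))) (hne _ _ (by norm_num)))
          (hne _ _ (by norm_num))) (hne _ _ (by norm_num))) h2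
    obtain ⟨R, hR⟩ := half' e1_rts (Affine.Point.some x y hxy - Q) (by
      rw [map_sub, h3, sub_self])
    refine ⟨Q, hQH, R, ?_⟩
    rw [← hR]
    abel
  obtain ⟨M, hM, hMx⟩ := exists_mul_mem H key
  refine ⟨2 * M, by omega, fun P => ?_⟩
  have hle : H ≤ (AddSubgroup.closure (Set.range e1_pt)).comap
      (nsmulAddMonoidHom (α := (cc 1690 (-3120)).toAffine.Point) 2) := by
    rw [hH, AddSubgroup.closure_le]
    rintro x (⟨i, rfl⟩ | hx)
    · show 2 • e1_pt i ∈ AddSubgroup.closure (Set.range e1_pt)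
      exact AddSubgroup.nsmul_mem _ (AddSubgroup.subset_closure (Set.mem_range_self i)) _
    · show 2 • x ∈ AddSubgroup.closure (Set.range e1_pt)
      have h2 : 2 • x = 0 := by
        rw [two_nsmul]
        rcases hx with rfl | hx
        · exact TT' e1_rts
        · rw [Set.mem_singleton_iff.1 hx]
          exact TT' e1_rts.swap12
      rw [h2]
      exact AddSubgroup.zero_mem _
  have h1 := hle (hMx P)
  rw [mul_nsmul']
  exact h1

end Pool.Agent.ZCQ
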