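import Pool.Agent.ZCQ.Twist

/-!
# Infinitely many curves with four rational points of the abscissa 8 / 13
-/

set_option autoImplicit false

noncomputable section

namespace Pool.Agent.ZCQ

open WeierstrassCurve Pool.Agent.ZC
open scoped Classical

/-- The `j`-invariant. -/
def jj (W : WeierstrassCurve ℚ) : ℚ := W.c₄ ^ 3 / W.Δ

theorem jj_cc {a b : ℚ} (ha : a ≠ 0) (hb : b ≠ 0) (hab : a ≠ b) :
    jj (cc a b) = 256 * (a ^ 2 - a * b + b ^ 2) ^ 3 / (a ^ 2 * b ^ 2 * (a - b) ^ 2) := by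
  have hs : a - b ≠ 0 := sub_ne_zero.2 hab
  have h1 : (cc a b).c₄ = 16 * (a ^ 2 - a * b + b ^ 2) := by
    simp only [WeierstrassCurve.c₄, WeierstrassCurve.b₂, WeierstrassCurve.b₄, cc]
    ring
  have h2 : (cc a b).Δ = 16 * (a ^ 2 * b ^ 2 * (a - b) ^ 2) := by
    simp only [WeierstrassCurve.Δ, WeierstrassCurve.b₂, WeierstrassCurve.b₄, WeierstrassCurve.b₆,
      WeierstrassCurve.b₈, cc]
    ring
  unfold jj
  rw [h1, h2]
  have h3 : a ^ 2 * b ^ 2 * (a - b) ^ 2 ≠ 0 :=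
    mul_ne_zero (mul_ne_zero (pow_ne_zero 2 ha) (pow_ne_zero 2 hb)) (pow_ne_zero 2 hs)
  rw [div_eq_div_iff (mul_ne_zero (by norm_num) h3) h3]
  ring

/- PROOF. `α = 1290 (13 + 5 v²)`, `β = 1290 (13 v² + 8)`, `r₁ = 1290 v`, `r₄ = 1290`, `r₂ = 30 s`, `r₃ = 30 t` for
the `v, s, t` of `exists_point`. `b / a = β / α = (13 v² + 8) / (5 v² + 13)`, and for every `j` the
equation `256 (a² - a b + b²)³ = j a² b² (a - b)²` has only finitely many solutions `v²`; we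
avoid them and the numbers `0`, `5 / 8` and `35 / 13`. -/

open Polynomial in
/-- the polynomial of `v²` -/
private def famP (j : ℚ) : ℚ[X] :=
  C 256 * ((C 13 + C 5 * X) ^ 2 - (C 13 + C 5 * X) * (C 13 * X + C 8) + (C 13 * X + C 8) ^ 2) ^ 3 -
    C j * ((C 13 + C 5 * X) ^ 2 * (C 13 * X + C 8) ^ 2 *
      ((C 13 + C 5 * X) - (C 13 * X + C 8)) ^ 2)

private theorem famP_eval (j u : ℚ) : (famP j).eval u =
    256 * ((13 + 5 * u) ^ 2 - (13 + 5 * u) * (13 * u + 8) + (13 * u + 8) ^ 2) ^ 3 -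
      j * ((13 + 5 * u) ^ 2 * (13 * u + 8) ^ 2 * ((13 + 5 * u) - (13 * u + 8)) ^ 2) := by
  simp [famP]

private theorem famP_ne (j : ℚ) : famP j ≠ 0 := by
  intro h
  have h1 := famP_eval j (5 / 8)
  rw [h, Polynomial.eval_zero] at h1
  norm_num at h1

theorem exists_member (F : Finset ℚ) : ∃ α β r₁ r₂ r₃ r₄ : ℚ, Quad α β r₁ r₂ r₃ r₄ ∧
    jj (cc (13 * α) (13 * β)) ∉ F := by
  obtain ⟨v, s, t, hs, ht, hv⟩ := exists_point
    ({0, 5 / 8, 35 / 13} ∪ F.biUnion fun j => (famP j).roots.toFinset)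
  simp only [Finset.mem_union, Finset.mem_insert, Finset.mem_singleton, Finset.mem_biUnion,
    Multiset.mem_toFinset, not_or] at hv
  obtain ⟨⟨hv0, hv1, hv2⟩, hv3⟩ := hv
  have hvpos : 0 ≤ v ^ 2 := sq_nonneg v
  have hA : 13 + 5 * v ^ 2 ≠ 0 := by positivity
  have hB : 13 * v ^ 2 + 8 ≠ 0 := by positivity
  have hAB : 13 + 5 * v ^ 2 ≠ 13 * v ^ 2 + 8 := by
    intro h
    apply hv1
    linarith
  have ha : 1290 * (13 + 5 * v ^ 2) ≠ 0 := mul_ne_zero (by norm_num) hA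
  have hb : 1290 * (13 * v ^ 2 + 8) ≠ 0 := mul_ne_zero (by norm_num) hB
  have hab : 1290 * (13 + 5 * v ^ 2) ≠ 1290 * (13 * v ^ 2 + 8) := by
    intro h
    apply hAB
    linarith
  refine ⟨1290 * (13 + 5 * v ^ 2), 1290 * (13 * v ^ 2 + 8), 1290 * v, 30 * s, 30 * t, 1290,
    ⟨ha, hb, hab, by ring, ?_, ?_, by ring, ?_, ?_, ?_, by norm_num⟩, ?_⟩
  · linear_combination (-900) * hs
  · linear_combination (-900) * ht
  · refine mul_ne_zero (by norm_num) ?_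
    intro h
    apply hv0
    rw [h]
    norm_num
  · refine mul_ne_zero (by norm_num) ?_
    intro h
    apply hv2
    rw [h] at hs
    linarith
  · refine mul_ne_zero (by norm_num) ?_
    intro h
    rw [h] at ht
    nlinarith
  · intro hj
    apply hv3
    refine ⟨_, hj, ?_⟩
    rw [Polynomial.mem_roots (famP_ne _), Polynomial.IsRoot.def, famP_eval]
    have h1 := jj_cc (a := 13 * (1290 * (13 + 5 * v ^ 2))) (b := 13 * (1290 * (13 * v ^ 2 + 8)))
      (mul_ne_zero (by norm_num) ha) (mul_ne_zero (by norm_num) hb) (by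
        intro h
        apply hab
        linarith)
    have hs : (13 + 5 * v ^ 2) - (13 * v ^ 2 + 8) ≠ 0 := sub_ne_zero.2 hAB
    have h2 : jj (cc (13 * (1290 * (13 + 5 * v ^ 2))) (13 * (1290 * (13 * v ^ 2 + 8)))) =
        256 * ((13 + 5 * v ^ 2) ^ 2 - (13 + 5 * v ^ 2) * (13 * v ^ 2 + 8) +
          (13 * v ^ 2 + 8) ^ 2) ^ 3 / ((13 + 5 * v ^ 2) ^ 2 * (13 * v ^ 2 + 8) ^ 2 *
            ((13 + 5 * v ^ 2) - (13 * v ^ 2 + 8)) ^ 2) := by
      rw [h1, div_eq_div_iff]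
      · ring
      · have h3 : 13 * (1290 * (13 + 5 * v ^ 2)) - 13 * (1290 * (13 * v ^ 2 + 8)) =
            16770 * ((13 + 5 * v ^ 2) - (13 * v ^ 2 + 8)) := by ring
        rw [h3]
        exact mul_ne_zero (mul_ne_zero (pow_ne_zero 2 (mul_ne_zero (by norm_num) ha))
          (pow_ne_zero 2 (mul_ne_zero (by norm_num) hb)))
          (pow_ne_zero 2 (mul_ne_zero (by norm_num) hs))
      · exact mul_ne_zero (mul_ne_zero (pow_ne_zero 2 hA) (pow_ne_zero 2 hB))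
          (pow_ne_zero 2 hs)
    rw [h2, div_mul_cancel₀, sub_self]
    exact mul_ne_zero (mul_ne_zero (pow_ne_zero 2 hA) (pow_ne_zero 2 hB)) (pow_ne_zero 2 hs)

end Pool.Agent.ZCQ
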