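import Pool.Agent.ZCQ.E0Pts
import Pool.Agent.ZCQ.E1Pts
import Pool.Agent.ZCQ.Family
import Pool.Agent.ZCQ.Cyc

/-!
# Orthogonal families of elliptic curves of rank four
-/

set_option autoImplicit false

noncomputable section

namespace Pool.Agent.ZCQ

open WeierstrassCurve Pool.Agent.ZC
open scoped Classical

/-- an elliptic curve with the data used in the final theorem -/
structure Dat (r : ℕ) (W : WeierstrassCurve ℚ) (G : AddSubgroup W.toAffine.Point) (m : ℕ)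
    (P : Fin r → W.toAffine.Point) : Prop where
  ell : W.IsElliptic
  pos : 0 < m
  sat : ∀ (g : W.toAffine.Point) (k : ℕ), 0 < k → k • g ∈ G → g ∈ G
  mem : ∀ i, P i ∈ G
  ind : LinearIndependent ℤ P
  set : ∀ i, up W (P i) ∈ SetE (W⁄(AlgebraicClosure ℚ)) (algebraMap ℚ (AlgebraicClosure ℚ) (8 / 13))
  mul : ∀ g ∈ G, m • g ∈ AddSubgroup.closure (Set.range P)

/-- The saturation of a subgroup. -/
def satur {A : Type} [AddCommGroup A] (H : AddSubgroup A) : AddSubgroup A where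
  carrier := {g | ∃ k : ℕ, 0 < k ∧ k • g ∈ H}
  zero_mem' := ⟨1, one_pos, by rw [smul_zero]; exact H.zero_mem⟩
  add_mem' := by
    rintro a b ⟨k, hk, h⟩ ⟨l, hl, h'⟩
    refine ⟨k * l, Nat.mul_pos hk hl, ?_⟩
    rw [smul_add]
    refine H.add_mem ?_ ?_
    · rw [mul_comm, mul_smul]
      exact H.nsmul_mem h l
    · rw [mul_smul]
      exact H.nsmul_mem h' k
  neg_mem' := by
    rintro a ⟨k, hk, h⟩
    refine ⟨k, hk, ?_⟩
    rw [smul_neg]
    exact H.neg_mem h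

theorem Quad.dat {α β r₁ r₂ r₃ r₄ : ℚ} (h : Quad α β r₁ r₂ r₃ r₄) :
    ∃ m, Dat 4 (cc (13 * α) (13 * β)) (satur (AddSubgroup.closure (Set.range h.pt))) m h.pt := by
  have hfg := fg h.rts
  obtain ⟨m, hm, hm'⟩ := exists_mul_mem_of_sat (satur (AddSubgroup.closure (Set.range h.pt)))
    (AddSubgroup.closure (Set.range h.pt)) fun g hg => hg
  refine ⟨m, h.rts.isElliptic, hm, ?_, ?_, h.linInd, h.mem_SetE, hm'⟩
  · rintro g k hk ⟨l, hl, h1⟩
    refine ⟨l * k, Nat.mul_pos hl hk, ?_⟩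
    rw [mul_smul]
    exact h1
  · intro i
    refine ⟨1, one_pos, ?_⟩
    rw [one_smul]
    exact AddSubgroup.subset_closure ⟨i, rfl⟩

theorem e0_dat : ∃ m, Dat 4 (cc (13 * 370) (13 * 450)) ⊤ m e0_quad.pt := by
  obtain ⟨m, hm, h⟩ := e0_mul_mem
  exact ⟨m, e0_quad.rts.isElliptic, hm, fun _ _ _ _ => AddSubgroup.mem_top _,
    fun _ => AddSubgroup.mem_top _, e0_quad.linInd, e0_quad.mem_SetE, fun g _ => h g⟩

theorem e1_dat : ∃ m, Dat 3 (cc 1690 (-3120)) ⊤ m e1_pt := by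
  obtain ⟨m, hm, h⟩ := e1_mul_mem
  exact ⟨m, e1_rts.isElliptic, hm, fun _ _ _ _ => AddSubgroup.mem_top _,
    fun _ => AddSubgroup.mem_top _, e1_linInd, e1_mem_SetE, fun g _ => h g⟩

theorem e0_cc : cc (13 * 370) (13 * 450) = ⟨0, -10660, 0, 28138500, 0⟩ := by
  unfold cc
  norm_num

theorem e1_cc : cc 1690 (-3120) = ⟨0, 1430, 0, -5272800, 0⟩ := by
  unfold cc
  norm_num

/-- the members of the family with their data -/
structure Mem : Type where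
  r : ℕ
  W : WeierstrassCurve ℚ
  G : AddSubgroup W.toAffine.Point
  m : ℕ
  P : Fin r → W.toAffine.Point
  dat : Dat r W G m P

theorem exists_mem (F : Finset ℚ) : ∃ M : Mem, 4 ≤ M.r ∧ jj M.W ∉ F := by
  obtain ⟨α, β, r₁, r₂, r₃, r₄, h, hj⟩ := exists_member F
  obtain ⟨m, hm⟩ := h.dat
  exact ⟨⟨4, _, _, m, _, hm⟩, le_rfl, hj⟩

theorem e01_jj : jj (cc (13 * 370) (13 * 450)) ≠ jj (cc 1690 (-3120)) := by
  rw [jj_cc (by norm_num) (by norm_num) (by norm_num),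
    jj_cc (by norm_num) (by norm_num) (by norm_num)]
  norm_num

theorem exists_seq : ∃ f : ℕ → Mem, (∀ n n', jj (f n).W = jj (f n').W → n = n') ∧
    (∀ n, n ≠ 1 → 4 ≤ (f n).r) ∧
    (∃ m, ∃ h : Dat 4 (cc (13 * 370) (13 * 450)) ⊤ m e0_quad.pt, f 0 = ⟨4, _, _, m, _, h⟩) ∧
    ∃ m, ∃ h : Dat 3 (cc 1690 (-3120)) ⊤ m e1_pt, f 1 = ⟨3, _, _, m, _, h⟩ := by
  obtain ⟨m0, h0⟩ := e0_dat
  obtain ⟨m1, h1⟩ := e1_dat
  obtain ⟨g, hg, hg'⟩ := exists_seq_of_forall_finset_exists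
    (fun M : Mem => 4 ≤ M.r ∧ jj M.W ≠ jj (cc (13 * 370) (13 * 450)) ∧
      jj M.W ≠ jj (cc 1690 (-3120))) (fun M M' : Mem => jj M.W ≠ jj M'.W) (by
    intro s _
    obtain ⟨M, hM, hM'⟩ := exists_mem (insert (jj (cc (13 * 370) (13 * 450)))
      (insert (jj (cc 1690 (-3120))) (s.image fun M => jj M.W)))
    rw [Finset.mem_insert, Finset.mem_insert, not_or, not_or] at hM'
    refine ⟨M, ⟨hM, hM'.1, hM'.2.1⟩, fun M' hM1 h => hM'.2.2 ?_⟩
    exact Finset.mem_image.2 ⟨M', hM1, h⟩)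
  set f : ℕ → Mem := fun n => match n with
    | 0 => ⟨4, _, _, m0, _, h0⟩
    | 1 => ⟨3, _, _, m1, _, h1⟩
    | n + 2 => g n with hf
  refine ⟨f, ?_, ?_, ⟨m0, h0, rfl⟩, ⟨m1, h1, rfl⟩⟩
  · have key : ∀ n n', n < n' → jj (f n).W ≠ jj (f n').W := by
      intro n n' hn
      match n, n', hn with
      | 0, 0, hn => omega
      | 0, 1, _ => exact e01_jj
      | 0, n' + 2, _ => exact (hg n').2.1.symm
      | 1, 0, hn => omega
      | 1, 1, hn => omega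
      | 1, n' + 2, _ => exact (hg n').2.2.symm
      | n + 2, 0, hn => omega
      | n + 2, 1, hn => omega
      | n + 2, n' + 2, hn => exact hg' n n' (by omega)
    intro n n' h
    rcases lt_trichotomy n n' with h1 | h1 | h1
    · exact absurd h (key n n' h1)
    · exact h1
    · exact absurd h.symm (key n' n h1)
  · intro n hn
    match n, hn with
    | 0, _ => exact le_rfl
    | 1, hn => exact absurd rfl hn
    | n + 2, _ => exact (hg n).1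

theorem main_aux : ∃ (E : ℕ → WeierstrassCurve ℚ) (G : (n : ℕ) → AddSubgroup (E n).toAffine.Point)
    (m : ℕ → ℕ),
    (∀ n, (E n).IsElliptic) ∧ (∀ n, 0 < m n) ∧
    (∀ n n', (E n).c₄ ^ 3 / (E n).Δ = (E n').c₄ ^ 3 / (E n').Δ → n = n') ∧
    (∀ n (g : (E n).toAffine.Point) (k : ℕ), 0 < k → k • g ∈ G n → g ∈ G n) ∧
    (∀ n, n ≠ 1 → ∃ P : Fin 4 → (E n).toAffine.Point, LinearIndependent ℤ P ∧ ∀ i, P i ∈ G n) ∧
    (E 0 = ⟨0, -10660, 0, 28138500, 0⟩ ∧ G 0 = ⊤ ∧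
      ∀ P : Fin 5 → (E 0).toAffine.Point, ¬ LinearIndependent ℤ P) ∧
    (E 1 = ⟨0, 1430, 0, -5272800, 0⟩ ∧ G 1 = ⊤ ∧
      (∃ P : Fin 3 → (E 1).toAffine.Point, LinearIndependent ℤ P) ∧
      ∀ P : Fin 4 → (E 1).toAffine.Point, ¬ LinearIndependent ℤ P) ∧
    ∀ (N : ℕ) (s : Fin N → ℕ) (z : Z0N fun i => (E (s i))⁄(AlgebraicClosure ℚ)),
      (∀ p ∈ z.support, ∀ i, ∃ g ∈ G (s i), p i = up (E (s i)) g) →
      z.sum (fun _ n => n) = 0 → (∀ i, z.sum (fun p n => n • p i) = 0) →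
      (2 * ∏ i, m (s i)) • z ∈ RatEqN fun i => (E (s i))⁄(AlgebraicClosure ℚ) := by
  obtain ⟨f, hj, hr, ⟨m0, h0, hf0⟩, ⟨m1, h1, hf1⟩⟩ := exists_seq
  refine ⟨fun n => (f n).W, fun n => (f n).G, fun n => (f n).m, fun n => (f n).dat.ell,
    fun n => (f n).dat.pos, hj, fun n => (f n).dat.sat, ?_, ?_, ?_, ?_⟩
  · intro n hn
    refine ⟨fun i => (f n).P (Fin.castLE (hr n hn) i), ?_, fun i => (f n).dat.mem _⟩
    exact (f n).dat.ind.comp _ (Fin.castLE_injective _)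
  · have key : ∀ M : Mem, M = ⟨4, _, _, m0, _, h0⟩ → M.W = ⟨0, -10660, 0, 28138500, 0⟩ ∧
        M.G = ⊤ ∧ ∀ P : Fin 5 → M.W.toAffine.Point, ¬ LinearIndependent ℤ P := by
      rintro _ rfl
      exact ⟨e0_cc, rfl, fun P =>
        not_linInd e0_quad.pt h0.pos (fun x => h0.mul x (AddSubgroup.mem_top x)) P⟩
    exact key _ hf0
  · have key : ∀ M : Mem, M = ⟨3, _, _, m1, _, h1⟩ → M.W = ⟨0, 1430, 0, -5272800, 0⟩ ∧
        M.G = ⊤ ∧ (∃ P : Fin 3 → M.W.toAffine.Point, LinearIndependent ℤ P) ∧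
        ∀ P : Fin 4 → M.W.toAffine.Point, ¬ LinearIndependent ℤ P := by
      rintro _ rfl
      exact ⟨e1_cc, rfl, ⟨_, h1.ind⟩, fun P =>
        not_linInd e1_pt h1.pos (fun x => h1.mul x (AddSubgroup.mem_top x)) P⟩
    exact key _ hf1
  · intro N s z hz hd hs
    refine cycleQ (fun i => (f (s i)).W) (fun i => (f (s i)).dat.ell) (8 / 13)
      (fun i => Set.range (f (s i)).P) ?_ (fun i => (f (s i)).m) z ?_ hd hs
    · rintro i _ ⟨l, rfl⟩
      exact (f (s i)).dat.set l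
    · intro p hp i
      obtain ⟨g, hg, h⟩ := hz p hp i
      exact ⟨g, h, (f (s i)).dat.mul g hg⟩

end Pool.Agent.ZCQ
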