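import Pool.Agent.ZCQ.Defs

/-!
# Independence of the square classes of the four points
-/

set_option autoImplicit false

noncomputable section

namespace Pool.Agent.ZCQ

/-! ### Valuations at 13 -/

private theorem ix_p13 : Fact (Nat.Prime 13) := ⟨by norm_num⟩

attribute [local instance] ix_p13

private def ixV (x : ℚ) : ℤ := padicValRat 13 x

private theorem ixV_mul {x y : ℚ} (hx : x ≠ 0) (hy : y ≠ 0) : ixV (x * y) = ixV x + ixV y :=
  padicValRat.mul hx hy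

private theorem ixV_sq (x : ℚ) : ixV (x ^ 2) = 2 * ixV x := by
  unfold ixV
  rw [padicValRat.pow]
  norm_num

private theorem ixV_neg (x : ℚ) : ixV (-x) = ixV x := padicValRat.neg x

private theorem ixV_nat {n : ℕ} (h : ¬ 13 ∣ n) : ixV ((n : ℕ) : ℚ) = 0 := by
  unfold ixV
  rw [padicValRat.of_nat, padicValNat.eq_zero_of_not_dvd h]
  rfl

private theorem ixV_13 : ixV 13 = 1 := by
  have h := padicValRat.self (p := 13) (by norm_num)
  unfold ixV
  simpa using h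

private theorem ixV_13_mul {x : ℚ} (hx : x ≠ 0) : ixV (13 * x) = 1 + ixV x := by
  rw [ixV_mul (by norm_num) hx, ixV_13]

private theorem ixV_nat_mul {n : ℕ} (h : ¬ 13 ∣ n) {x : ℚ} (hx : x ≠ 0) :
    ixV ((n : ℚ) * x) = ixV x := by
  have hn : n ≠ 0 := by
    rintro rfl
    exact h (dvd_zero 13)
  rw [ixV_mul (Nat.cast_ne_zero.2 hn) hx, ixV_nat h, zero_add]

private theorem ixV_add {x y : ℚ} (hx : x ≠ 0) (hy : y ≠ 0) (hxy : x + y ≠ 0)
    (h : ixV x < ixV y) : ixV (x + y) = ixV x :=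
  padicValRat.add_eq_of_lt hxy hx hy h

private theorem ixV_min {x y : ℚ} (hxy : x + y ≠ 0) : min (ixV x) (ixV y) ≤ ixV (x + y) :=
  padicValRat.min_le_padicValRat_add hxy

private theorem ixV_ten {x r : ℚ} (h : 10 * x = r ^ 2) (hr : r ≠ 0) :
    x ≠ 0 ∧ ixV x = 2 * ixV r := by
  have hx : x ≠ 0 := by
    rintro rfl
    rw [mul_zero] at h
    exact pow_ne_zero 2 hr h.symm
  refine ⟨hx, ?_⟩
  have h1 := ixV_nat_mul (n := 10) (by norm_num) hx
  rw [← h1, ← ixV_sq, ← h]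
  norm_num

private theorem ix_step {α β r₁ r₂ r₃ r₄ : ℚ} (h : Quad α β r₁ r₂ r₃ r₄) :
    ixV α < ixV β + 1 := by
  by_contra hcon
  push Not at hcon
  obtain ⟨z1, e1⟩ := ixV_ten h.h1 h.n1
  obtain ⟨z2, e2⟩ := ixV_ten h.h2 h.n2
  obtain ⟨z3, e3⟩ := ixV_ten h.h3 h.n3
  have a0 := h.a0
  have b0 := h.b0
  have ha13 := ixV_13_mul a0
  have hb13 := ixV_13_mul b0
  have ha8 : ixV (-(8 * α)) = ixV α := by
    rw [ixV_neg]
    have := ixV_nat_mul (n := 8) (by norm_num) a0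
    simpa using this
  have ha5 : ixV (-(5 * α)) = ixV α := by
    rw [ixV_neg]
    have := ixV_nat_mul (n := 5) (by norm_num) a0
    simpa using this
  have hb8 : ixV (-(8 * β)) = ixV β := by
    rw [ixV_neg]
    have := ixV_nat_mul (n := 8) (by norm_num) b0
    simpa using this
  have ha3 : ixV (3 * α) = ixV α := by
    have := ixV_nat_mul (n := 3) (by norm_num) a0
    simpa using this
  have w1 : 13 * α - 8 * β = -(8 * β) + 13 * α := by ring
  have w2 : 13 * β - 8 * α = 13 * β + -(8 * α) := by ring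
  have w3 : 13 * β - 5 * α = 13 * β + -(5 * α) := by ring
  have na8 : -(8 * α) ≠ 0 := neg_ne_zero.2 (mul_ne_zero (by norm_num) a0)
  have nb8 : -(8 * β) ≠ 0 := neg_ne_zero.2 (mul_ne_zero (by norm_num) b0)
  have na13 : 13 * α ≠ 0 := mul_ne_zero (by norm_num) a0
  have nb13 : 13 * β ≠ 0 := mul_ne_zero (by norm_num) b0
  have hbeta : ixV β = 2 * ixV r₂ := by
    rw [← e2, w1, ixV_add nb8 na13 (by rw [← w1]; exact z2) (by omega), hb8]
  rcases lt_or_eq_of_le hcon with hlt | heq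
  · have h1 : ixV (13 * β - 8 * α) = 1 + ixV β := by
      rw [w2, ixV_add nb13 na8 (by rw [← w2]; exact z1) (by omega), hb13]
    omega
  · have m1 : min (ixV (13 * β)) (ixV (-(8 * α))) ≤ ixV (13 * β - 8 * α) := by
      rw [w2]
      exact ixV_min (by rw [← w2]; exact z1)
    have m3 : min (ixV (13 * β)) (ixV (-(5 * α))) ≤ ixV (13 * β - 5 * α) := by
      rw [w3]
      exact ixV_min (by rw [← w3]; exact z3)
    have w4 : (13 * β - 5 * α) + -(13 * β - 8 * α) = 3 * α := by ring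
    have m4 : min (ixV (13 * β - 5 * α)) (ixV (-(13 * β - 8 * α))) ≤ ixV (3 * α) := by
      rw [← w4]
      refine ixV_min ?_
      rw [w4]
      exact mul_ne_zero (by norm_num) a0
    rw [ixV_neg] at m4
    omega

private theorem ix_symm {α β r₁ r₂ r₃ r₄ : ℚ} (h : Quad α β r₁ r₂ r₃ r₄) :
    Quad β α r₂ r₁ r₄ r₃ :=
  ⟨h.b0, h.a0, h.ab.symm, h.h2, h.h1, h.h4, h.h3, h.n2, h.n1, h.n4, h.n3⟩

/-- both valuations are equal and even -/
private theorem ix_val {α β r₁ r₂ r₃ r₄ : ℚ} (h : Quad α β r₁ r₂ r₃ r₄) :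
    ixV α = ixV β ∧ Even (ixV α) := by
  have h1 := ix_step h
  have h2 := ix_step (ix_symm h)
  have heq : ixV α = ixV β := by omega
  refine ⟨heq, ?_⟩
  obtain ⟨z1, e1⟩ := ixV_ten h.h1 h.n1
  have a0 := h.a0
  have b0 := h.b0
  have hb13 := ixV_13_mul b0
  have ha8 : ixV (-(8 * α)) = ixV α := by
    rw [ixV_neg]
    have := ixV_nat_mul (n := 8) (by norm_num) a0
    simpa using this
  have w2 : 13 * β - 8 * α = -(8 * α) + 13 * β := by ring
  have na8 : -(8 * α) ≠ 0 := neg_ne_zero.2 (mul_ne_zero (by norm_num) a0)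
  have nb13 : 13 * β ≠ 0 := mul_ne_zero (by norm_num) b0
  refine ⟨ixV r₁, ?_⟩
  have h3 : ixV (13 * β - 8 * α) = ixV α := by
    rw [w2, ixV_add na8 nb13 (by rw [← w2]; exact z1) (by omega), ha8]
  omega

/-! ### Even valuation -/

private def ixEv (x : ℚ) : Prop := x ≠ 0 ∧ Even (ixV x)

private theorem ixEv_mul {x y : ℚ} (hx : ixEv x) (hy : ixEv y) : ixEv (x * y) :=
  ⟨mul_ne_zero hx.1 hy.1, by rw [ixV_mul hx.1 hy.1]; exact hx.2.add hy.2⟩

private theorem ixEv_one : ixEv 1 := by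
  refine ⟨one_ne_zero, ?_⟩
  have := ixV_nat (n := 1) (by norm_num)
  rw [Nat.cast_one] at this
  rw [this]
  exact Even.zero

private theorem ixEv_pow {x : ℚ} (hx : ixEv x) (n : ℕ) : ixEv (x ^ n) := by
  induction n with
  | zero =>
    rw [pow_zero]
    exact ixEv_one
  | succ n ih =>
    rw [pow_succ]
    exact ixEv_mul ih hx

private theorem ixEv_neg {x : ℚ} (hx : ixEv x) : ixEv (-x) :=
  ⟨neg_ne_zero.2 hx.1, by rw [ixV_neg]; exact hx.2⟩

private theorem ixEv_nat {n : ℕ} (h : ¬ 13 ∣ n) : ixEv (n : ℚ) := by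
  refine ⟨?_, ?_⟩
  · rw [Nat.cast_ne_zero]
    rintro rfl
    exact h (dvd_zero 13)
  · rw [ixV_nat h]
    exact Even.zero

/-- a product of elements of even valuation and `13 u` is not a square -/
private theorem ixEv_not {x u : ℚ} (hx : ixEv x) (hu : ixEv u) : ¬ IsSquare (x * (13 * u)) := by
  rintro ⟨s, hs⟩
  have h0 : x * (13 * u) ≠ 0 := mul_ne_zero hx.1 (mul_ne_zero (by norm_num) hu.1)
  have hs0 : s ≠ 0 := by
    rintro rfl
    rw [mul_zero] at hs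
    exact h0 hs
  have h1 := congrArg ixV hs
  rw [ixV_mul hx.1 (mul_ne_zero (by norm_num) hu.1), ixV_13_mul hu.1, ixV_mul hs0 hs0] at h1
  obtain ⟨a, ha⟩ := hx.2
  obtain ⟨b, hb⟩ := hu.2
  omega

/-! ### Squares -/

private theorem ix_coprime {x y : ℚ} (hy : y ≠ 0) :
    ∃ (a b : ℤ) (q : ℚ), q ≠ 0 ∧ IsCoprime a b ∧ x = q * a ∧ y = q * b := by
  have hd : (((x / y).den : ℕ) : ℚ) ≠ 0 := Nat.cast_ne_zero.2 (x / y).den_nz
  refine ⟨(x / y).num, ((x / y).den : ℤ), y / (x / y).den, div_ne_zero hy hd, ?_, ?_, ?_⟩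
  · rw [Int.isCoprime_iff_gcd_eq_one]
    exact (x / y).reduced
  · have h1 : x / y = (x / y).num / (x / y).den := (Rat.num_div_den (x / y)).symm
    have h2 : x = y * (x / y) := by field_simp
    rw [div_mul_eq_mul_div, mul_div_assoc, ← h1]
    exact h2
  · push_cast
    field_simp

private theorem ix_isq {q : ℚ} (hq : q ≠ 0) {z : ℤ} {w : ℚ} (h : w = q ^ 2 * z)
    (hw : IsSquare w) : IsSquare z := by
  rw [← Rat.isSquare_intCast_iff]
  obtain ⟨s, hs⟩ := hw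
  refine ⟨s / q, ?_⟩
  rw [hs] at h
  field_simp
  linear_combination -h

private theorem ix_dvd_of_sq {p : ℕ} (hp : p.Prime) {s : ℤ} (h : (p : ℤ) ∣ s * s) :
    (p : ℤ) ∣ s := by
  rcases Int.Prime.dvd_mul' hp h with h | h <;> exact h

private theorem ix_not_coprime {p : ℕ} (hp : p.Prime) {a b : ℤ} (hab : IsCoprime a b)
    (ha : (p : ℤ) ∣ a) (hb : (p : ℤ) ∣ b) : False := by
  have h1 := hab.isUnit_of_dvd' ha hb
  rw [Int.isUnit_iff] at h1
  have := hp.two_le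
  omega

private theorem ix_A {a b : ℤ} (hab : IsCoprime a b) (h1 : IsSquare (5 * (13 * b ^ 2 - 8 * a ^ 2)))
    (h2 : IsSquare (5 * (13 * b ^ 2 - 5 * a ^ 2))) : False := by
  obtain ⟨s, hs⟩ := h1
  obtain ⟨t, ht⟩ := h2
  have p5 : Nat.Prime 5 := by norm_num
  have s5 : ((5 : ℕ) : ℤ) ∣ s := ix_dvd_of_sq p5 ⟨13 * b ^ 2 - 8 * a ^ 2, by push_cast; rw [← hs]⟩
  have t5 : ((5 : ℕ) : ℤ) ∣ t := ix_dvd_of_sq p5 ⟨13 * b ^ 2 - 5 * a ^ 2, by push_cast; rw [← ht]⟩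
  obtain ⟨s', rfl⟩ := s5
  obtain ⟨t', rfl⟩ := t5
  push_cast at hs ht
  have b5 : ((5 : ℕ) : ℤ) ∣ b := by
    have h3 : 13 * b ^ 2 = 5 * (a ^ 2 + t' ^ 2) := by linarith
    apply ix_dvd_of_sq p5
    push_cast
    have h4 : (5 : ℤ) ∣ 13 * (b * b) := ⟨a ^ 2 + t' ^ 2, by rw [← h3]; ring⟩
    exact (Int.isCoprime_iff_gcd_eq_one.2 (by norm_num) : IsCoprime (5 : ℤ) 13).dvd_of_dvd_mul_left
      h4
  have a5 : ((5 : ℕ) : ℤ) ∣ a := by
    obtain ⟨b', rfl⟩ := b5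
    push_cast at hs
    apply ix_dvd_of_sq p5
    push_cast
    have h4 : (5 : ℤ) ∣ 8 * (a * a) := ⟨65 * b' ^ 2 - s' ^ 2, by linarith⟩
    exact (Int.isCoprime_iff_gcd_eq_one.2 (by norm_num) : IsCoprime (5 : ℤ) 8).dvd_of_dvd_mul_left
      h4
  exact ix_not_coprime p5 hab a5 b5

private theorem ix_even_of {b c s : ℤ} (hs : 2 * (13 * b ^ 2 - 4 * c) = s * s) :
    ((2 : ℕ) : ℤ) ∣ b := by
  have p2 : Nat.Prime 2 := by norm_num
  have s2 : ((2 : ℕ) : ℤ) ∣ s := ix_dvd_of_sq p2 ⟨13 * b ^ 2 - 4 * c, by push_cast; rw [← hs]⟩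
  obtain ⟨s', rfl⟩ := s2
  push_cast at hs
  apply ix_dvd_of_sq p2
  push_cast
  have h4 : (2 : ℤ) ∣ 13 * (b * b) := ⟨s' ^ 2 + 2 * c, by linarith⟩
  exact (Int.isCoprime_iff_gcd_eq_one.2 (by norm_num) : IsCoprime (2 : ℤ) 13).dvd_of_dvd_mul_left h4

private theorem ix_B {a b : ℤ} (hab : IsCoprime a b) (h1 : IsSquare (2 * (13 * b ^ 2 - 8 * a ^ 2)))
    (h2 : IsSquare (2 * (13 * a ^ 2 - 8 * b ^ 2))) : False := by
  obtain ⟨s, hs⟩ := h1
  obtain ⟨t, ht⟩ := h2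
  have p2 : Nat.Prime 2 := by norm_num
  have b2 : ((2 : ℕ) : ℤ) ∣ b := ix_even_of (b := b) (c := 2 * a ^ 2) (s := s) (by linarith)
  have a2 : ((2 : ℕ) : ℤ) ∣ a := ix_even_of (b := a) (c := 2 * b ^ 2) (s := t) (by linarith)
  exact ix_not_coprime p2 hab a2 b2

private theorem ix_C {a b : ℤ} (hab : IsCoprime a b) (h1 : IsSquare (26 * b ^ 2 - 40 * a ^ 2))
    (h2 : IsSquare (26 * b ^ 2 - 25 * a ^ 2)) : False := by
  obtain ⟨s, hs⟩ := h1
  obtain ⟨t, ht⟩ := h2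
  have p2 : Nat.Prime 2 := by norm_num
  have b2 : ((2 : ℕ) : ℤ) ∣ b := ix_even_of (b := b) (c := 5 * a ^ 2) (s := s) (by linarith)
  have a2 : ¬ ((2 : ℕ) : ℤ) ∣ a := fun h => ix_not_coprime p2 hab h b2
  obtain ⟨b', rfl⟩ := b2
  push_cast at ht a2
  have hodd : a % 2 = 1 := by omega
  have h3 : (104 * b' ^ 2 - 25 * a ^ 2) % 4 = (t * t) % 4 := by
    rw [← ht]
    congr 1
    ring
  have h4 : a % 4 = 1 ∨ a % 4 = 3 := by omega
  have h5 : t % 4 = 0 ∨ t % 4 = 1 ∨ t % 4 = 2 ∨ t % 4 = 3 := by omega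
  have h6 : (a ^ 2) % 4 = 1 := by
    rcases h4 with h | h <;> simp [pow_two, Int.mul_emod, h]
  have h7 : (t * t) % 4 = 0 ∨ (t * t) % 4 = 1 := by
    rcases h5 with h | h | h | h <;> simp [Int.mul_emod, h]
  omega

private theorem ix_qA {x y : ℚ} (hy : y ≠ 0) (h1 : IsSquare (5 * (13 * y ^ 2 - 8 * x ^ 2)))
    (h2 : IsSquare (5 * (13 * y ^ 2 - 5 * x ^ 2))) : False := by
  obtain ⟨a, b, q, hq, hab, rfl, rfl⟩ := ix_coprime (x := x) hy
  exact ix_A hab (ix_isq hq (by push_cast; ring) h1) (ix_isq hq (by push_cast; ring) h2)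

private theorem ix_qB {x y : ℚ} (hy : y ≠ 0) (h1 : IsSquare (2 * (13 * y ^ 2 - 8 * x ^ 2)))
    (h2 : IsSquare (2 * (13 * x ^ 2 - 8 * y ^ 2))) : False := by
  obtain ⟨a, b, q, hq, hab, rfl, rfl⟩ := ix_coprime (x := x) hy
  exact ix_B hab (ix_isq hq (by push_cast; ring) h1) (ix_isq hq (by push_cast; ring) h2)

private theorem ix_qC {x y : ℚ} (hy : y ≠ 0) (h1 : IsSquare (26 * y ^ 2 - 40 * x ^ 2))
    (h2 : IsSquare (26 * y ^ 2 - 25 * x ^ 2)) : False := by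
  obtain ⟨a, b, q, hq, hab, rfl, rfl⟩ := ix_coprime (x := x) hy
  exact ix_C hab (ix_isq hq (by push_cast; ring) h1) (ix_isq hq (by push_cast; ring) h2)

/-- remove a square -/
private theorem ix_rm {w u c : ℚ} (hc : c ≠ 0) (h : w = c ^ 2 * u) (hw : IsSquare w) :
    IsSquare u := by
  obtain ⟨s, hs⟩ := hw
  refine ⟨s / c, ?_⟩
  rw [hs] at h
  field_simp
  linear_combination -h

private theorem ix_ten : ¬ IsSquare (10 : ℚ) := by
  intro h
  have h1 : IsSquare ((10 : ℤ) : ℚ) := by exact_mod_cast h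
  rw [Rat.isSquare_intCast_iff] at h1
  obtain ⟨s, hs⟩ := h1
  have h2 : s < 4 := by nlinarith
  have h3 : -4 < s := by nlinarith
  interval_cases s <;> omega

/-- `2 α`, `2 β` squares -/
private theorem ix_caseA {α β r₁ r₂ r₃ r₄ : ℚ} (h : Quad α β r₁ r₂ r₃ r₄)
    (hx : IsSquare (2 * α)) (hy : IsSquare (2 * β)) : False := by
  obtain ⟨x, hx⟩ := hx
  obtain ⟨y, hy⟩ := hy
  have hy0 : y ≠ 0 := by
    rintro rfl
    have := h.b0
    rw [mul_zero] at hy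
    apply this
    linarith
  refine ix_qA (x := x) hy0 ⟨r₁, ?_⟩ ⟨r₃, ?_⟩
  · have := h.h1
    linear_combination this + 40 * hx - 65 * hy
  · have := h.h3
    linear_combination this + 25 * hx - 65 * hy

/-- `5 α`, `5 β` squares -/
private theorem ix_caseB {α β r₁ r₂ r₃ r₄ : ℚ} (h : Quad α β r₁ r₂ r₃ r₄)
    (hx : IsSquare (5 * α)) (hy : IsSquare (5 * β)) : False := by
  obtain ⟨x, hx⟩ := hx
  obtain ⟨y, hy⟩ := hy
  have hy0 : y ≠ 0 := by
    rintro rfl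
    have := h.b0
    rw [mul_zero] at hy
    apply this
    linarith
  refine ix_qB (x := x) hy0 ⟨r₁, ?_⟩ ⟨r₂, ?_⟩
  · have := h.h1
    linear_combination this + 16 * hx - 26 * hy
  · have := h.h2
    linear_combination this - 26 * hx + 16 * hy

/-- `2 α`, `5 β` squares -/
private theorem ix_caseC {α β r₁ r₂ r₃ r₄ : ℚ} (h : Quad α β r₁ r₂ r₃ r₄)
    (hx : IsSquare (2 * α)) (hy : IsSquare (5 * β)) : False := by
  obtain ⟨x, hx⟩ := hx
  obtain ⟨y, hy⟩ := hy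
  have hy0 : y ≠ 0 := by
    rintro rfl
    have := h.b0
    rw [mul_zero] at hy
    apply this
    linarith
  refine ix_qC (x := x) hy0 ⟨r₁, ?_⟩ ⟨r₃, ?_⟩
  · have := h.h1
    linear_combination this + 40 * hx - 26 * hy
  · have := h.h3
    linear_combination this + 25 * hx - 26 * hy

/- PROOF (all of it elementary; `padicValRat`).
(1) `α, β > 0` (real: `13 β > 8 α`, `13 α > 8 β`).
(2) `v₁₃(α) = v₁₃(β)` is even. Let `v = v₁₃(α)`, `w = v₁₃(β)`. If `w + 1 < v` then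
`v₁₃(13 β - 8 α) = w + 1` is even and `v₁₃(13 α - 8 β) = w` is even, contradiction. If `w + 1 = v`:
one of `13 β - 8 α`, `13 β - 5 α` has valuation exactly `v` (their difference is `3 α`), so `v = w + 1`
is even, and `w` is even. So `w + 1 > v`, `v` is even, and by symmetry `v + 1 > w`, `w` is even; so `v = w`.
(3) `v₁₃` of the argument of `hs1` is `even + t₁`, so `t₁ = 0`; then `hs2` gives `t₀ = 0`.
(4) sign in `hs2`: `n₁ + n₂ + n₃ + n₄` is even. Let `N = n₁ + n₃`, `M = n₂ + n₄`.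
Both even (`n₃ = n₁`, `n₄ = n₂`): `hs1` says `10 ^ (n₁ + n₂)` is a square so `n₁ = n₂`, `hs2` says `10 ^ n₁`
is a square, so `n₁ = 0`.
Both odd: `hs2`: `n₁ = 1`: `2 α` is a square, `n₁ = 0`: `5 α` is a square; then `hs1`: `n₂ = 1`: `2 β` is a
square; `n₂ = 0`: `5 β` is a square. Contradictions, with coprime integers `x`, `y` (scale `α`, `β` by a
common square factor):
`α = 2 x²`, `β = 2 y²`: `5 (13 y² - 8 x²)`, `5 (13 y² - 5 x²)` are squares: `5 ∣ y` (second), then `5 ∣ x` (first).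
`α = 5 x²`, `β = 5 y²`: `2 (13 y² - 8 x²)`, `2 (13 x² - 8 y²)` are squares: `y` and `x` are even.
`α = 2 x²`, `β = 5 y²`: from `h3`: `2 (13 y² - 2 x²)` is a square: `y` even, `y = 2 z`, `26 z² - x²` is a
square; from `h1`: `10 (65 z² - 4 x²)` is a square: `z` is even, so `x` is odd and `26 z² - x² ≡ -1 mod 8`.
`α = 5 x²`, `β = 2 y²`: the same with `h4`, `h2` (symmetry). -/
theorem fam_indep {α β r₁ r₂ r₃ r₄ : ℚ} (h : Quad α β r₁ r₂ r₃ r₄) (n₁ n₂ n₃ n₄ t₀ t₁ : ℕ)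
    (l₁ : n₁ < 2) (l₂ : n₂ < 2) (l₃ : n₃ < 2) (l₄ : n₄ < 2) (k₀ : t₀ < 2) (k₁ : t₁ < 2)
    (hs1 : IsSquare ((2 * α) ^ n₁ * (2 * β) ^ n₂ * (5 * α) ^ n₃ * (5 * β) ^ n₄ *
      (α * β) ^ t₀ * (13 * α) ^ t₁))
    (hs2 : IsSquare ((-5 * α) ^ n₁ * (-10) ^ n₂ * (-2 * α) ^ n₃ * (-10) ^ n₄ *
      (-13 * α) ^ t₀ * (α * (α - β)) ^ t₁)) :
    n₁ = 0 ∧ n₂ = 0 ∧ n₃ = 0 ∧ n₄ = 0 ∧ t₀ = 0 ∧ t₁ = 0 := by
  have q1 : 0 < r₁ ^ 2 := by
    have := h.n1
    positivity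
  have q2 : 0 < r₂ ^ 2 := by
    have := h.n2
    positivity
  have hα : 0 < α := by linarith [h.h1, h.h2]
  have hαα : 0 < α * α := mul_pos hα hα
  obtain ⟨hv, he⟩ := ix_val h
  have ea : ixEv α := ⟨h.a0, he⟩
  have eb : ixEv β := ⟨h.b0, by rw [← hv]; exact he⟩
  have e2 : ixEv 2 := by simpa using ixEv_nat (n := 2) (by norm_num)
  have e5 : ixEv 5 := by simpa using ixEv_nat (n := 5) (by norm_num)
  have e10 : ixEv 10 := by simpa using ixEv_nat (n := 10) (by norm_num)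
  have ht1 : t₁ = 0 := by
    by_contra hne
    have h1 : t₁ = 1 := by omega
    subst h1
    rw [pow_one] at hs1
    exact ixEv_not (ixEv_mul (ixEv_mul (ixEv_mul (ixEv_mul (ixEv_pow (ixEv_mul e2 ea) n₁)
      (ixEv_pow (ixEv_mul e2 eb) n₂)) (ixEv_pow (ixEv_mul e5 ea) n₃))
      (ixEv_pow (ixEv_mul e5 eb) n₄)) (ixEv_pow (ixEv_mul ea eb) t₀)) ea hs1
  subst ht1
  have ht0 : t₀ = 0 := by
    by_contra hne
    have h1 : t₀ = 1 := by omega
    subst h1
    have e13 : -13 * α = 13 * -α := by ring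
    rw [pow_one, pow_zero, mul_one, e13] at hs2
    exact ixEv_not (ixEv_mul (ixEv_mul (ixEv_mul (ixEv_pow (ixEv_mul (ixEv_neg e5) ea) n₁)
      (ixEv_pow (ixEv_neg e10) n₂)) (ixEv_pow (ixEv_mul (ixEv_neg e2) ea) n₃))
      (ixEv_pow (ixEv_neg e10) n₄)) (ixEv_neg ea) hs2
  subst ht0
  have a0 := h.a0
  have b0 := h.b0
  have u2 : 2 * α ≠ 0 := mul_ne_zero (by norm_num) a0
  have u5 : 5 * α ≠ 0 := mul_ne_zero (by norm_num) a0
  have c1 : n₁ = 0 ∨ n₁ = 1 := by omega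
  have c2 : n₂ = 0 ∨ n₂ = 1 := by omega
  have c3 : n₃ = 0 ∨ n₃ = 1 := by omega
  have c4 : n₄ = 0 ∨ n₄ = 1 := by omega
  rcases c1 with rfl | rfl <;> rcases c2 with rfl | rfl <;> rcases c3 with rfl | rfl <;>
    rcases c4 with rfl | rfl <;> simp only [pow_zero, pow_one, one_mul, mul_one] at hs1 hs2
  · exact ⟨rfl, rfl, rfl, rfl, rfl, rfl⟩
  · exact absurd hs2.nonneg (not_le.2 (by norm_num))
  · exact absurd hs2.nonneg (not_le.2 (by linarith))
  · have k1 : IsSquare (5 * α) := ix_rm (c := 2) (by norm_num) (by ring) hs2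
    have k2 : IsSquare (5 * β) := ix_rm (c := 5 * α) u5 (by ring) (hs1.mul k1)
    exact (ix_caseB h k1 k2).elim
  · exact absurd hs2.nonneg (not_le.2 (by norm_num))
  · exact absurd (ix_rm (c := β) b0 (by ring) hs1) ix_ten
  · have k1 : IsSquare (5 * α) := ix_rm (c := 2) (by norm_num) (by ring) hs2
    have k2 : IsSquare (2 * β) := ix_rm (c := 5 * α) u5 (by ring) (hs1.mul k1)
    exact (ix_caseC (ix_symm h) k2 k1).elim
  · exact absurd hs2.nonneg (not_le.2 (by linarith))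
  · exact absurd hs2.nonneg (not_le.2 (by linarith))
  · have k1 : IsSquare (2 * α) := ix_rm (c := 5) (by norm_num) (by ring) hs2
    have k2 : IsSquare (5 * β) := ix_rm (c := 2 * α) u2 (by ring) (hs1.mul k1)
    exact (ix_caseC h k1 k2).elim
  · exact absurd (ix_rm (c := α) a0 (by ring) hs1) ix_ten
  · exact absurd hs2.nonneg (not_le.2 (by nlinarith))
  · have k1 : IsSquare (2 * α) := ix_rm (c := 5) (by norm_num) (by ring) hs2
    have k2 : IsSquare (2 * β) := ix_rm (c := 2 * α) u2 (by ring) (hs1.mul k1)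
    exact (ix_caseA h k1 k2).elim
  · exact absurd hs2.nonneg (not_le.2 (by linarith))
  · exact absurd hs2.nonneg (not_le.2 (by nlinarith))
  · exact absurd (ix_rm (c := 10 * α) (mul_ne_zero (by norm_num) a0) (by ring) hs2) ix_ten

end Pool.Agent.ZCQ
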