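import Pool.Agent.ZCQ.Dhom
import Pool.Agent.ZCQ.Half
import Pool.Agent.ZCQ.LinInd
import Pool.Agent.ZCQ.Indep
import Pool.Agent.ZCQ.Up

/-!
# The four points on the curve `y² = x (x - 13 α) (x - 13 β)`
-/

set_option autoImplicit false

noncomputable section

namespace Pool.Agent.ZCQ

open WeierstrassCurve Pool.Agent.ZC
open scoped Classical

variable {α β r₁ r₂ r₃ r₄ : ℚ}

theorem Quad.rts (h : Quad α β r₁ r₂ r₃ r₄) : Rts (cc (13 * α) (13 * β)) 0 (13 * α) (13 * β) :=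
  cc_rts (mul_ne_zero (by norm_num) h.a0) (mul_ne_zero (by norm_num) h.b0)
    (fun h1 => h.ab (mul_left_cancel₀ (by norm_num) h1))

theorem Quad.ns1 (h : Quad α β r₁ r₂ r₃ r₄) :
    (cc (13 * α) (13 * β)).toAffine.Nonsingular (8 * α) (2 * α * r₁) :=
  (h.rts.nonsingular_iff _ _).2 (by linear_combination -(4 * α ^ 2) * h.h1)

theorem Quad.ns2 (h : Quad α β r₁ r₂ r₃ r₄) :
    (cc (13 * α) (13 * β)).toAffine.Nonsingular (8 * β) (2 * β * r₂) :=
  (h.rts.nonsingular_iff _ _).2 (by linear_combination -(4 * β ^ 2) * h.h2)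

theorem Quad.ns3 (h : Quad α β r₁ r₂ r₃ r₄) :
    (cc (13 * α) (13 * β)).toAffine.Nonsingular (5 * α) (2 * α * r₃) :=
  (h.rts.nonsingular_iff _ _).2 (by linear_combination -(4 * α ^ 2) * h.h3)

theorem Quad.ns4 (h : Quad α β r₁ r₂ r₃ r₄) :
    (cc (13 * α) (13 * β)).toAffine.Nonsingular (5 * β) (2 * β * r₄) :=
  (h.rts.nonsingular_iff _ _).2 (by linear_combination -(4 * β ^ 2) * h.h4)

/-- The four points. -/
def Quad.pt (h : Quad α β r₁ r₂ r₃ r₄) : Fin 4 → (cc (13 * α) (13 * β)).toAffine.Point :=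
  ![.some _ _ h.ns1, .some _ _ h.ns2, .some _ _ h.ns3, .some _ _ h.ns4]

/-- The square classes of the four points (`x` and `x - 13 α`). -/
theorem Quad.cl_pt (h : Quad α β r₁ r₂ r₃ r₄) :
    (fun i => dHom2 h.rts (h.pt i)) = ![(cl (2 * α), cl (-5 * α)), (cl (2 * β), cl (-10)),
      (cl (5 * α), cl (-2 * α)), (cl (5 * β), cl (-10))] := by
  have ha := h.a0
  have hb := h.b0
  have h13 : 13 * α ≠ 0 := mul_ne_zero (by norm_num) ha
  have k2 : 8 * β - 13 * α ≠ 0 := by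
    intro h0
    have h1 := h.h2
    have h2 : 13 * α - 8 * β = 0 := by linarith
    rw [h2, mul_zero] at h1
    exact h.n2 (pow_eq_zero_iff (two_ne_zero)|>.1 h1.symm)
  have k4 : 5 * β - 13 * α ≠ 0 := by
    intro h0
    have h1 := h.h4
    have h2 : 13 * α - 5 * β = 0 := by linarith
    rw [h2, mul_zero] at h1
    exact h.n4 (pow_eq_zero_iff (two_ne_zero)|>.1 h1.symm)
  funext i
  fin_cases i
  · change (dl 0 (13 * α) (13 * β) (.some _ _ h.ns1), dl (13 * α) 0 (13 * β) (.some _ _ h.ns1)) =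
      (cl (2 * α), cl (-5 * α))
    have e1 : 8 * α ≠ 0 := mul_ne_zero (by norm_num) ha
    have e2 : 8 * α ≠ 13 * α := fun h0 => ha (by linarith)
    simp only [dl, if_neg e1, if_neg e2]
    rw [Prod.mk.injEq]
    refine ⟨?_, ?_⟩
    · rw [cl_eq_cl (by rwa [sub_zero]) (mul_ne_zero two_ne_zero ha)]
      exact ⟨4 * α, by ring⟩
    · congr 1
      ring
  · change (dl 0 (13 * α) (13 * β) (.some _ _ h.ns2), dl (13 * α) 0 (13 * β) (.some _ _ h.ns2)) =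
      (cl (2 * β), cl (-10))
    have e1 : 8 * β ≠ 0 := mul_ne_zero (by norm_num) hb
    have e2 : 8 * β ≠ 13 * α := fun h0 => k2 (sub_eq_zero.2 h0)
    simp only [dl, if_neg e1, if_neg e2]
    rw [Prod.mk.injEq]
    refine ⟨?_, ?_⟩
    · rw [cl_eq_cl (by rwa [sub_zero]) (mul_ne_zero two_ne_zero hb)]
      exact ⟨4 * β, by ring⟩
    · rw [cl_eq_cl k2 (by norm_num)]
      exact ⟨r₂, by linear_combination h.h2⟩
  · change (dl 0 (13 * α) (13 * β) (.some _ _ h.ns3), dl (13 * α) 0 (13 * β) (.some _ _ h.ns3)) =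
      (cl (5 * α), cl (-2 * α))
    have e1 : 5 * α ≠ 0 := mul_ne_zero (by norm_num) ha
    have e2 : 5 * α ≠ 13 * α := fun h0 => ha (by linarith)
    simp only [dl, if_neg e1, if_neg e2]
    rw [Prod.mk.injEq]
    refine ⟨?_, ?_⟩
    · congr 1
      ring
    · rw [cl_eq_cl (sub_ne_zero.2 e2) (mul_ne_zero (by norm_num) ha)]
      exact ⟨4 * α, by ring⟩
  · change (dl 0 (13 * α) (13 * β) (.some _ _ h.ns4), dl (13 * α) 0 (13 * β) (.some _ _ h.ns4)) =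
      (cl (5 * β), cl (-10))
    have e1 : 5 * β ≠ 0 := mul_ne_zero (by norm_num) hb
    have e2 : 5 * β ≠ 13 * α := fun h0 => k4 (sub_eq_zero.2 h0)
    simp only [dl, if_neg e1, if_neg e2]
    rw [Prod.mk.injEq]
    refine ⟨?_, ?_⟩
    · congr 1
      ring
    · rw [cl_eq_cl k4 (by norm_num)]
      exact ⟨r₄, by linear_combination h.h4⟩

/-- The square classes of the points of order two. -/
theorem Quad.cl_T (h : Quad α β r₁ r₂ r₃ r₄) :
    dHom2 h.rts h.rts.T = (cl (α * β), cl (-13 * α)) ∧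
      dHom2 h.rts h.rts.swap12.T = (cl (13 * α), cl (α * (α - β))) := by
  have ha := h.a0
  have hb := h.b0
  have hab := sub_ne_zero.2 h.ab
  have h13 : 13 * α ≠ 0 := mul_ne_zero (by norm_num) ha
  have h13' : 13 * β ≠ 0 := mul_ne_zero (by norm_num) hb
  constructor
  · rw [dHom2_apply]
    simp only [Rts.T, dl, if_true, if_neg h13.symm]
    rw [Prod.mk.injEq]
    refine ⟨?_, ?_⟩
    · rw [cl_eq_cl (mul_ne_zero (by rw [zero_sub]; exact neg_ne_zero.2 h13)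
        (by rw [zero_sub]; exact neg_ne_zero.2 h13')) (mul_ne_zero ha hb)]
      exact ⟨13 * α * β, by ring⟩
    · congr 1
      ring
  · rw [dHom2_apply]
    simp only [Rts.T, dl, if_true, if_neg h13]
    rw [Prod.mk.injEq]
    refine ⟨?_, ?_⟩
    · congr 1
      ring
    · rw [cl_eq_cl (mul_ne_zero (by rwa [sub_zero])
        (sub_ne_zero.2 fun h0 => h.ab (by linarith))) (mul_ne_zero ha hab)]
      exact ⟨13 * α * (α - β), by ring⟩

private theorem linInd_aux {K : Type} [Field K] [DecidableEq K] [NeZero (2 : K)] {W : WeierstrassCurve K}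
    {e₁ e₂ e₃ : K} (h : Rts W e₁ e₂ e₃) {r : ℕ} (P : Fin r → W.toAffine.Point)
    (hind : ∀ (n : Fin r → ℕ) (a b : ℕ), (∀ i, n i < 2) → a < 2 → b < 2 →
      ∑ i, n i • dHom2 h (P i) + a • dHom2 h h.T + b • dHom2 h h.swap12.T = 0 →
      (∀ i, n i = 0) ∧ a = 0 ∧ b = 0) : LinearIndependent ℤ P :=
  linInd_of_classes (dHom2 h) (fun _ => Prod.ext (cl_add_self _) (cl_add_self _)) P
    h.T h.swap12.T (T_add_T _) (T_add_T _) (two_torsion h) hind

/- PROOF. `linInd_of_classes` with `φ = dHom2 h.rts`, `two_torsion`, `T_add_T`, `cl_pt`, `cl_T`,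
`fam_indep` (`cl_mul`, `cl_pow`, `cl_eq_zero`). -/
theorem Quad.linInd (h : Quad α β r₁ r₂ r₃ r₄) : LinearIndependent ℤ h.pt := by
  have ha := h.a0
  have hb := h.b0
  have hab := sub_ne_zero.2 h.ab
  suffices key : ∀ (n : Fin 4 → ℕ) (a b : ℕ), (∀ i, n i < 2) → a < 2 → b < 2 →
      ∑ i, n i • dHom2 h.rts (h.pt i) + a • dHom2 h.rts h.rts.T +
        b • dHom2 h.rts h.rts.swap12.T = 0 → (∀ i, n i = 0) ∧ a = 0 ∧ b = 0 by
    exact linInd_aux h.rts h.pt key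
  intro n a b hn hla hlb hs
  have e : ∀ i, dHom2 h.rts (h.pt i) = ![(cl (2 * α), cl (-5 * α)), (cl (2 * β), cl (-10)),
      (cl (5 * α), cl (-2 * α)), (cl (5 * β), cl (-10))] i := fun i => congrFun h.cl_pt i
  simp only [e, h.cl_T.1, h.cl_T.2, Fin.sum_univ_four] at hs
  have hs1 := congrArg Prod.fst hs
  have hs2 := congrArg Prod.snd hs
  change n 0 • cl (2 * α) + n 1 • cl (2 * β) + n 2 • cl (5 * α) + n 3 • cl (5 * β) +
    a • cl (α * β) + b • cl (13 * α) = 0 at hs1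
  change n 0 • cl (-5 * α) + n 1 • cl (-10) + n 2 • cl (-2 * α) + n 3 • cl (-10) +
    a • cl (-13 * α) + b • cl (α * (α - β)) = 0 at hs2
  have g1 : 2 * α ≠ 0 := mul_ne_zero (by norm_num) ha
  have g2 : 2 * β ≠ 0 := mul_ne_zero (by norm_num) hb
  have g3 : 5 * α ≠ 0 := mul_ne_zero (by norm_num) ha
  have g4 : 5 * β ≠ 0 := mul_ne_zero (by norm_num) hb
  have g5 : α * β ≠ 0 := mul_ne_zero ha hb
  have g6 : 13 * α ≠ 0 := mul_ne_zero (by norm_num) ha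
  have g7 : -5 * α ≠ 0 := mul_ne_zero (by norm_num) ha
  have g8 : (-10 : ℚ) ≠ 0 := by norm_num
  have g9 : -2 * α ≠ 0 := mul_ne_zero (by norm_num) ha
  have g10 : -13 * α ≠ 0 := mul_ne_zero (by norm_num) ha
  have g11 : α * (α - β) ≠ 0 := mul_ne_zero ha hab
  have p1 : ∀ {x : ℚ} (_ : x ≠ 0) (k : ℕ), x ^ k ≠ 0 := fun hx k => pow_ne_zero k hx
  rw [← cl_pow g1, ← cl_pow g2, ← cl_pow g3, ← cl_pow g4, ← cl_pow g5, ← cl_pow g6,
    ← cl_mul (p1 g1 _) (p1 g2 _), ← cl_mul (mul_ne_zero (p1 g1 _) (p1 g2 _)) (p1 g3 _),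
    ← cl_mul (mul_ne_zero (mul_ne_zero (p1 g1 _) (p1 g2 _)) (p1 g3 _)) (p1 g4 _),
    ← cl_mul (mul_ne_zero (mul_ne_zero (mul_ne_zero (p1 g1 _) (p1 g2 _)) (p1 g3 _)) (p1 g4 _))
      (p1 g5 _),
    ← cl_mul (mul_ne_zero (mul_ne_zero (mul_ne_zero (mul_ne_zero (p1 g1 _) (p1 g2 _)) (p1 g3 _))
      (p1 g4 _)) (p1 g5 _)) (p1 g6 _),
    cl_eq_zero (mul_ne_zero (mul_ne_zero (mul_ne_zero (mul_ne_zero (mul_ne_zero (p1 g1 _)
      (p1 g2 _)) (p1 g3 _)) (p1 g4 _)) (p1 g5 _)) (p1 g6 _))] at hs1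
  rw [← cl_pow g7, ← cl_pow g8, ← cl_pow g9, ← cl_pow g8, ← cl_pow g10, ← cl_pow g11,
    ← cl_mul (p1 g7 _) (p1 g8 _), ← cl_mul (mul_ne_zero (p1 g7 _) (p1 g8 _)) (p1 g9 _),
    ← cl_mul (mul_ne_zero (mul_ne_zero (p1 g7 _) (p1 g8 _)) (p1 g9 _)) (p1 g8 _),
    ← cl_mul (mul_ne_zero (mul_ne_zero (mul_ne_zero (p1 g7 _) (p1 g8 _)) (p1 g9 _)) (p1 g8 _))
      (p1 g10 _),
    ← cl_mul (mul_ne_zero (mul_ne_zero (mul_ne_zero (mul_ne_zero (p1 g7 _) (p1 g8 _)) (p1 g9 _))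
      (p1 g8 _)) (p1 g10 _)) (p1 g11 _),
    cl_eq_zero (mul_ne_zero (mul_ne_zero (mul_ne_zero (mul_ne_zero (mul_ne_zero (p1 g7 _)
      (p1 g8 _)) (p1 g9 _)) (p1 g8 _)) (p1 g10 _)) (p1 g11 _))] at hs2
  obtain ⟨r0, r1, r2, r3, r4, r5⟩ := fam_indep h (n 0) (n 1) (n 2) (n 3) a b (hn 0) (hn 1) (hn 2)
    (hn 3) hla hlb hs1 hs2
  refine ⟨fun i => ?_, r4, r5⟩
  fin_cases i
  · exact r0
  · exact r1
  · exact r2
  · exact r3

/- PROOF. `up_mem_SetE` with `(e₁, e₂) = (0, 13 α), (0, 13 β), (13 α, 0), (13 β, 0)` and `u = 8 / 13`. -/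
theorem Quad.mem_SetE (h : Quad α β r₁ r₂ r₃ r₄) (i : Fin 4) :
    up _ (h.pt i) ∈ SetE ((cc (13 * α) (13 * β))⁄(AlgebraicClosure ℚ))
      (algebraMap ℚ (AlgebraicClosure ℚ) (8 / 13)) := by
  fin_cases i
  · exact up_mem_SetE h.rts h.ns1 (by ring) (mul_ne_zero (mul_ne_zero two_ne_zero h.a0) h.n1)
  · exact up_mem_SetE h.rts.swap23 h.ns2 (by ring)
      (mul_ne_zero (mul_ne_zero two_ne_zero h.b0) h.n2)
  · exact up_mem_SetE h.rts.swap12 h.ns3 (by ring)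
      (mul_ne_zero (mul_ne_zero two_ne_zero h.a0) h.n3)
  · exact up_mem_SetE h.rts.swap23.swap12 h.ns4 (by ring)
      (mul_ne_zero (mul_ne_zero two_ne_zero h.b0) h.n4)

end Pool.Agent.ZCQ
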