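import Pool.Agent.ZCQ.Dhom

/-!
# A point of infinite order on `V² = U (U - 169) (U + 1680)`
-/

set_option autoImplicit false

noncomputable section

namespace Pool.Agent.ZCQ

open WeierstrassCurve Pool.Agent.ZC
open scoped Classical

/-- The point `P` has an abscissa `a / (4 ^ k * b)` with `a`, `b` odd. -/
private def Good (k : ℕ) (P : (cc 169 (-1680)).toAffine.Point) : Prop :=
  ∃ (x y : ℚ) (h : (cc 169 (-1680)).toAffine.Nonsingular x y) (a b : ℤ),
    P = .some x y h ∧ Odd a ∧ Odd b ∧ x = a / (4 ^ k * b)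

private theorem rts : Rts (cc 169 (-1680)) 0 169 (-1680) :=
  cc_rts (by norm_num) (by norm_num) (by norm_num)

private theorem eqn {x y : ℚ} (h : (cc 169 (-1680)).toAffine.Nonsingular x y) :
    y ^ 2 = x * (x - 169) * (x + 1680) := by
  have h1 := (rts.nonsingular_iff x y).1 h
  rw [h1]
  ring

private theorem ne_negY {x y : ℚ} (hy : y ≠ 0) : y ≠ (cc 169 (-1680)).toAffine.negY x y := by
  have h1 : (cc 169 (-1680)).toAffine.negY x y = -y := by
    simp [Affine.negY, cc]
  rw [h1]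
  intro h2
  apply hy
  linarith

private theorem good_double {k : ℕ} (hk : k ≠ 0) {P : (cc 169 (-1680)).toAffine.Point}
    (h : Good k P) : Good (k + 1) (P + P) := by
  obtain ⟨x, y, hxy, a, b, rfl, ha, hb, hx⟩ := h
  have e1 := eqn hxy
  have h4 : Even ((4 : ℤ) ^ k) := by
    have : Even (4 : ℤ) := by decide
    exact this.pow_of_ne_zero hk
  set B : ℤ := a - 169 * 4 ^ k * b with hB
  set C : ℤ := a + 1680 * 4 ^ k * b with hC
  set A : ℤ := a ^ 2 + 283920 * (4 ^ k * b) ^ 2 with hA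
  have oB : Odd B := ha.sub_even ((h4.mul_left _).mul_right _)
  have oC : Odd C := ha.add_even ((h4.mul_left _).mul_right _)
  have oA : Odd A := ha.pow.add_even (Even.mul_right (by decide) _)
  have a0 : (a : ℚ) ≠ 0 := by
    intro h0
    rw [Int.cast_eq_zero] at h0
    rw [h0] at ha
    exact absurd ha (by decide)
  have b0 : (b : ℚ) ≠ 0 := by
    intro h0
    rw [Int.cast_eq_zero] at h0
    rw [h0] at hb
    exact absurd hb (by decide)
  have B0 : (B : ℚ) ≠ 0 := by
    intro h0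
    rw [Int.cast_eq_zero] at h0
    rw [h0] at oB
    exact absurd oB (by decide)
  have C0 : (C : ℚ) ≠ 0 := by
    intro h0
    rw [Int.cast_eq_zero] at h0
    rw [h0] at oC
    exact absurd oC (by decide)
  have p0 : (4 : ℚ) ^ k ≠ 0 := by positivity
  set D : ℚ := 4 ^ k * b with hD
  have D0 : D ≠ 0 := mul_ne_zero p0 b0
  have xB : x - 169 = B / D := by
    rw [hx, hB, eq_div_iff D0, hD]
    push_cast
    field_simp
  have xC : x + 1680 = C / D := by
    rw [hx, hC, eq_div_iff D0, hD]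
    push_cast
    field_simp
  have xA : x ^ 2 + 283920 = A / D ^ 2 := by
    rw [hx, hA, eq_div_iff (pow_ne_zero 2 D0), hD]
    push_cast
    field_simp
  have e2 : y ^ 2 = a * B * C / D ^ 3 := by
    rw [e1, xB, xC, hx]
    field_simp
  have y0 : y ≠ 0 := by
    rintro rfl
    have h1 : (a * B * C / D ^ 3 : ℚ) ≠ 0 :=
      div_ne_zero (mul_ne_zero (mul_ne_zero a0 B0) C0) (pow_ne_zero 3 D0)
    apply h1
    rw [← e2]
    norm_num
  refine ⟨_, _, _, A ^ 2, a * b * B * C, Affine.Point.add_self_of_Y_ne (ne_negY y0), oA.pow,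
    ((ha.mul hb).mul oB).mul oC, ?_⟩
  rw [Affine.slope_of_Y_ne rfl (ne_negY y0)]
  have h1 : (cc 169 (-1680)).toAffine.negY x y = -y := by
    simp [Affine.negY, cc]
  rw [h1]
  have h5 : (cc 169 (-1680)).toAffine.addX x x
      ((3 * x ^ 2 + 2 * (cc 169 (-1680)).a₂ * x + (cc 169 (-1680)).a₄ -
        (cc 169 (-1680)).a₁ * y) / (y - -y)) = (x ^ 2 + 283920) ^ 2 / (4 * y ^ 2) := by
    simp only [Affine.addX, cc]
    have h6 : y - -y = 2 * y := by ring
    rw [h6]
    field_simp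
    rw [e1]
    ring
  rw [h5, xA, e2]
  have h7 : (4 : ℚ) ^ (k + 1) * ((a * b * B * C : ℤ) : ℚ) = 4 * D * (a * B * C) := by
    push_cast
    rw [hD, pow_succ]
    ring
  rw [h7]
  push_cast
  field_simp

private theorem good_ne {k l : ℕ} (hkl : k < l) {P Q : (cc 169 (-1680)).toAffine.Point}
    (h : Good k P) (h' : Good l Q) : P ≠ Q := by
  obtain ⟨x, y, hxy, a, b, rfl, ha, hb, hx⟩ := h
  obtain ⟨x', y', hxy', a', b', rfl, ha', hb', hx'⟩ := h'
  intro h1
  rw [Affine.Point.some.injEq] at h1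
  have b0 : (b : ℚ) ≠ 0 := by
    intro h0
    rw [Int.cast_eq_zero] at h0
    rw [h0] at hb
    exact absurd hb (by decide)
  have b0' : (b' : ℚ) ≠ 0 := by
    intro h0
    rw [Int.cast_eq_zero] at h0
    rw [h0] at hb'
    exact absurd hb' (by decide)
  have p0 : (4 : ℚ) ^ k ≠ 0 := by positivity
  have p0' : (4 : ℚ) ^ l ≠ 0 := by positivity
  have h2 : (a : ℚ) / (4 ^ k * b) = a' / (4 ^ l * b') := by
    rw [← hx, ← hx', h1.1]
  rw [div_eq_div_iff (mul_ne_zero p0 b0) (mul_ne_zero p0' b0')] at h2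
  obtain ⟨m, rfl⟩ : ∃ m, l = k + (m + 1) := ⟨l - k - 1, by omega⟩
  have h3 : (a : ℚ) * 4 ^ (m + 1) * b' = a' * b := by
    apply mul_left_cancel₀ p0
    rw [pow_add] at h2
    linear_combination h2
  have h4 : a * 4 ^ (m + 1) * b' = a' * b := by exact_mod_cast h3
  have h5 : Odd (a' * b) := ha'.mul hb
  rw [← h4] at h5
  have h6 : Even (a * 4 ^ (m + 1) * b') := by
    have : Even (4 : ℤ) := by decide
    exact ((this.pow_of_ne_zero (Nat.succ_ne_zero m)).mul_left _).mul_right _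
  exact (Int.not_even_iff_odd.2 h5) h6

private theorem ns0 : (cc 169 (-1680)).toAffine.Nonsingular (-11271 / 16) (1567995 / 64) := by
  rw [rts.nonsingular_iff]
  norm_num

private def P0 : (cc 169 (-1680)).toAffine.Point := .some (-11271 / 16) (1567995 / 64) ns0

private theorem good_pow (n : ℕ) : Good (n + 2) (2 ^ n • P0) := by
  induction n with
  | zero =>
    rw [pow_zero, one_smul]
    refine ⟨_, _, ns0, -11271, 1, rfl, by decide, by decide, ?_⟩
    norm_num
  | succ n ih =>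
    have h1 := good_double (by omega) ih
    have h2 : 2 ^ (n + 1) • P0 = 2 ^ n • P0 + 2 ^ n • P0 := by
      rw [← add_smul, pow_succ]
      congr 1
      ring
    rw [h2]
    exact h1

private def R (n : ℕ) : (cc 169 (-1680)).toAffine.Point := P0 + 2 ^ (n + 1) • P0

private theorem R_inj : Function.Injective R := by
  intro m n hmn
  have h1 : 2 ^ (m + 1) • P0 = 2 ^ (n + 1) • P0 := add_left_cancel hmn
  by_contra h2
  rcases lt_or_gt_of_ne h2 with h3 | h3
  · exact good_ne (by omega) (good_pow (m + 1)) (good_pow (n + 1)) h1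
  · exact good_ne (by omega) (good_pow (n + 1)) (good_pow (m + 1)) h1.symm

private theorem dlQ {e₁ e₂ e₃ : ℚ} (h : Rts (cc 169 (-1680)) e₁ e₂ e₃)
    (P Q : (cc 169 (-1680)).toAffine.Point) :
    dl e₁ e₂ e₃ (P + Q) = dl e₁ e₂ e₃ P + dl e₁ e₂ e₃ Q :=
  dl_add h P Q

private theorem dl_some_ne {e₁ e₂ e₃ x y : ℚ} {h : (cc 169 (-1680)).toAffine.Nonsingular x y}
    (hx : x ≠ e₁) : dl e₁ e₂ e₃ (Affine.Point.some x y h) = cl (x - e₁) :=
  if_neg hx

private theorem dl_R {e₁ e₂ e₃ : ℚ} (h : Rts (cc 169 (-1680)) e₁ e₂ e₃) (n : ℕ) :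
    dl e₁ e₂ e₃ (R n) = dl e₁ e₂ e₃ P0 := by
  have h1 : R n = P0 + (2 ^ n • P0 + 2 ^ n • P0) := by
    unfold R
    rw [← add_smul, pow_succ]
    congr 2
    ring
  rw [h1, dlQ h, dlQ h, cl_add_self, add_zero]

private theorem xfin (G : Set (Fin 2 → ℚ)) (hG : G.Finite) : {n : ℕ | (R n).xRep ∈ G}.Finite := by
  have h1 : ((fun P : (cc 169 (-1680)).toAffine.Point => P.xRep) ⁻¹' G).Finite := by
    refine Set.Finite.preimage' hG fun v _ => ?_
    by_cases hv : ∃ P : (cc 169 (-1680)).toAffine.Point, P.xRep = v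
    · obtain ⟨P, rfl⟩ := hv
      refine (Set.toFinite {P, -P}).subset fun Q hQ => ?_
      have h4 : Q.xRep = P.xRep := hQ
      rcases Affine.Point.eq_or_eq_neg_of_xRep_eq_xRep h4 with h5 | h5
      · exact Or.inl h5
      · exact Or.inr h5
    · refine (Set.finite_empty).subset fun Q hQ => hv ⟨Q, hQ⟩
  exact Set.Finite.preimage (f := R) R_inj.injOn h1

theorem exists_point (F : Finset ℚ) : ∃ v s t : ℚ, s ^ 2 = 43 * (35 - 13 * v ^ 2) ∧
    t ^ 2 = 43 * (48 * v ^ 2 + 13) ∧ v ^ 2 ∉ F := by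
  set G : Set (Fin 2 → ℚ) := (insert ![1, 0] (insert ![0, 1] (insert ![169, 1] (insert ![-1680, 1]
    ((fun f : ℚ => (![-624 * f, 1] : Fin 2 → ℚ)) '' (F : Set ℚ)))))) with hG
  have hGf : G.Finite := (((((F.finite_toSet.image _).insert _).insert _).insert _).insert _)
  obtain ⟨n, hn⟩ := (Set.infinite_univ.sdiff (xfin G hGf)).nonempty
  have hnG : (R n).xRep ∉ G := hn.2
  have d1 := dl_R rts n
  have d2 := dl_R rts.swap12 n
  have d3 := dl_R rts.swap23.swap12 n
  revert hnG d1 d2 d3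
  generalize R n = Q
  match Q with
  | 0 =>
    intro h1
    exact absurd (Set.mem_insert _ _) h1
  | .some U V hUV =>
    intro h1 d1 d2 d3
    rw [Affine.Point.xRep_some] at h1
    have u0 : U ≠ 0 := by
      rintro rfl
      exact h1 (Set.mem_insert_of_mem _ (Set.mem_insert _ _))
    have u1 : U ≠ 169 := by
      rintro rfl
      exact h1 (Set.mem_insert_of_mem _ (Set.mem_insert_of_mem _ (Set.mem_insert _ _)))
    have u2 : U ≠ -1680 := by
      rintro rfl
      exact h1 (Set.mem_insert_of_mem _ (Set.mem_insert_of_mem _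
        (Set.mem_insert_of_mem _ (Set.mem_insert _ _))))
    have u3 : ∀ f ∈ F, U ≠ -624 * f := by
      rintro f hf rfl
      exact h1 (Set.mem_insert_of_mem _ (Set.mem_insert_of_mem _
        (Set.mem_insert_of_mem _ (Set.mem_insert_of_mem _ ⟨f, hf, rfl⟩))))
    rw [P0, dl_some_ne u0, dl_some_ne (by norm_num), cl_eq_cl (sub_ne_zero.2 u0) (by norm_num)] at d1
    rw [P0, dl_some_ne u1, dl_some_ne (by norm_num), cl_eq_cl (sub_ne_zero.2 u1) (by norm_num)] at d2
    rw [P0, dl_some_ne u2, dl_some_ne (by norm_num), cl_eq_cl (sub_ne_zero.2 u2) (by norm_num)] at d3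
    obtain ⟨a, ha⟩ := d1
    obtain ⟨b, hb⟩ := d2
    obtain ⟨c, hc⟩ := d3
    refine ⟨a / 663, c / 33, 4 * b / 65, ?_, ?_, ?_⟩
    · linear_combination (-1 / 1089) * hc - (43 * 13 / 663 ^ 2) * ha
    · linear_combination (-16 / 4225) * hb + (43 * 48 / 663 ^ 2) * ha
    · intro h2
      apply u3 _ h2
      linear_combination (-624 / 663 ^ 2) * ha

end Pool.Agent.ZCQ
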